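import Pool.Agent.Lib.MP_61a4e3_al.N.Tr

/-! Elements of the congruence group are elementary up to the stabiliser of the pair. -/

set_option linter.unusedSectionVars false
set_option linter.unusedVariables false
set_option linter.unusedSimpArgs false

namespace Pool.Agent.Lib.MP_61a4e3_al.R.T92

open Matrix WG Form

variable {O : Type} [CommRing O] [StarRing O] [IsDomain O] {ι : Type} [Fintype ι]
  [DecidableEq ι] {F : Form O ι} {P : Submodule O (ι → O)} {f f' ρ : ι → O} {l D : O}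

lemma pi_dvd_c (H : RH F.z) {k x : ι → O} {c : O} (e : F.IsE k x c) (hx : Dv (1 - F.z) x) :
    (1 - F.z) ∣ c := by
  obtain ⟨y, rfl⟩ := hx.exists
  obtain ⟨q, hq⟩ := H.one_add_dvd_tau (F.qf y)
  have h : (1 - F.z) ∣ star c := H.pi_dvd_of_tau ⟨star (1 - F.z) * q, by
    rw [star_star, add_comm, e.hc, B_smul_left, B_smul_right, F.B_self, hq]; ring⟩
  have := star_dvd_star' h
  rw [star_star] at this
  exact H.pi_dvd_star.trans this

lemma EL_le_lev (H : RH F.z) : EL F P f f' l ≤ lev F (1 - F.z) := by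
  rw [EL, Subgroup.closure_le]
  rintro g (⟨x, c, e, hx, hd, rfl⟩ | ⟨x, c, e, hx, hd, rfl⟩)
  · exact mkE_mem_lev H.pi_dvd_star e hd (pi_dvd_c H e hd)
  · exact mkE_mem_lev H.pi_dvd_star _ (hd.smul _) ((pi_dvd_c H e hd).mul_left _)

lemma EL_le_sup (fP : f ∈ P) (f'P : f' ∈ P) : EL F P f f' l ≤ sup F P := by
  rw [EL, Subgroup.closure_le]
  rintro g (⟨x, c, e, hx, hd, rfl⟩ | ⟨x, c, e, hx, hd, rfl⟩)
  · exact mkE_mem_sup e f'P (mem_LL.1 hx).1
  · exact mkE_mem_sup _ fP (P.smul_mem _ (mem_LL.1 hx).1)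

lemma EL_le_detK : EL F P f f' l ≤ detK F := by
  rw [EL, Subgroup.closure_le]
  rintro g (⟨x, c, e, hx, hd, rfl⟩ | ⟨x, c, e, hx, hd, rfl⟩)
  · exact det_mkE e
  · exact det_mkE _

lemma EL_le_of_good {Γ : Subgroup (WG F)} (h : Good Γ f) (h' : Good Γ f') : EL F P f f' l ≤ Γ := by
  rw [EL, Subgroup.closure_le]
  rintro g (⟨x, c, e, hx, hd, rfl⟩ | ⟨x, c, e, hx, hd, rfl⟩)
  · exact (h' x c e hd).mem e
  · exact (h _ _ (scaleE e l) (hd.smul _)).mem _

/-- Coordinates of a triple. -/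
lemma co_triple (T : Hyp F f f') (a b : O) {x : ι → O} (x1 : F.B f x = 0) (x2 : F.B f' x = 0) :
    aco F f' (a • f + b • f' + x) = a ∧ F.B f (a • f + b • f' + x) = b ∧
      xco F f f' (a • f + b • f' + x) = x := by
  have h1 : aco F f' (a • f + b • f' + x) = a := by
    simp only [aco, B_add_right, B_smul_right, T.f'f, T.f'f', x2]
    linear_combination a * F.hz
  have h2 : F.B f (a • f + b • f' + x) = b := by simp [T.ff, T.ff', x1]
  exact ⟨h1, h2, by rw [xco, h1, h2]; abel⟩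

lemma xco_orth (T : Hyp F f f') (v : ι → O) :
    F.B f (xco F f f' v) = 0 ∧ F.B f' (xco F f f' v) = 0 :=
  (mem_LL.1 (pair_decomp (P := ⊤) T trivial trivial (v := v) trivial).1).2

lemma vl_mkE' (T : Hyp F f f') {x v : ι → O} {c : O} (e : F.IsE f' x c) (x1 : F.B f x = 0)
    (hv : Vl F f f' l v) : Vl F f f' l (act (mkE e) *ᵥ v) := by
  obtain ⟨-, ev⟩ := pair_decomp (P := ⊤) T trivial trivial (v := v) trivial
  obtain ⟨v1, v2⟩ := xco_orth T v
  have h : act (mkE e) *ᵥ v = aco F f' v • f +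
      (F.B f v + (star F.z * F.B x v - c * F.B f' v)) • f' + (xco F f f' v - F.B f' v • x) := by
    rw [act_mkE, xco]; module
  obtain ⟨c1, -, c3⟩ := co_triple T (aco F f' v)
    (F.B f v + (star F.z * F.B x v - c * F.B f' v)) (x := xco F f f' v - F.B f' v • x)
    (by simp [v1, x1]) (by simp [v2, e.kx])
  rw [Vl, h, c1, c3]
  refine ⟨hv.1, hv.2.sub (Dv.smul_of_dvd ?_ _)⟩
  have : F.B f' v = F.z * aco F f' v := by rw [aco]; linear_combination (-F.B f' v) * F.hz
  rw [this]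
  exact ((dvd_mul_left _ l).trans hv.1).mul_left _

lemma vl_mkE (T : Hyp F f f') {x v : ι → O} {c : O} (e : F.IsE f x c) (x2 : F.B f' x = 0)
    (hv : Vl F f f' l v) : Vl F f f' l (act (mkE (scaleE e l)) *ᵥ v) := by
  obtain ⟨-, ev⟩ := pair_decomp (P := ⊤) T trivial trivial (v := v) trivial
  obtain ⟨v1, v2⟩ := xco_orth T v
  have h : act (mkE (scaleE e l)) *ᵥ v =
      (aco F f' v + (star F.z * F.B (star l • x) v - l * star l * c * F.B f v)) • f +
      F.B f v • f' + (xco F f f' v - F.B f v • star l • x) := by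
    rw [act_mkE, xco]; module
  obtain ⟨c1, -, c3⟩ := co_triple T
    (aco F f' v + (star F.z * F.B (star l • x) v - l * star l * c * F.B f v)) (F.B f v)
    (x := xco F f f' v - F.B f v • star l • x) (by simp [v1, e.kx]) (by simp [v2, x2])
  rw [Vl, h, c1, c3]
  refine ⟨dvd_add hv.1 (dvd_sub ?_ ((dvd_mul_right _ c).mul_right _)),
    hv.2.sub ((Dv.smul_self _ _).smul _)⟩
  have : F.B x v = F.B x (xco F f f' v) := by
    simp [xco, F.B_eq_zero_swap e.kx, F.B_eq_zero_swap x2]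
  rw [B_smul_left, star_star, this]
  exact (mul_dvd_mul_left l (hv.2.B_right F x)).mul_left _

/-- The elementary group preserves the position `Vl`. -/
lemma vl_EL (T : Hyp F f f') {e : WG F} (he : e ∈ EL F P f f' l) :
    (∀ v, Vl F f f' l v → Vl F f f' l (act e *ᵥ v)) ∧
      ∀ v, Vl F f f' l v → Vl F f f' l (act e⁻¹ *ᵥ v) := by
  induction he using Subgroup.closure_induction with
  | mem g hg =>
    rcases hg with ⟨x, c, e, hx, hd, rfl⟩ | ⟨x, c, e, hx, hd, rfl⟩
    · obtain ⟨-, x1, x2⟩ := mem_LL.1 hx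
      refine ⟨fun v => vl_mkE' T e x1, fun v hv => ?_⟩
      rw [mkE_inv]
      exact vl_mkE' T _ (by simp [x1]) hv
    · obtain ⟨-, x1, x2⟩ := mem_LL.1 hx
      refine ⟨fun v => vl_mkE T e x2, fun v hv => ?_⟩
      rw [mkE_inv, mkE_congr (scaleE e l).inv (scaleE e.inv l) (by
        congr 1
        · rw [smul_neg]
        · simp only [star_mul, star_star]; ring)]
      exact vl_mkE T e.inv (by simp [x2]) hv
  | one => simp
  | mul a b _ _ ha hb =>
    refine ⟨fun v hv => ?_, fun v hv => ?_⟩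
    · rw [act_mul_mulVec]; exact ha.1 _ (hb.1 _ hv)
    · rw [_root_.mul_inv_rev, act_mul_mulVec]; exact hb.2 _ (ha.2 _ hv)
  | inv a _ ha => exact ⟨ha.2, by simpa using ha.1⟩

lemma B_W_of_fix {g : WG F} {k : ι → O} (h : act g *ᵥ k = k) (y : ι → O) :
    F.B k (g.W *ᵥ y) = 0 := by
  have h1 : act g⁻¹ *ᵥ k = k := by nth_rewrite 1 [← h]; rw [act_inv_act]
  rw [act_mulVec, sub_eq_self, inv_W, Form.tau, smul_mulVec] at h1
  have h2 : g.Wᴴ *ᵥ (F.A *ᵥ k) = 0 := by
    have := congrArg (F.z • ·) h1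
    simpa only [smul_smul, F.hz, one_smul, smul_zero] using this
  refine F.B_eq_zero_swap ?_
  rw [Form.B, star_mulVec, ← dotProduct_mulVec, h2, dotProduct_zero]

/-- What fixes the pair is supported on the complement. -/
lemma sup_LL_of_fix {g : WG F} (hg : g ∈ sup F P) (h : act g *ᵥ f = f) (h' : act g *ᵥ f' = f') :
    g ∈ sup F (LL F P f f') := fun y => mem_LL.2 ⟨hg y, B_W_of_fix h y, B_W_of_fix h' y⟩

/-- An element fixing `f`, in position `Vl`, is a unipotent times an element fixing the pair. -/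
lemma fix_step (H : RH F.z) (T : Fr0 F P f f' ρ) (hl : IsCoprime l (star l)) {g : WG F}
    (hP : g ∈ sup F P) (hg : g ∈ lev F (1 - F.z)) (h : act g *ᵥ f = f)
    (hV : Vl F f f' l (act g *ᵥ f')) : ∃ e ∈ EL F P f f' l, act e *ᵥ f = f ∧
      act (e * g) *ᵥ f' = f' := by
  have hz := F.hz
  have l0 := ne_zero_of_cop_star hl
  obtain ⟨hx, ev⟩ := pair_decomp T.hyp T.fP T.f'P (act_mem hP T.f'P)
  have b1 : F.B f (act g *ᵥ f') = 1 := by
    nth_rewrite 1 [← h]; rw [B_act, T.hyp.ff']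
  have n : tN F (aco F f' (act g *ᵥ f')) (F.B f (act g *ᵥ f')) (xco F f f' (act g *ᵥ f')) = 0 := by
    rw [← norm_triple T.hyp _ _ hx, ← ev, B_act, T.hyp.f'f']
  have d1 : Dv (1 - F.z) (xco F f f' (act g *ᵥ f')) := by
    have d := dv_act_sub hg f'
    have e : xco F f f' (act g *ᵥ f') =
        (act g *ᵥ f' - f') - (star F.z * F.B f' (act g *ᵥ f' - f')) • f := by
      rw [xco, b1, aco, B_sub_right, T.hyp.f'f']; module
    rw [e]
    exact d.sub (Dv.smul_of_dvd ((d.B_right F f').mul_left _) _)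
  have cp : IsCoprime (star l) (1 - F.z) :=
    (H.cop_pi (a := star l) (by rw [star_star]; exact hl.symm)).of_mul_right_left
  obtain ⟨⟨a0, ha0⟩, d2⟩ := hV
  obtain ⟨u, hu⟩ := Dv.exists (q := star l * (1 - F.z)) (fun i => cp.mul_dvd (d2 i) (d1 i))
  have uL : u ∈ LL F P f f' :=
    sat_LL T.sat _ u (mul_ne_zero (star_ne_zero.2 l0) H.one_sub) (hu ▸ hx)
  obtain ⟨-, u1, u2⟩ := mem_LL.1 uL
  rw [← smul_smul] at hu
  rw [b1, ha0, hu] at ev n
  generalize hy : (1 - F.z) • u = y at ev n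
  have y1 : F.B f y = 0 := by simp [← hy, u1]
  have y2 : F.B f' y = 0 := by simp [← hy, u2]
  have n' : F.z * a0 + star a0 + F.B y y = 0 := by
    refine mul_left_cancel₀ (mul_ne_zero l0 (star_ne_zero.2 l0)) ?_
    simp only [tN, B_smul_left, B_smul_right, star_mul, star_star, star_one] at n
    linear_combination n
  have e : F.IsE f y (a0 + star F.z * F.B y y) := ⟨T.hyp.ff, y1, by
    rw [star_add, star_mul, star_star]
    linear_combination n' + F.B y y * hz - F.B_swap y y⟩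
  refine ⟨mkE (scaleE e l), Subgroup.subset_closure (Or.inr ⟨y, _, e,
    hy ▸ Submodule.smul_mem _ _ uL, hy ▸ Dv.smul_self _ _, rfl⟩), ?_, ?_⟩
  · rw [act_mkE]; simp [T.hyp.ff, F.B_eq_zero_swap y1]
  · rw [act_mul_mulVec, ev, act_mkE]
    simp only [B_add_right, B_smul_right, B_smul_left, T.hyp.ff, T.hyp.ff', y1,
      F.B_eq_zero_swap y1, F.B_eq_zero_swap y2, star_star]
    module

/-- The congruence group is the elementary group times the stabiliser of the pair. -/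
theorem a2 [CharZero O] (H : RH F.z) (T : Fr F P f f' ρ D) (hl : Nice D l) {g : WG F}
    (hP : g ∈ sup F P) (hg : g ∈ lev F (1 - F.z))
    (ha : (1 - F.z) ^ 2 * l ∣ aco F f' (act g *ᵥ f) - 1) (hV : Vl F f f' l (act g *ᵥ f')) :
    ∃ e ∈ EL F P f f' l, ∃ m ∈ sup F (LL F P f f') ⊓ lev F (1 - F.z), g = e * m := by
  have hz := F.hz
  obtain ⟨e, he, h⟩ := transT H T hl (v := act g *ᵥ f) ⟨act_mem hP T.fP, dv_act_sub hg f,
    by rw [B_act, T.hyp.ff], ha, F.z • (act g *ᵥ f'), P.smul_mem _ (act_mem hP T.f'P), by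
      have : F.B f' (act g *ᵥ f') = F.z * aco F f' (act g *ᵥ f') := by
        rw [aco]; linear_combination (-F.B f' (act g *ᵥ f')) * hz
      rw [B_smul_right, this]
      exact (((dvd_mul_right l _).trans hV.1).mul_left _).mul_left _,
    by rw [B_smul_left, B_act, T.hyp.f'f, F.hz']⟩
  rw [← act_mul_mulVec] at h
  have p1 := mul_mem (EL_le_sup T.fP T.f'P he) hP
  have l1 := mul_mem (EL_le_lev H he) hg
  obtain ⟨e', he', h1, h2⟩ := fix_step H T.toFr0 hl.1 p1 l1 h (by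
    rw [act_mul_mulVec]; exact (vl_EL T.hyp he).1 _ hV)
  refine ⟨(e' * e)⁻¹, inv_mem (mul_mem he' he), e' * (e * g),
    ⟨sup_LL_of_fix (mul_mem (EL_le_sup T.fP T.f'P he') p1) (by rw [act_mul_mulVec, h, h1]) h2,
      mul_mem (EL_le_lev H he') l1⟩, by group⟩

lemma vl_one (v : ι → O) : Vl F f f' 1 v := ⟨by simp, fun i => by simp⟩

/-- The case `l = 1`. -/
theorem a2_one [CharZero O] (H : RH F.z) (T : Fr F P f f' ρ D) {g : WG F}
    (hP : g ∈ sup F P) (hg : g ∈ lev F (1 - F.z))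
    (ha : (1 - F.z) ^ 2 ∣ aco F f' (act g *ᵥ f) - 1) :
    ∃ e ∈ EL F P f f' 1, ∃ m ∈ sup F (LL F P f f') ⊓ lev F (1 - F.z), g = e * m :=
  a2 H T ⟨isCoprime_one_left, isCoprime_one_left⟩ hP hg (by rwa [mul_one]) (vl_one _)

end Pool.Agent.Lib.MP_61a4e3_al.R.T92
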