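import Pool.Agent.Lib.MP_61a4e3_al.RingLem
import Pool.Agent.Lib.MP_61a4e3_al.Men1

/-! Binary approximation: norm one pairs of a binary form with prescribed residues. -/

set_option linter.unusedSectionVars false
set_option linter.unusedVariables false
set_option linter.unusedSimpArgs false

namespace Pool.Agent.Lib.MP_61a4e3_al

open Matrix

variable {O : Type} [CommRing O]

/-- The matrix of multiplication by `s + t j`, `j * j = de`. -/
def baG (de s t : O) : Matrix (Fin 2) (Fin 2) O := !![s, de * t; t, s]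

lemma baG_mul (de s t s' t' : O) :
    baG de s t * baG de s' t' = baG de (s * s' + de * t * t') (t * s' + s * t') := by
  ext i j
  fin_cases i <;> fin_cases j <;> simp [baG, Matrix.mul_apply, Fin.sum_univ_two] <;> ring

lemma baG_one (de : O) : baG de 1 0 = 1 := by
  ext i j
  fin_cases i <;> fin_cases j <;> simp [baG]

lemma baG_t {de s t s' t' : O} (h : baG de s t = baG de s' t') : t = t' := by
  simpa [baG] using congrFun (congrFun h 1) 0

lemma ba_ord {de s t m : O} (h : s ^ 2 - de * t ^ 2 = 1) (hm : Finite (O ⧸ Ideal.span {m})) :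
    ∃ r, 0 < r ∧ m ∣ (baG de s t ^ r) 1 0 := by
  let φ := (Ideal.Quotient.mk (Ideal.span {m})).mapMatrix (m := Fin 2)
  have e : baG de s t * baG de s (-t) = 1 := by
    rw [baG_mul, ← baG_one de]
    congr 1
    · linear_combination h
    · ring
  have hu : IsUnit (φ (baG de s t)) := (IsUnit.of_mul_eq_one _ e).map φ
  obtain ⟨k, hk, e2⟩ := isOfFinOrder_iff_pow_eq_one.1 (isOfFinOrder_of_finite hu.unit)
  refine ⟨k, hk, ?_⟩
  have e3 : φ (baG de s t ^ k) = 1 := by
    rw [map_pow]; simpa using congrArg Units.val e2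
  rw [← Ideal.mem_span_singleton, ← Ideal.Quotient.eq_zero_iff_mem]
  have := congrFun (congrFun e3 1) 0
  simpa [φ] using this

lemma ba_nat {r n : ℕ} (hr : 0 < r) :
    ∃ e0 M : ℕ, r ∣ n ^ e0 * M ∧ (n : O) ∣ (M : O) - 1 := by
  have hf : Finite (ℤ ⧸ Ideal.span {(r : ℤ)}) := by
    have : NeZero r := ⟨hr.ne'⟩
    exact Finite.of_equiv _ (Int.quotientSpanNatEquivZMod r).toEquiv.symm
  obtain ⟨k, s, h⟩ := exists_pow_dvd hf (n : ℤ)
  obtain ⟨M, hM⟩ := Int.eq_ofNat_of_zero_le (sq_nonneg (1 - (n : ℤ) * s))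
  refine ⟨k, M, ?_, ?_⟩
  · rw [← Int.natCast_dvd_natCast]
    push_cast
    rw [← hM, pow_two, ← mul_assoc]
    exact h.mul_right _
  · have : (M : O) = (1 - (n : O) * (s : O)) ^ 2 := by
      have := congrArg (Int.cast : ℤ → O) hM
      push_cast at this
      exact this.symm
    rw [this]
    exact ⟨-2 * s + n * s ^ 2, by ring⟩

variable [StarRing O]

lemma ba_pow {de s t : O} (hs : star s = s) (h : s ^ 2 - de * t ^ 2 = 1) (M : ℕ) :
    ∃ s' U, baG de s t ^ M = baG de s' (t * U) ∧ star s' = s' ∧ star U = U ∧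
      s' ^ 2 - de * (t * U) ^ 2 = 1 ∧ s - 1 ∣ s' - 1 ∧ s - 1 ∣ U - M := by
  induction M with
  | zero => exact ⟨1, 0, by simp [baG_one], by simp, by simp, by simp, by simp, by simp⟩
  | succ M ih =>
    obtain ⟨s', U, e, h1, h2, h3, ⟨c, hc⟩, ⟨c', hc'⟩⟩ := ih
    refine ⟨s' * s + (s ^ 2 - 1) * U, s' + U * s, ?_, by simp [hs, h1, h2, mul_comm],
      by simp [hs, h1, h2, mul_comm], ?_, ⟨c * s + 1 + (s + 1) * U, ?_⟩, ⟨c + U + c', ?_⟩⟩
    · rw [pow_succ, e, baG_mul]
      congr 1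
      · linear_combination (-U) * h
      · ring
    · linear_combination h3 + ((s' + U * s) ^ 2 - U ^ 2) * h
    · linear_combination s * hc
    · push_cast
      linear_combination hc + hc'

lemma ba_iter {de s t : O} {n : ℕ} (hs : star s = s) (ht : star t = t)
    (h : s ^ 2 - de * t ^ 2 = 1) (hn : (n : O) ^ 2 ∣ s - 1) (e : ℕ) :
    ∃ s' t' th, baG de s t ^ (n ^ e) = baG de s' t' ∧ t' = t * (n : O) ^ e * th ∧ star s' = s' ∧
      star t' = t' ∧ s' ^ 2 - de * t' ^ 2 = 1 ∧ s - 1 ∣ s' - 1 ∧ (n : O) ∣ th - 1 := by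
  induction e with
  | zero => exact ⟨s, t, 1, by simp, by simp, hs, ht, h, dvd_rfl, by simp⟩
  | succ e ih =>
    obtain ⟨s', t', th, e1, e2, h1, h2, h3, h4, ⟨c, hc⟩⟩ := ih
    obtain ⟨s2, U, f1, f2, f3, f4, f5, f6⟩ := ba_pow h1 h3 n
    obtain ⟨d, hd⟩ := (hn.trans h4).trans f6
    refine ⟨s2, t' * U, th * (1 + n * d), by rw [pow_succ, pow_mul, e1, f1], ?_, f2,
      by simp [h2, f3, mul_comm], f4, h4.trans f5, ⟨c * (1 + n * d) + d, ?_⟩⟩
    · rw [e2, pow_succ]
      linear_combination t * (n : O) ^ e * th * hd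
    · linear_combination (1 + n * d) * hc

variable [IsDomain O] [CharZero O]

theorem ba (fin : ∀ m : O, m ≠ 0 → Finite (O ⧸ Ideal.span {m})) {de : O}
    (pell : ∀ N : O, star N = N → N ≠ 0 → ∃ s t, star s = s ∧ star t = t ∧ t ≠ 0 ∧
      s ^ 2 - de * t ^ 2 = 1 ∧ N ∣ s - 1 ∧ N ∣ t)
    (cls : ∀ (n : ℕ) (a : O), n ≠ 0 → a ≠ 0 → ∃ (h : ℕ) (al be : O) (j : ℕ), 0 < h ∧
      (n : O) ^ h = al * be ∧ IsCoprime be a ∧ al ∣ a ^ j)
    {a N : O} (β : O) (haa : IsCoprime a (star a)) (haN : IsCoprime a N) (hN : star N = N)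
    (hN0 : N ≠ 0) : ∃ s y, star s = s ∧ s ^ 2 - de * (y * star y) = 1 ∧ N ∣ s - 1 ∧ N ∣ y ∧
      a ∣ s - 1 ∧ a ∣ y - β ∧ a ∣ star y := by
  have stc : ∀ {x y : O}, IsCoprime x y → IsCoprime (star x) (star y) := fun h =>
    h.map (starRingEnd O)
  by_cases hu : IsUnit a
  · obtain ⟨s, t, h1, h2, _, h4, h5, h6⟩ := pell N hN hN0
    exact ⟨s, t, h1, by rw [h2]; linear_combination h4, h5, h6, hu.dvd, hu.dvd, hu.dvd⟩
  have ha0 : a ≠ 0 := by
    rintro rfl
    rw [star_zero] at haa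
    exact not_isCoprime_zero_zero haa
  have := fin a ha0
  obtain ⟨n, hn0, han⟩ : ∃ n : ℕ, n ≠ 0 ∧ a ∣ (n : O) := by
    refine ⟨Nat.card (O ⧸ Ideal.span {a}), Nat.card_pos.ne', ?_⟩
    rw [← Ideal.mem_span_singleton, ← Ideal.Quotient.eq_zero_iff_mem, map_natCast,
      ← nsmul_one]
    exact card_nsmul_eq_zero'
  have hnO : (n : O) ≠ 0 := Nat.cast_ne_zero.2 hn0
  obtain ⟨s0, u0, p1, p2, p3, p4, p5, p6⟩ := pell (N * (n : O) ^ 2) (by simp [hN, mul_comm])
    (mul_ne_zero hN0 (pow_ne_zero _ hnO))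
  obtain ⟨k, c, x', hx⟩ := exists_pow_dvd (fin u0 p3) a
  have c1 : IsCoprime (star a) N := by simpa [hN] using stc haN
  obtain ⟨w, w1, w2⟩ := crt c1 (star β) 1
  obtain ⟨nub, ⟨m, hm⟩, n2⟩ := crt (IsCoprime.pow_left (m := k + 1) (haa.mul_right haN)) u0 w
  have nb : star a ∣ nub - star β := by
    have := dvd_add ((dvd_mul_right _ _).trans n2) w1
    simpa using this
  have nN : N ∣ nub - 1 := by
    have := dvd_add ((dvd_mul_left _ _).trans n2) w2
    simpa using this
  obtain ⟨rho, hrho⟩ : ∃ rho, rho = 1 - a * c + a * x' * m := ⟨_, rfl⟩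
  have er : (1 - a * c) * nub = u0 * rho := by
    rw [hrho]; linear_combination (1 - a * c) * hm + a * m * hx
  have ra : a ∣ rho - 1 := ⟨x' * m - c, by rw [hrho]; ring⟩
  have nub0 : nub ≠ 0 := by
    rintro rfl
    have : rho = 0 := (mul_eq_zero.1 (by rw [← er, mul_zero])).resolve_left p3
    rw [this, zero_sub, dvd_neg] at ra
    exact hu (isUnit_of_dvd_one ra)
  obtain ⟨r, hr, hrd⟩ := ba_ord p4 (fin nub nub0)
  obtain ⟨e0, M', hM1, hM2⟩ := ba_nat (O := O) (n := n) hr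
  obtain ⟨h, al, be, j, hh, hab, cb, aj⟩ := cls n a hn0 ha0
  have cal : IsCoprime (star al) a := by
    have h1 : star al ∣ star a ^ j := by
      obtain ⟨q, hq⟩ := aj
      exact ⟨star q, by rw [← star_pow, hq, star_mul, mul_comm]⟩
    exact (IsCoprime.pow_left (m := j) haa.symm).of_isCoprime_of_dvd_left h1
  obtain ⟨k1, hk1, hk2⟩ := exists_pow_sub_one (fin a ha0) (cal.mul_left cb)
  have aal : a ∣ al := cb.symm.dvd_of_dvd_mul_right (hab ▸ han.trans (dvd_pow_self _ hh.ne'))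
  obtain ⟨l, hl⟩ : ∃ l, l = k1 * (e0 + 1) := ⟨_, rfl⟩
  have l0 : l ≠ 0 := by rw [hl]; positivity
  have le0 : e0 ≤ h * l := by
    rw [hl]; nlinarith [Nat.mul_le_mul hh hk1, Nat.zero_le e0]
  have hl2 : a ∣ (star al * be) ^ l - 1 := by
    rw [hl, pow_mul]
    exact hk2.trans (by simpa using sub_dvd_pow_sub_pow ((star al * be) ^ k1) 1 (e0 + 1))
  obtain ⟨s1, t1, th, g1, g2, g3, g4, g5, g6, g7⟩ := ba_iter p1 p2 p4
    ((dvd_mul_left _ _).trans p5) (h * l)
  obtain ⟨s2, U, f1, f2, f3, f4, f5, f6⟩ := ba_pow g3 g5 M'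
  have nU : (n : O) ∣ U - 1 := by
    have h1 : (n : O) ∣ U - M' :=
      (((dvd_pow_self _ two_ne_zero).trans (dvd_mul_left _ _)).trans p5).trans (g6.trans f6)
    simpa using dvd_add h1 hM2
  have nt : nub ∣ t1 * U := by
    obtain ⟨q, hq⟩ : r ∣ n ^ (h * l) * M' :=
      hM1.trans (Nat.mul_dvd_mul_right (pow_dvd_pow _ le0) _)
    obtain ⟨s3, U3, i1, i2, -, i4, -, -⟩ := ba_pow p1 p4 r
    obtain ⟨s4, U4, j1, -⟩ := ba_pow i2 i4 q
    have e1 : baG de s2 (t1 * U) = baG de s4 (u0 * U3 * U4) := by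
      rw [← f1, ← g1, ← pow_mul, hq, pow_mul, i1, j1]
    rw [baG_t e1]
    rw [i1] at hrd
    exact Dvd.dvd.mul_right (by simpa [baG] using hrd) _
  have eX : t1 * U = al ^ l * (u0 * be ^ l * (th * U)) := by
    rw [g2, pow_mul, hab, mul_pow]; ring
  have cr : IsCoprime (al ^ l) rho :=
    (((cop_of_dvd_sub_one ra).pow_right (n := j)).of_isCoprime_of_dvd_right aj).symm.pow_left
  obtain ⟨kap, hk⟩ : nub ∣ u0 * be ^ l * (th * U) := by
    obtain ⟨u, v, huv⟩ := cr
    have h1 : nub ∣ rho * (u0 * be ^ l * (th * U)) :=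
      ⟨(1 - a * c) * be ^ l * (th * U), by linear_combination (-(be ^ l * (th * U))) * er⟩
    have := dvd_add ((eX ▸ nt).mul_left u) (h1.mul_left v)
    convert this using 1
    linear_combination (-(u0 * be ^ l * (th * U))) * huv
  have ek : (1 - a * c) * be ^ l * (th * U) = rho * kap := by
    apply mul_left_cancel₀ p3
    linear_combination (1 - a * c) * hk + kap * er
  have ak : a ∣ kap - be ^ l := by
    obtain ⟨q1, h1⟩ := ra
    obtain ⟨q2, h2⟩ := han.trans g7
    obtain ⟨q3, h3⟩ := han.trans nU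
    exact ⟨be ^ l * (q2 * U + q3 - c * (th * U)) - kap * q1, by
      linear_combination -ek - kap * h1 + be ^ l * U * h2 + be ^ l * h3⟩
  have Nk : N ∣ kap := by
    refine (cop_of_dvd_sub_one nN).symm.dvd_of_dvd_mul_left ?_
    rw [← hk]
    exact ((((dvd_mul_right _ _).trans p6).mul_right _).mul_right _)
  have tr : star (t1 * U) = t1 * U := by simp [g4, f3, mul_comm]
  have s21 : N * (n : O) ^ 2 ∣ s2 - 1 := p5.trans (g6.trans f5)
  refine ⟨s2, star al ^ l * star nub * kap, f2, ?_, (dvd_mul_right _ _).trans s21,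
    Nk.mul_left _, (han.trans ((dvd_pow_self _ two_ne_zero).trans (dvd_mul_left _ _))).trans s21,
    ?_, ?_⟩
  · have e1 : star al ^ l * star nub * kap * star (star al ^ l * star nub * kap) =
        (al ^ l * (nub * kap)) * star (al ^ l * (nub * kap)) := by
      simp only [star_mul, star_pow, star_star]; ring
    rw [e1, ← hk, ← eX, tr]
    linear_combination f4
  · obtain ⟨q1, h1⟩ := nb
    have h1' : star nub - β = a * star q1 := by
      have := congrArg star h1
      simpa [mul_comm] using this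
    obtain ⟨q2, h2⟩ := ak
    obtain ⟨q3, h3⟩ := hl2
    rw [mul_pow] at h3
    exact ⟨star al ^ l * star nub * q2 + star nub * q3 + star q1, by
      linear_combination star al ^ l * star nub * h2 + star nub * h3 + h1'⟩
  · simp only [star_mul, star_pow, star_star]
    exact ((aal.trans (dvd_pow_self _ l0)).mul_left _).mul_left _

theorem ba_cls {O : Type} [CommRing O] [IsDedekindDomain O] [CharZero O] [Finite (ClassGroup O)]
    (fin : ∀ m : O, m ≠ 0 → Finite (O ⧸ Ideal.span {m})) (n : ℕ) (a : O) (hn : n ≠ 0)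
    (ha : a ≠ 0) : ∃ (h : ℕ) (al be : O) (j : ℕ), 0 < h ∧
      (n : O) ^ h = al * be ∧ IsCoprime be a ∧ al ∣ a ^ j := by
  have hnO : (n : O) ≠ 0 := Nat.cast_ne_zero.2 hn
  obtain ⟨k, c, x, hx⟩ := exists_pow_dvd (fin _ hnO) a
  have pr : ∀ y : O, ∃ b : O, Ideal.span {(n : O), y} ^ Nat.card (ClassGroup O) = Ideal.span {b} := by
    intro y
    have h0 : Ideal.span {(n : O), y} ∈ nonZeroDivisors (Ideal O) := by
      refine mem_nonZeroDivisors_of_ne_zero fun h => hnO ?_
      have : (n : O) ∈ Ideal.span {(n : O), y} := Ideal.subset_span (by simp)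
      rwa [h] at this
    have h1 : ClassGroup.mk0 ((⟨_, h0⟩ : nonZeroDivisors (Ideal O)) ^ Nat.card (ClassGroup O)) = 1 := by
      rw [map_pow, pow_card_eq_one']
    have h2 := (ClassGroup.mk0_eq_one_iff (pow_mem h0 (Nat.card (ClassGroup O)))).1 h1
    exact ⟨_, h2.span_singleton_generator.symm⟩
  obtain ⟨al, h1⟩ := pr (a ^ k)
  obtain ⟨be, h2⟩ := pr (1 - a * c)
  have cp : IsCoprime (1 - a * c) a := ⟨1, c, by ring⟩
  have e : Ideal.span {(n : O), a ^ k} * Ideal.span {(n : O), 1 - a * c} = Ideal.span {(n : O)} := by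
    rw [Ideal.span_pair_mul_span_pair]
    apply le_antisymm
    · rw [Ideal.span_le]
      intro y hy
      simp only [Set.mem_insert_iff, Set.mem_singleton_iff] at hy
      rw [SetLike.mem_coe, Ideal.mem_span_singleton]
      rcases hy with rfl | rfl | rfl | rfl
      exacts [dvd_mul_right _ _, dvd_mul_right _ _, dvd_mul_left _ _, ⟨x, hx⟩]
    · rw [Ideal.span_singleton_le_iff_mem]
      obtain ⟨u, v, huv⟩ := cp.pow_right (n := k)
      have : (n : O) = u * (n * (1 - a * c)) + v * (a ^ k * n) := by linear_combination (-n) * huv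
      rw [this]
      exact Ideal.add_mem _ (Ideal.mul_mem_left _ _ (Ideal.subset_span (by simp [← this])))
        (Ideal.mul_mem_left _ _ (Ideal.subset_span (by simp [← this])))
  have e2 : Ideal.span {al * be} = Ideal.span {(n : O) ^ Nat.card (ClassGroup O)} := by
    rw [← Ideal.span_singleton_mul_span_singleton, ← h1, ← h2, ← mul_pow, e,
      Ideal.span_singleton_pow]
  obtain ⟨u, hu⟩ := Ideal.span_singleton_eq_span_singleton.1 e2
  have d1 : al ∣ (a ^ k) ^ Nat.card (ClassGroup O) := by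
    rw [← Ideal.mem_span_singleton, ← h1]
    exact Ideal.pow_mem_pow (Ideal.subset_span (by simp)) _
  have d2 : be ∣ (1 - a * c) ^ Nat.card (ClassGroup O) := by
    rw [← Ideal.mem_span_singleton, ← h2]
    exact Ideal.pow_mem_pow (Ideal.subset_span (by simp)) _
  refine ⟨_, al, be * u, k * Nat.card (ClassGroup O), Nat.card_pos, by rw [← hu, mul_assoc], ?_,
    by rwa [pow_mul]⟩
  exact (isCoprime_mul_unit_right_left u.isUnit _ _).2 (cp.pow_left.of_isCoprime_of_dvd_left d2)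

end Pool.Agent.Lib.MP_61a4e3_al
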