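import Pool.Agent.Lib.MP_61a4e3_al.Braid3

/-! The radical vectors are good as soon as there are `d + 1` strands. -/

set_option linter.unusedSectionVars false
set_option linter.unusedSimpArgs false
set_option linter.unusedVariables false

namespace Pool.Agent.Lib.MP_61a4e3_al

open Matrix WG Form

variable {O : Type} [CommRing O] [StarRing O] [IsDomain O] {m : ℕ} {z : O} {hz : z * star z = 1}
  {d : ℕ} (H : RH z) (hd : 3 ≤ d) (hg : geom z d = 0)
include H hd hg

theorem good_fv0' (hm0 : d ≤ m) : Good (Gam m z hz) (vec m (fv z d 0)) := by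
  have ff := fv0_iso (hz := hz) hd hg (show d ≤ m by omega)
  set f := vec m (fv z d 0) with hf
  set S := ES (Gam m z hz) ff with hS
  have fe : ∀ j, 1 ≤ j ∧ j ≤ m → j ≠ d → (BF m z hz).B f (ev O m j) = 0 := by
    intro j hj hjd
    rw [hf, ev, B_fv0 hd hg (by omega) (if_neg (by omega)) (if_neg (by omega)), if_neg hjd.symm,
      mul_zero]
  have st : ∀ j (hj : 1 ≤ j ∧ j ≤ m), j ≠ d → ∀ x ∈ S,
      x - (BF m z hz).B (ev O m j) x • ev O m j ∈ S := by
    rintro j hj hjd x ⟨c, hc⟩
    have := hc.conj (sg_mem hj)
    rw [act_rt, act_rt, B_eq_zero_swap _ (fe j hj hjd), zero_smul, sub_zero] at this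
    exact ⟨c, this⟩
  have zm : ∀ j, 1 ≤ j ∧ j ≤ m → j ≠ d → ∀ a : O, a • ev O m j ∈ S → (z * a) • ev O m j ∈ S := by
    intro j hj hjd a ha
    have := neg_mem (st j hj hjd _ ha)
    rw [B_smul_right, root_ev hj] at this
    convert this using 1
    simp only [BF_z]; module
  have full : ∀ j, 1 ≤ j ∧ j ≤ m → j ≠ d → (1 - z) • ev O m j ∈ S →
      ∀ a : O, ((1 - z) * a) • ev O m j ∈ S := by
    intro j hj hjd h1 a
    refine H.gen (S.comap ((LinearMap.toSpanSingleton O _ (ev O m j)).toAddMonoidHom.comp
      (AddMonoidHom.mulLeft (1 - z)))) (by simpa using h1) (fun x hx => ?_) a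
    have := zm j hj hjd _ hx
    simpa [mul_left_comm] using this
  have up : ∀ j, d + 1 ≤ j → j ≤ m → ∀ a : O, ((1 - z) * a) • ev O m j ∈ S := by
    intro j hj
    induction j, hj using Nat.le_induction with
    | base =>
      intro hm
      have h1 := HR_tau (z := z) (hz := hz) (m := m) (k := d) hm d le_rfl
      have h2 := (HR_ev (j := d + 1) ⟨by omega, hm⟩).eich (l := 1 - z) ff
        (fe _ ⟨by omega, hm⟩ (by omega)) (by
          convert h1 using 1
          ext ⟨i, hi⟩
          simp only [hf, vec, ev, Pi.add_apply, Pi.smul_apply, smul_eq_mul]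
          by_cases c : i + 1 ≤ d
          · rw [if_pos c, if_neg (by omega), fv_in hd hg (by omega), Nat.sub_zero, pi_geom, zero_add]
          · rw [if_neg c, fv_out hd hg (by omega)]
            split_ifs <;> first | omega | simp)
      refine full _ ⟨by omega, hm⟩ (by omega) ?_
      have := neg_mem (zm _ ⟨by omega, hm⟩ (by omega) _ ⟨_, h2⟩)
      rwa [← neg_smul, ← neg_mul, ← H.pi_eq] at this
    | succ j hj ih =>
      intro hj' a
      have h1 := ih (by omega) (star z * a)
      have := sub_mem (st (j + 1) ⟨by omega, hj'⟩ (by omega) _ h1) h1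
      rw [B_smul_right, B_ev_ev ⟨by omega, hj'⟩ ⟨by omega, by omega⟩, if_neg (by omega),
        if_pos rfl] at this
      convert this using 1
      have e : (1 - z) * (star z * a) * -z = -((1 - z) * a) := by
        linear_combination (-(1 - z) * a) * hz
      rw [e]; module
  have down : ∀ j, j ≤ d - 1 → 1 ≤ j → ∀ a : O, ((1 - z) * a) • ev O m j ∈ S := by
    intro j hj
    induction hj using Nat.decreasingInduction with
    | self =>
      intro _
      have hj : 1 ≤ d - 1 ∧ d - 1 ≤ m := by omega
      have h1 := HR_tau (z := z) (hz := hz) (m := m) (k := d - 2) (by omega) (d - 2) le_rfl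
      have h2 := ((HR_ev hj).smul (l := star z) (by rw [star_star, mul_comm, hz])).eich
        (l := 1 - z) ff (by rw [B_smul_right, fe _ hj (by omega), mul_zero]) (by
          convert h1 using 1
          ext ⟨i, hi⟩
          simp only [hf, vec, ev, Pi.add_apply, Pi.smul_apply, smul_eq_mul]
          by_cases c : i + 1 ≤ d - 2
          · rw [if_pos c, if_neg (by omega), fv_in hd hg (by omega), Nat.sub_zero, pi_geom]; simp
          by_cases c' : i + 1 = d - 1
          · rw [if_neg c, if_pos c', if_pos (by omega), fv_in hd hg (by omega), Nat.sub_zero, c']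
            have := geom_pred hd hg
            linear_combination (star z - 1) * this - (geom z (d - 1)) * hz
          · rw [if_neg c, if_neg c', if_neg (by omega), fv_out hd hg (by omega)]; simp)
      refine full _ hj (by omega) ?_
      rw [smul_smul] at h2
      have := neg_mem (zm _ hj (by omega) _ (zm _ hj (by omega) _ ⟨_, h2⟩))
      rw [← neg_smul] at this
      convert this using 2
      rw [H.star_pi]; grind
    | of_succ j hj ih =>
      intro hj' a
      have h1 := ih (by omega) a
      have := sub_mem (st j ⟨hj', by omega⟩ (by omega) _ h1) h1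
      rw [B_smul_right, B_ev_ev ⟨hj', by omega⟩ ⟨by omega, by omega⟩, if_neg (by omega),
        if_neg (by omega), if_pos rfl] at this
      convert this using 1
      module
  refine good_of f ff (fun x fx hx => ?_) (fun c hc => ?_)
  · obtain ⟨y, rfl⟩ := hx.exists
    obtain ⟨u, h0, h1, rfl⟩ := exists_vec y
    rw [B_smul_right, hf, B_fv0 hd hg (by omega) h0 h1] at fx
    have ud : u d = 0 := by
      simpa [H.one_sub, H.unit_z.ne_zero] using fx
    have : (1 - (BF m z hz).z) • vec m u =
        ∑ i : Fin m, ((1 - z) * u (i.val + 1)) • ev O m (i.val + 1) := by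
      ext j; simp [ev_eq_single, Pi.single_apply, vec]
    rw [this]
    refine sum_mem fun i _ => ?_
    have := i.2
    rcases lt_trichotomy (i.val + 1) d with h | h | h
    · exact down _ (by omega) (by omega) _
    · rw [h, ud]; simp
    · exact up _ (by omega) (by omega) _
  · obtain ⟨r, hr, rfl⟩ := H.lam_eq hc
    obtain ⟨n, s, hs, rfl⟩ := H.int r hr
    obtain ⟨c1, h1⟩ := down 1 (by omega) le_rfl s
    obtain ⟨c2, h2⟩ := down 2 (by omega) (by omega) 1
    have h3 : _ ∈ EZ (Gam m z hz) ff := h1.comm h2
    have h4 : _ ∈ EZ (Gam m z hz) ff := HE_twist hd hg (by omega)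
    convert add_mem (zsmul_mem h4 n) h3 using 1
    simp only [B_smul_left, B_smul_right, BF_z]
    rw [B_ev_ev (by omega) (by omega), B_ev_ev (by omega) (by omega)]
    simp only [star_mul, star_one, hs, star_sub, zsmul_eq_mul]
    simp
    grind

theorem good_fv' {k : ℕ} (hm : d ≤ m) (hk : k + d ≤ m + 1) :
    Good (Gam m z hz) (vec m (fv z d k)) := by
  induction k with
  | zero => exact good_fv0' H hd hg hm
  | succ k ih =>
    have := ((ih (by omega)).orb (orb_shift hd hg (by omega))).smul (l := star z)
      (by rw [star_star, mul_comm, hz])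
    rwa [smul_smul, mul_comm, hz, one_smul] at this

end Pool.Agent.Lib.MP_61a4e3_al
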