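import Pool.Agent.Lib.MP_61a4e3_al.R.Defs
import Pool.Agent.Lib.MP_61a4e3_al.N.Gd

/-! The lattices of the peeling chain of the braid form: membership, saturation, pairings. -/

set_option linter.unusedSectionVars false
set_option linter.unusedSimpArgs false
set_option linter.unusedVariables false

namespace Pool.Agent.Lib.MP_61a4e3_al.R.C

open Matrix WG Form

variable {O : Type} [CommRing O] [StarRing O] {m : ℕ} {z : O} {hz : z * star z = 1} {d : ℕ}

lemma vec_mem_PT {u : ℕ → O} {j : ℕ} :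
    vec m u ∈ PT O m j ↔ ∀ i, j < i → i ≤ m → u i = 0 := by
  constructor
  · intro h i h1 h2
    have := h ⟨i - 1, by omega⟩ (by simp only; omega)
    simpa [vec, show i - 1 + 1 = i by omega] using this
  · intro h i hi
    exact h _ (by omega) (by omega)

lemma mem_PLo {j : ℕ} {x : Fin m → O} : x ∈ PLo m z hz d j ↔
    x ∈ PT O m d ∧ ∀ i, j ≤ i → i < d → (BF m z hz).B (ev O m i) x = 0 := by
  simp [PLo, mem_kerv]

lemma c3_dot (x : Fin m → O) : c3 m z hz ⬝ᵥ x = -star z * (BF m z hz).B (ev O m 4) x := by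
  simp [c3]

lemma c2_dot (x : Fin m → O) : c2 m z hz ⬝ᵥ x = -star z * ((BF m z hz).B (ev O m 3) x -
    (1 + z) * (-star z * (BF m z hz).B (ev O m 4) x)) := by
  rw [c2, smul_dotProduct, sub_dotProduct, smul_dotProduct, c3_dot, cf_dot]; rfl

lemma mem_P4 {s : O} {x : Fin m → O} : x ∈ P4 m z hz d s ↔
    x ∈ PLo m z hz d 5 ∧ c3 m z hz ⬝ᵥ x = s * (c2 m z hz ⬝ᵥ x) := by
  rw [P4, Submodule.mem_inf, mem_kerv, sub_dotProduct, smul_dotProduct, sub_eq_zero]; rfl

lemma mem_P3 {s : O} {x : Fin m → O} : x ∈ P3 m z hz d s ↔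
    x ∈ PLo m z hz d 5 ∧ c2 m z hz ⬝ᵥ x = 0 ∧ c3 m z hz ⬝ᵥ x = 0 := by
  rw [P3, Submodule.mem_inf, mem_kerv, mem_P4]
  constructor
  · rintro ⟨⟨a, b⟩, c⟩; exact ⟨a, c, by rw [b, c, mul_zero]⟩
  · rintro ⟨a, b, c⟩; exact ⟨⟨a, by rw [b, c, mul_zero]⟩, b⟩

lemma PT_top : PT O m m = ⊤ := by
  rw [eq_top_iff]; intro x _ i hi; exact absurd i.2 (by omega)

lemma PT_mono {i j : ℕ} (h : i ≤ j) : PT O m i ≤ PT O m j := fun x hx k hk => hx k (by omega)

lemma PT_succ {j : ℕ} (hj : j + 1 ≤ m) : PT O m (j + 1) ⊓ kerv (ev O m (j + 1)) = PT O m j := by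
  ext x
  obtain ⟨u, h0, h1, rfl⟩ := exists_vec x
  rw [Submodule.mem_inf, mem_kerv, vec_mem_PT, vec_mem_PT, ev_dot _ _ (Or.inl ⟨by omega, hj⟩)]
  constructor
  · rintro ⟨a, b⟩ i h2 h3
    rcases eq_or_lt_of_le (show j + 1 ≤ i from h2) with rfl | h
    · exact b
    · exact a i h h3
  · intro a; exact ⟨fun i h2 h3 => a i (by omega) h3, a _ (by omega) hj⟩

lemma PLo_top : PLo m z hz d d = PT O m d := by
  ext x; rw [mem_PLo]; exact ⟨fun h => h.1, fun h => ⟨h, fun i a b => by omega⟩⟩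

lemma PLo_succ {l : ℕ} (hl : l < d) :
    PLo m z hz d (l + 1) ⊓ kerv (cf (BF m z hz) (ev O m l)) = PLo m z hz d l := by
  ext x
  rw [Submodule.mem_inf, mem_kerv, mem_PLo, mem_PLo, cf_dot]
  constructor
  · rintro ⟨⟨a, b⟩, c⟩
    refine ⟨a, fun i h2 h3 => ?_⟩
    rcases eq_or_lt_of_le h2 with rfl | h
    · exact c
    · exact b i h h3
  · rintro ⟨a, b⟩; exact ⟨⟨a, fun i h2 h3 => b i (by omega) h3⟩, b l le_rfl hl⟩

lemma PLo_mono {i j : ℕ} (h : i ≤ j) : PLo m z hz d i ≤ PLo m z hz d j := fun x hx =>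
  mem_PLo.2 ⟨(mem_PLo.1 hx).1, fun k h1 h2 => (mem_PLo.1 hx).2 k (by omega) h2⟩

lemma PLo_le {j : ℕ} : PLo m z hz d j ≤ PT O m d := inf_le_left

lemma sat_kerv [IsDomain O] {ι : Type} [Fintype ι] {P : Submodule O (ι → O)} (h : Sat P)
    (r : ι → O) : Sat (P ⊓ kerv r) := fun c x hc hx =>
  ⟨h c x hc hx.1, by
    have : r ⬝ᵥ (c • x) = 0 := hx.2
    rw [dotProduct_smul, smul_eq_mul] at this
    exact (mul_eq_zero.1 this).resolve_left hc⟩

lemma sat_PT [IsDomain O] (j : ℕ) : Sat (PT O m j) := fun c x hc hx i hi =>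
  (mul_eq_zero.1 (hx i hi)).resolve_left hc

lemma sat_PLo [IsDomain O] (j : ℕ) : Sat (PLo m z hz d j) := fun c x hc hx =>
  mem_PLo.2 ⟨sat_PT d c x hc (mem_PLo.1 hx).1, fun i h1 h2 => by
    have := (mem_PLo.1 hx).2 i h1 h2
    rw [B_smul_right] at this
    exact (mul_eq_zero.1 this).resolve_left hc⟩

lemma sat_P4 [IsDomain O] (s : O) : Sat (P4 m z hz d s) := sat_kerv (sat_PLo 5) _

lemma sat_P3 [IsDomain O] (s : O) : Sat (P3 m z hz d s) := sat_kerv (sat_P4 s) _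

lemma ev_mem_PT {i j : ℕ} (h : i ≤ j) : ev O m i ∈ PT O m j :=
  vec_mem_PT.2 fun k h1 h2 => if_neg (by omega)

lemma ev_mem_PLo {i j : ℕ} (h0 : 1 ≤ i) (h : i + 2 ≤ j) (hi : i ≤ d) (hm : d ≤ m) :
    ev O m i ∈ PLo m z hz d j :=
  mem_PLo.2 ⟨ev_mem_PT hi, fun k h1 h2 => by
    rw [B_ev_ev ⟨by omega, by omega⟩ ⟨h0, by omega⟩, if_neg (by omega), if_neg (by omega),
      if_neg (by omega)]⟩

lemma up_rec {u : ℕ → O} (h0 : u 0 = 0) (h1 : u (m + 1) = 0) {k : ℕ} (hk : k ≤ m)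
    (h : ∀ i, 1 ≤ i → i ≤ k → (BF m z hz).B (ev O m i) (vec m u) = 0) :
    ∀ i, i ≤ k + 1 → u i = u 1 * geom z i := by
  have key : ∀ i, i ≤ k → u i = u 1 * geom z i ∧ u (i + 1) = u 1 * geom z (i + 1) := by
    intro i
    induction i with
    | zero => intro _; simp [h0]
    | succ i ih =>
      intro hi
      obtain ⟨a, b⟩ := ih (by omega)
      refine ⟨b, ?_⟩
      have := h (i + 1) (by omega) hi
      rw [B_ev h0 h1 ⟨by omega, by omega⟩, Nat.add_sub_cancel] at this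
      have g1 := geom_succ (z := z) i
      have g2 := geom_succ (z := z) (i + 1)
      linear_combination -this - z * a + (1 + z) * b + u 1 * g1 - u 1 * g2
  intro i hi
  rcases i with _ | i
  · simp [h0]
  · exact (key i (by omega)).2

variable (hd : 3 ≤ d) (hg : geom z d = 0)
include hd hg

lemma down_rec {u : ℕ → O} (h0 : u 0 = 0) (h1 : u (m + 1) = 0) (hm : d ≤ m) {l : ℕ} (hl : 1 ≤ l)
    (h : ∀ i, l ≤ i → i < d → (BF m z hz).B (ev O m i) (vec m u) = 0) :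
    ∀ i, l ≤ i + 1 → i ≤ d → u i = u d - z * (u (d - 1) - u d) * geom z i := by
  have key : ∀ i, i ≤ d - 1 → l ≤ i + 1 → u i = u d - z * (u (d - 1) - u d) * geom z i ∧
      u (i + 1) = u d - z * (u (d - 1) - u d) * geom z (i + 1) := by
    intro i hi
    induction hi using Nat.decreasingInduction with
    | self =>
      intro _
      rw [Nat.sub_add_cancel (by omega), hg]
      exact ⟨by linear_combination (u (d - 1) - u d) * geom_pred hd hg, by ring⟩
    | of_succ i hi ih =>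
      intro hli
      obtain ⟨a, b⟩ := ih (by omega)
      refine ⟨?_, a⟩
      have := h (i + 1) hli (by omega)
      rw [B_ev h0 h1 ⟨by omega, by omega⟩, Nat.add_sub_cancel] at this
      have g1 := geom_succ (z := z) i
      have g2 := geom_succ (z := z) (i + 1)
      generalize z * (u (d - 1) - u d) = κ at *
      linear_combination star z * (-this + (1 + z) * a - b - κ * g1 + κ * g2) -
        (u i - u d + κ * geom z i) * hz
  intro i h2 h3
  rcases eq_or_lt_of_le h3 with rfl | h4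
  · rw [hg]; ring
  · exact (key i (by omega) h2).1

lemma geom_add (i : ℕ) : geom z (d + i) = geom z i := by
  induction i with
  | zero => simpa using hg
  | succ i ih => rw [← add_assoc, geom_succ, geom_succ, ih]

lemma B_ev_fv {i k : ℕ} (hi : 1 ≤ i ∧ i ≤ m) (hk : k + d ≤ m + 1) :
    (BF m z hz).B (ev O m i) (vec m (fv z d k)) =
      (if k + d = i then 1 else 0) - (if k = i then 1 else 0) := by
  rw [ev, B_fv hd hg hk (if_neg (by omega)) (if_neg (by omega))]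
  split_ifs <;> simp

lemma fv_mem_PT {k j : ℕ} (h : k + d ≤ j + 1) : vec m (fv z d k) ∈ PT O m j :=
  vec_mem_PT.2 fun i h1 h2 => fv_out hd hg (by omega)

lemma fv_mem_PLo {k j : ℕ} (hk : k ≤ 1) (h : k < j) (hm : d ≤ m) :
    vec m (fv z d k) ∈ PLo m z hz d j :=
  mem_PLo.2 ⟨fv_mem_PT hd hg (by omega), fun i h1 h2 => by
    rw [B_ev_fv hd hg ⟨by omega, by omega⟩ (by omega), if_neg (by omega), if_neg (by omega),
      sub_zero]⟩

lemma B_fv_succ {k : ℕ} (hk : k + d ≤ m) :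
    (BF m z hz).B (vec m (fv z d k)) (vec m (fv z d (k + 1))) = -1 := by
  rw [B_fv_fv hd hg (by omega) (by omega), fv_out hd hg (by omega), fv_in hd hg (by omega)]
  simp

lemma B_succ_fv {k : ℕ} (hk : k + d ≤ m) :
    (BF m z hz).B (vec m (fv z d (k + 1))) (vec m (fv z d k)) = -z := by
  rw [B_swap, B_fv_succ hd hg hk]; simp

lemma B_iv_fv {a b k : ℕ} (ha : 1 ≤ a) (hb : b ≤ m) (hk : k + d ≤ m + 1) :
    (BF m z hz).B (vec m (iv O a b)) (vec m (fv z d k)) = iv O a b (k + d) - iv O a b k := by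
  rw [B_fv hd hg hk (if_neg (by omega)) (if_neg (by omega))]
  simp only [iv]; split_ifs <;> simp

lemma fv_iso' {j : ℕ} (hj : j + d ≤ m + 1) :
    (BF m z hz).B (vec m (fv z d j)) (vec m (fv z d j)) = 0 := by
  rw [B_fv_fv hd hg hj hj, fv_out hd hg (by omega), fv_out hd hg (by omega)]; simp

lemma gv_orb {k l : ℕ} (h1 : k < l) (h2 : l ≤ k + d) (hk : k + d ≤ m) :
    Orb (Gam m z hz) (vec m (fv z d k)) (gv m z d k l) := by
  obtain ⟨e, he⟩ := HR_iv (z := z) (hz := hz) (m := m) (a := l) (b := k + d) (by omega) h2 hk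
  refine ⟨_, he, ?_⟩
  rw [act_rt, B_iv_fv hd hg (by omega) hk (by omega), iv, iv, if_pos ⟨h2, le_rfl⟩,
    if_neg (by omega), sub_zero, one_smul, gv]

lemma gv_iso {k l : ℕ} (h1 : k < l) (h2 : l ≤ k + d) (hk : k + d ≤ m) :
    (BF m z hz).B (gv m z d k l) (gv m z d k l) = 0 := by
  obtain ⟨g, -, e⟩ := gv_orb (hz := hz) hd hg h1 h2 hk
  rw [← e, B_act, fv_iso' hd hg (by omega)]

lemma gv_mem_PT {k l j : ℕ} (h : k + d ≤ j) : gv m z d k l ∈ PT O m j :=
  (PT O m j).sub_mem (fv_mem_PT hd hg (by omega)) (vec_mem_PT.2 fun i h1 h2 => if_neg (by omega))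

lemma B_gv_fv {k l : ℕ} (h1 : k < l) (h2 : l ≤ k + d) (hk : k + d ≤ m) :
    (BF m z hz).B (gv m z d k l) (vec m (fv z d k)) = -1 := by
  rw [gv, B_sub_left, B_iv_fv hd hg (by omega) hk (by omega), B_fv_fv hd hg (by omega) (by omega),
    fv_out hd hg (by omega), fv_out hd hg (by omega), iv, iv, if_pos ⟨h2, le_rfl⟩,
    if_neg (by omega)]
  simp

lemma B_gv_succ {k l : ℕ} (h1 : k + 1 < l) (hk : k + d ≤ m) :
    (BF m z hz).B (gv m z d k l) (vec m (fv z d (k + 1))) = -1 := by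
  rw [gv, B_sub_left, B_iv_fv hd hg (by omega) hk (by omega), B_fv_succ hd hg hk, iv, iv,
    if_neg (by omega), if_neg (by omega)]
  simp

lemma B_ev_gv {i l : ℕ} (hi : 1 ≤ i) (hi' : i < d) (hl : 1 ≤ l) (hl' : l ≤ d) (hm : d ≤ m) :
    (BF m z hz).B (ev O m i) (gv m z d 0 l) =
      if i = l then -z else if i + 1 = l then 1 else 0 := by
  rw [gv, B_sub_right, B_ev_fv hd hg ⟨hi, by omega⟩ (by omega), if_neg (by omega),
    if_neg (by omega), B_ev (if_neg (by omega)) (if_neg (by omega)) ⟨hi, by omega⟩]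
  simp only [iv]
  split_ifs <;> first | omega | ring

lemma gv_mem_PLo {l j : ℕ} (hl : 1 ≤ l) (h : l < j) (hl' : l ≤ d) (hm : d ≤ m) :
    gv m z d 0 l ∈ PLo m z hz d j :=
  mem_PLo.2 ⟨gv_mem_PT hd hg (by omega), fun i h1 h2 => by
    rw [B_ev_gv hd hg (by omega) h2 hl hl' hm, if_neg (by omega), if_neg (by omega)]⟩

end Pool.Agent.Lib.MP_61a4e3_al.R.C
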