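import Pool.Agent.Lib.MP_61a4e3_al.N.Cb

/-! The lattices of the peeling chain: nondegeneracy, coordinates and signs. -/

set_option linter.unusedSectionVars false
set_option linter.unusedSimpArgs false
set_option linter.unusedVariables false

namespace Pool.Agent.Lib.MP_61a4e3_al.R.C

open Matrix WG Form

variable {O : Type} [CommRing O] [StarRing O] [IsDomain O] {m : ℕ} {z : O} {hz : z * star z = 1}
  {d : ℕ} (hd : 3 ≤ d) (hg : geom z d = 0)
include hd hg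

omit hd hg in
lemma nd_PT0 {j : ℕ} (h2 : j ≤ m) (hp : geom z (j + 1) ≠ 0) : Nd (BF m z hz) (PT O m j) := by
  intro y hy h
  obtain ⟨u, u0, u1, rfl⟩ := exists_vec y
  have hy' := vec_mem_PT.1 hy
  have r := up_rec (hz := hz) u0 u1 h2 fun i a b => h _ (ev_mem_PT b)
  have e : u (j + 1) = 0 := by
    rcases eq_or_lt_of_le h2 with rfl | h4
    · exact u1
    · exact hy' _ (by omega) (by omega)
  have e1 := r (j + 1) le_rfl
  rw [e] at e1
  have e2 : u 1 = 0 := (mul_eq_zero.1 e1.symm).resolve_right hp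
  ext i
  have := i.2
  by_cases c : i.val + 1 ≤ j
  · simpa [vec, e2] using r (i.val + 1) (by omega)
  · exact hy' _ (by omega) (by omega)

lemma geom_ne (hp : ∀ i, 0 < i → i < d → geom z i ≠ 0) {j : ℕ} (h1 : d < j) (h3 : j < 2 * d) :
    geom z j ≠ 0 := by
  rw [show j = d + (j - d) by omega, geom_add hd hg]
  exact hp _ (by omega) (by omega)

lemma nd_PLo (hp : ∀ i, 0 < i → i < d → geom z i ≠ 0) {l : ℕ} (h1 : 2 ≤ l) (h2 : l ≤ d)
    (hm : d ≤ m) : Nd (BF m z hz) (PLo m z hz d l) := by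
  intro y hy h
  obtain ⟨u, u0, u1, rfl⟩ := exists_vec y
  obtain ⟨hy1, hy2⟩ := mem_PLo.1 hy
  have hy' := vec_mem_PT.1 hy1
  have z0 : z ≠ 0 := fun e => by rw [e] at hz; simp at hz
  have a := h _ (fv_mem_PLo hd hg (k := 0) (by omega) (by omega) hm)
  rw [B_fv0 hd hg hm u0 u1] at a
  have ud : u d = 0 := (mul_eq_zero.1 a).resolve_left z0
  have b := B_eq_zero_swap _ (h _ (fv_mem_PLo hd hg (k := 1) le_rfl (by omega) hm))
  have e : u (1 + d) = 0 := by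
    rcases eq_or_lt_of_le hm with rfl | h4
    · rw [add_comm]; exact u1
    · exact hy' _ (by omega) (by omega)
  rw [B_fv hd hg (by omega) u0 u1, e] at b
  have e2 : u 1 = 0 := by simpa using b
  have r := up_rec (hz := hz) u0 u1 (k := l - 2) (by omega) fun i a b =>
    h _ (ev_mem_PLo a (by omega) (by omega) hm)
  have s := down_rec (hz := hz) hd hg u0 u1 hm (l := l) (by omega) hy2
  have e3 := s (l - 1) (by omega) (by omega)
  rw [r (l - 1) (by omega), e2, ud, zero_mul, zero_sub, eq_comm, neg_eq_zero] at e3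
  have e4 := (mul_eq_zero.1 e3).resolve_right (hp _ (by omega) (by omega))
  ext i
  have := i.2
  by_cases c : i.val + 1 ≤ l - 1
  · simpa [vec, e2] using r (i.val + 1) (by omega)
  by_cases c' : i.val + 1 ≤ d
  · have := s (i.val + 1) (by omega) c'
    rw [ud, e4] at this
    simpa [vec] using this
  · exact hy' _ (by omega) (by omega)

/-- The Gram data of the five vectors that span `PLo 5`. -/
structure Five (F : Form O (Fin m)) (z : O) (f g e1 e2 e3 e4 : Fin m → O) : Prop where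
  ff : F.B f f = 0
  fg : F.B f g = -1
  f1 : F.B f e1 = 0
  f2 : F.B f e2 = 0
  f3 : F.B f e3 = 0
  gf : F.B g f = -z
  gg : F.B g g = 0
  g1 : F.B g e1 = -z
  g2 : F.B g e2 = 0
  g3 : F.B g e3 = 0
  a1 : F.B e1 f = 0
  b1 : F.B e1 g = -1
  a2 : F.B e2 f = 0
  b2 : F.B e2 g = 0
  a3 : F.B e3 f = 0
  b3 : F.B e3 g = 0
  a4 : F.B e4 f = 0
  b4 : F.B e4 g = 0
  e11 : F.B e1 e1 = 1 + z
  e12 : F.B e1 e2 = -1
  e13 : F.B e1 e3 = 0
  e21 : F.B e2 e1 = -z
  e22 : F.B e2 e2 = 1 + z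
  e23 : F.B e2 e3 = -1
  e31 : F.B e3 e1 = 0
  e32 : F.B e3 e2 = -z
  e33 : F.B e3 e3 = 1 + z
  e41 : F.B e4 e1 = 0
  e42 : F.B e4 e2 = 0
  e43 : F.B e4 e3 = -z

lemma five (h5 : 5 ≤ d) (hm : d ≤ m) : Five (BF m z hz) z (vec m (fv z d 0)) (vec m (fv z d 1))
    (ev O m 1) (ev O m 2) (ev O m 3) (ev O m 4) := by
  have a : ∀ i, 1 ≤ i → i ≤ 4 → (BF m z hz).B (ev O m i) (vec m (fv z d 0)) = 0 := fun i h1 h2 => by
    rw [B_ev_fv hd hg ⟨h1, by omega⟩ (by omega), if_neg (by omega), if_neg (by omega), sub_zero]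
  have b : ∀ i, 2 ≤ i → i ≤ 4 → (BF m z hz).B (ev O m i) (vec m (fv z d 1)) = 0 := fun i h1 h2 => by
    rw [B_ev_fv hd hg ⟨by omega, by omega⟩ (by omega), if_neg (by omega), if_neg (by omega),
      sub_zero]
  have b1 : (BF m z hz).B (ev O m 1) (vec m (fv z d 1)) = -1 := by
    rw [B_ev_fv hd hg ⟨by omega, by omega⟩ (by omega), if_neg (by omega), if_pos rfl, zero_sub]
  have e : ∀ i j, 1 ≤ i ∧ i ≤ 4 → 1 ≤ j ∧ j ≤ 4 → (BF m z hz).B (ev O m i) (ev O m j) =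
      if i = j then 1 + z else if i = j + 1 then -z else if j = i + 1 then -1 else 0 :=
    fun i j h1 h2 => B_ev_ev ⟨h1.1, by omega⟩ ⟨h2.1, by omega⟩
  refine ⟨fv_iso' hd hg (by omega), B_fv_succ hd hg (by omega), B_eq_zero_swap _ (a 1 ?_ ?_),
    B_eq_zero_swap _ (a 2 ?_ ?_), B_eq_zero_swap _ (a 3 ?_ ?_), B_succ_fv hd hg (by omega),
    fv_iso' hd hg (by omega), by rw [B_swap, b1]; simp, B_eq_zero_swap _ (b 2 ?_ ?_),
    B_eq_zero_swap _ (b 3 ?_ ?_), a 1 ?_ ?_, b1, a 2 ?_ ?_, b 2 ?_ ?_, a 3 ?_ ?_, b 3 ?_ ?_,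
    a 4 ?_ ?_, b 4 ?_ ?_, ?_, ?_, ?_, ?_, ?_, ?_, ?_, ?_, ?_, ?_, ?_, ?_⟩ <;>
  first | omega | (rw [e _ _ (by omega) (by omega)]; simp)

lemma dec5 (h5 : 5 ≤ d) (hm : d ≤ m) {x : Fin m → O} (hx : x ∈ PLo m z hz d 5) :
    ∃ a b t : O, x = a • vec m (fv z d 0) + b • vec m (fv z d 1) + t • ev O m 1 +
      (c2 m z hz ⬝ᵥ x) • ev O m 2 + (c3 m z hz ⬝ᵥ x) • ev O m 3 := by
  have V := five (hz := hz) hd hg h5 hm
  suffices h : ∃ a b t c e : O, x = a • vec m (fv z d 0) + b • vec m (fv z d 1) + t • ev O m 1 +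
      c • ev O m 2 + e • ev O m 3 by
    obtain ⟨a, b, t, c, e, rfl⟩ := h
    refine ⟨a, b, t, ?_⟩
    rw [c2_dot, c3_dot]
    simp only [B_add_right, B_smul_right, V.a3, V.b3, V.a4, V.b4, V.e31, V.e32, V.e33, V.e41,
      V.e42, V.e43]
    congr 2
    · congr 1; linear_combination (-c - star z * (1 + z) * e) * hz
    · linear_combination (-e) * hz
  obtain ⟨u, u0, u1, rfl⟩ := exists_vec x
  obtain ⟨hy1, hy2⟩ := mem_PLo.1 hx
  have hy' := vec_mem_PT.1 hy1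
  have s := down_rec (hz := hz) hd hg u0 u1 hm (l := 5) (by omega) hy2
  generalize z * (u (d - 1) - u d) = κ at s
  refine ⟨u d - κ, -z * u d, u 1 - (u d - κ * geom z 1), u 2 - (u d - κ * geom z 2),
    u 3 - (u d - κ * geom z 3), ?_⟩
  ext ⟨i, hi⟩
  simp only [vec, ev, Pi.add_apply, Pi.smul_apply, smul_eq_mul]
  by_cases c : i + 1 ≤ d
  · rw [fv_in hd hg (by omega), fv_in hd hg (by omega), Nat.sub_zero, Nat.add_sub_cancel]
    have g1 := geom_succ (z := z) i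
    split_ifs with h1 h2 h3 h4 h5 h6 h7
    any_goals omega
    · rw [h1] at g1 ⊢; linear_combination (-u d) * g1
    · rw [h5] at g1 ⊢; linear_combination (-u d) * g1
    · rw [h7] at g1 ⊢; linear_combination (-u d) * g1
    · linear_combination s (i + 1) (by omega) c - u d * g1
  · rw [fv_out hd hg (by omega), fv_out hd hg (by omega), if_neg (by omega), if_neg (by omega),
      if_neg (by omega), hy' _ (by omega) (by omega)]
    ring

lemma cc_gv (h5 : 5 ≤ d) (hm : d ≤ m) :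
    c2 m z hz ⬝ᵥ gv m z d 0 4 = 1 ∧ c3 m z hz ⬝ᵥ gv m z d 0 4 = 1 ∧
      c2 m z hz ⬝ᵥ gv m z d 0 3 = 1 ∧ c3 m z hz ⬝ᵥ gv m z d 0 3 = 0 ∧
      c2 m z hz ⬝ᵥ gv m z d 0 2 = 0 ∧ c3 m z hz ⬝ᵥ gv m z d 0 2 = 0 := by
  simp only [c2_dot, c3_dot]
  rw [B_ev_gv hd hg (by omega) (by omega) (by omega) (by omega) hm,
    B_ev_gv hd hg (by omega) (by omega) (by omega) (by omega) hm,
    B_ev_gv hd hg (by omega) (by omega) (by omega) (by omega) hm,
    B_ev_gv hd hg (by omega) (by omega) (by omega) (by omega) hm,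
    B_ev_gv hd hg (by omega) (by omega) (by omega) (by omega) hm,
    B_ev_gv hd hg (by omega) (by omega) (by omega) (by omega) hm]
  simp only [OfNat.ofNat_eq_ofNat, Nat.reduceEqDiff, Nat.reduceAdd, ↓reduceIte]
  refine ⟨?_, ?_, ?_, ?_, ?_, ?_⟩ <;> grind

lemma comb_mem5 (h5 : 5 ≤ d) (hm : d ≤ m) (a b t c e : O) :
    a • vec m (fv z d 0) + b • vec m (fv z d 1) + t • ev O m 1 + c • ev O m 2 + e • ev O m 3 ∈
      PLo m z hz d 5 ∧
    c2 m z hz ⬝ᵥ (a • vec m (fv z d 0) + b • vec m (fv z d 1) + t • ev O m 1 + c • ev O m 2 +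
      e • ev O m 3) = c ∧
    c3 m z hz ⬝ᵥ (a • vec m (fv z d 0) + b • vec m (fv z d 1) + t • ev O m 1 + c • ev O m 2 +
      e • ev O m 3) = e := by
  have V := five (hz := hz) hd hg h5 hm
  refine ⟨add_mem (add_mem (add_mem (add_mem
    (Submodule.smul_mem _ _ (fv_mem_PLo hd hg (by omega) (by omega) hm))
    (Submodule.smul_mem _ _ (fv_mem_PLo hd hg (by omega) (by omega) hm)))
    (Submodule.smul_mem _ _ (ev_mem_PLo (by omega) (by omega) (by omega) hm)))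
    (Submodule.smul_mem _ _ (ev_mem_PLo (by omega) (by omega) (by omega) hm)))
    (Submodule.smul_mem _ _ (ev_mem_PLo (by omega) (by omega) (by omega) hm)), ?_, ?_⟩
  · rw [c2_dot]
    simp only [B_add_right, B_smul_right, V.a3, V.b3, V.a4, V.b4, V.e31, V.e32, V.e33, V.e41,
      V.e42, V.e43]
    linear_combination (c + star z * (1 + z) * e) * hz
  · rw [c3_dot]
    simp only [B_add_right, B_smul_right, V.a4, V.b4, V.e41, V.e42, V.e43]
    linear_combination e * hz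

lemma comb_mem4 (h5 : 5 ≤ d) (hm : d ≤ m) (s a b t c : O) :
    a • vec m (fv z d 0) + b • vec m (fv z d 1) + t • ev O m 1 + c • ev O m 2 +
      (s * c) • ev O m 3 ∈ P4 m z hz d s := by
  obtain ⟨h1, h2, h3⟩ := comb_mem5 (hz := hz) hd hg h5 hm a b t c (s * c)
  exact mem_P4.2 ⟨h1, by rw [h2, h3]⟩

lemma comb_mem3 (h5 : 5 ≤ d) (hm : d ≤ m) (s a b t : O) :
    a • vec m (fv z d 0) + b • vec m (fv z d 1) + t • ev O m 1 ∈ P3 m z hz d s := by
  obtain ⟨h1, h2, h3⟩ := comb_mem5 (hz := hz) hd hg h5 hm a b t 0 0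
  simp only [zero_smul, add_zero] at h1 h2 h3
  exact mem_P3.2 ⟨h1, h2, h3⟩

lemma dec3 (h5 : 5 ≤ d) (hm : d ≤ m) {s : O} {x : Fin m → O} (hx : x ∈ P3 m z hz d s) :
    ∃ a b t : O, x = a • vec m (fv z d 0) + b • (-vec m (fv z d 1)) +
      t • (vec m (fv z d 0) - ev O m 1) := by
  obtain ⟨h1, h2, h3⟩ := mem_P3.1 hx
  obtain ⟨a, b, t, e⟩ := dec5 hd hg h5 hm h1
  rw [h2, h3] at e
  exact ⟨a + t, -b, -t, by rw [e]; module⟩

variable {φ : O →+* ℂ} {s : O}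

lemma nd_P4 (h5 : 5 ≤ d) (hm : d ≤ m) (h1 : 1 + z ≠ 0) (hs : Par φ z s) :
    Nd (BF m z hz) (P4 m z hz d s) := by
  intro y hy h
  have V := five (hz := hz) hd hg h5 hm
  obtain ⟨y1, y2⟩ := mem_P4.1 hy
  obtain ⟨a, b, t, e⟩ := dec5 hd hg h5 hm y1
  rw [y2] at e
  generalize c2 m z hz ⬝ᵥ y = c at e
  obtain ⟨q, hq, q1, q2⟩ := hs.neg
  have t1 := h _ (comb_mem4 hd hg h5 hm s 1 0 0 0)
  have t2 := h _ (comb_mem4 hd hg h5 hm s 0 1 0 0)
  have t3 := h _ (comb_mem4 hd hg h5 hm s 0 0 1 0)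
  have t4 := h _ (comb_mem4 hd hg h5 hm s 0 0 0 1)
  rw [e] at t1 t2 t3 t4
  simp only [B_add_left, B_add_right, B_smul_left, B_smul_right, V.ff, V.fg, V.f1, V.f2, V.f3,
    V.gf, V.gg, V.g1, V.g2, V.g3, V.a1, V.b1, V.a2, V.b2, V.a3, V.b3, V.e11, V.e12, V.e13, V.e21,
    V.e22, V.e23, V.e31, V.e32, V.e33, star_zero, star_one, mul_zero, mul_one] at t1 t2 t3 t4
  have hb : b = 0 := by linear_combination -t1
  have ha : a = -t := by linear_combination (-star z) * t2 - (a + t) * hz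
  have hc : c = (1 + z) * t := by linear_combination -t3 - hb
  have h4 : t * ((1 + z) * star (1 + z) * q - 1) = 0 := by
    rw [star_add, star_one]
    rw [hc] at t4
    linear_combination star z * t4 + star z * (1 + z) * t * q1 +
      (t - (1 + z) * t * q) * hz
  have ht : t = 0 := (mul_eq_zero.1 h4).resolve_right fun e => by
    rw [sub_eq_zero.1 e, map_one] at q2; simp at q2
  rw [e, hc, ha, hb, ht]; simp

lemma sig_P4 (h5 : 5 ≤ d) (hm : d ≤ m) (hs : Par φ z s) : Sig φ (BF m z hz) (P4 m z hz d s) := by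
  have V := five (hz := hz) hd hg h5 hm
  obtain ⟨q, hq, q1, q2⟩ := hs.neg
  rintro ε (rfl | rfl)
  · refine ⟨_, comb_mem4 hd hg h5 hm s 1 0 (-1) 0, _, comb_mem4 hd hg h5 hm s 1 (-1) 0 0, ?_,
      ⟨1, star_one _, ?_, by simp⟩, ⟨1, star_one _, ?_, by simp⟩⟩ <;>
    simp [V.ff, V.fg, V.f1, V.gf, V.gg, V.g1, V.a1, V.b1, V.e11, add_comm]
  · refine ⟨_, comb_mem4 hd hg h5 hm s (-1) 0 1 (1 + z), _, comb_mem4 hd hg h5 hm s 1 1 0 0, ?_,
      ⟨(1 + z) * star (1 + z) * q - 1, by simp [hq, mul_comm], ?_, ?_⟩,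
      ⟨-1, by simp, ?_, by simp⟩⟩
    · simp [V.ff, V.fg, V.a1, V.b1, V.a2, V.b2, V.a3, V.b3]
    · simp only [B_add_left, B_add_right, B_smul_left, B_smul_right, V.ff, V.fg, V.f1, V.f2, V.f3,
        V.gf, V.gg, V.g1, V.g2, V.g3, V.a1, V.b1, V.a2, V.b2, V.a3, V.b3, V.e11, V.e12, V.e13,
        V.e21, V.e22, V.e23, V.e31, V.e32, V.e33, star_zero, star_one, star_neg, star_mul,
        star_add, BF_z]
      linear_combination (-(1 + z) * (1 + star z)) * q1 - hz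
    · rw [map_sub, map_one, Complex.sub_re, Complex.one_re]; linarith
    · simp [V.ff, V.fg, V.gf, V.gg]

end Pool.Agent.Lib.MP_61a4e3_al.R.C
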