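import Pool.Agent.Lib.MP_61a4e3_al.R.Defs

/-! The complement of a hyperbolic pair inherits saturation, nondegeneracy and both signs. -/

set_option linter.unusedSectionVars false
set_option linter.unusedSimpArgs false
set_option linter.unusedVariables false

namespace Pool.Agent.Lib.MP_61a4e3_al.R.C

open Matrix WG Form

variable {O : Type} [CommRing O] [StarRing O] {ι : Type} [Fintype ι] [DecidableEq ι]
  {F : Form O ι} {P : Submodule O (ι → O)} {f f' : ι → O} {φ : O →+* ℂ}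

lemma sig_mono {P' : Submodule O (ι → O)} (h : Sig φ F P) (le : P ≤ P') : Sig φ F P' :=
  fun ε he => by
    obtain ⟨p, a, p', b, c⟩ := h ε he
    exact ⟨p, le a, p', le b, c⟩

lemma hyp_dec (T : Hyp F f f') (mf : f ∈ P) (mf' : f' ∈ P) {v : ι → O} (hv : v ∈ P) :
    ∃ x ∈ LL F P f f', v = (star F.z * F.B f' v) • f + F.B f v • f' + x := by
  refine ⟨v - (star F.z * F.B f' v) • f - F.B f v • f', mem_LL.2
    ⟨P.sub_mem (P.sub_mem hv (P.smul_mem _ mf)) (P.smul_mem _ mf'), by simp [T.ff, T.ff'], ?_⟩,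
    by abel⟩
  simp only [B_sub_right, B_smul_right, T.f'f, T.f'f']
  linear_combination (-F.B f' v) * F.hz

lemma sat_LL [IsDomain O] (h : Sat P) : Sat (LL F P f f') := fun c x hc hx => by
  obtain ⟨a, b, e⟩ := mem_LL.1 hx
  rw [B_smul_right] at b e
  exact mem_LL.2 ⟨h c x hc a, (mul_eq_zero.1 b).resolve_left hc, (mul_eq_zero.1 e).resolve_left hc⟩

lemma nd_LL (h : Nd F P) (T : Hyp F f f') (mf : f ∈ P) (mf' : f' ∈ P) :
    Nd F (LL F P f f') := by
  intro y hy h'
  obtain ⟨y0, y1, y2⟩ := mem_LL.1 hy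
  refine h y y0 fun v hv => ?_
  obtain ⟨x, hx, hd⟩ := hyp_dec T mf mf' hv
  rw [hd]; simp [y1, y2, h' x hx]

lemma sign_core (T : Hyp F f f') (mf : f ∈ P) (mf' : f' ∈ P) {v1 v2 : ι → O} {q1 q2 e : O}
    (hes : star e = e) (m1 : v1 ∈ P) (m2 : v2 ∈ P) (n1 : F.B v1 v1 = (1 + F.z) * q1)
    (n2 : F.B v2 v2 = (1 + F.z) * q2) (o : F.B v1 v2 = 0) :
    ∃ x ∈ LL F P f f', ∃ a b c : O, (b ≠ 0 ∨ c = 1) ∧
      F.B x x = (1 + F.z) * (c * star c * q1 + b * star b * q2 + a * star a * e) := by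
  have hz := F.hz
  have key : ∀ v ∈ P, F.B (f + e • f') v = 0 → ∃ x ∈ LL F P f f', ∃ a : O,
      F.B x x = F.B v v + (1 + F.z) * (a * star a * e) := by
    intro v hv h
    obtain ⟨x, hx, hd⟩ := hyp_dec T mf mf' hv
    obtain ⟨-, x1, x2⟩ := mem_LL.1 hx
    generalize star F.z * F.B f' v = a at hd
    generalize F.B f v = b at hd
    subst hd
    refine ⟨x, hx, a, ?_⟩
    simp only [B_add_left, B_add_right, B_smul_left, B_smul_right, T.ff, T.f'f', T.ff', x1, x2,
      hes, T.f'f, F.B_eq_zero_swap x1, F.B_eq_zero_swap x2] at h ⊢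
    have hb : b = -(e * F.z * a) := by linear_combination h
    subst hb
    simp only [star_neg, star_mul, hes]
    linear_combination (e * a * star a) * hz
  by_cases h : F.B (f + e • f') v1 = 0
  · obtain ⟨x, hx, a, ha⟩ := key v1 m1 h
    exact ⟨x, hx, a, 0, 1, Or.inr rfl, by rw [ha, n1]; simp; ring⟩
  · obtain ⟨x, hx, a, ha⟩ := key (F.B (f + e • f') v1 • v2 - F.B (f + e • f') v2 • v1)
      (P.sub_mem (P.smul_mem _ m2) (P.smul_mem _ m1)) (by
        rw [B_sub_right, B_smul_right, B_smul_right]; ring)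
    refine ⟨x, hx, a, _, F.B (f + e • f') v2, Or.inl h, ?_⟩
    rw [ha]
    generalize F.B (f + e • f') v1 = b
    generalize F.B (f + e • f') v2 = c
    simp only [B_sub_left, B_sub_right, B_smul_left, B_smul_right, n1, n2, o,
      F.B_eq_zero_swap o]
    ring

lemma re_norm_mul (hs : ∀ x, φ (star x) = star (φ x)) (a q : O) :
    (φ (a * star a * q)).re = Complex.normSq (φ a) * (φ q).re := by
  rw [map_mul, map_mul, hs, Complex.star_def, Complex.mul_conj, Complex.re_ofReal_mul]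

lemma sig_LL (h : Sig φ F P) (hi : Function.Injective φ) (hs : ∀ x, φ (star x) = star (φ x))
    (T : Hyp F f f') (mf : f ∈ P) (mf' : f' ∈ P) {ε : ℝ} (he : ε = 1 ∨ ε = -1) :
    ∃ y ∈ LL F P f f', Sg φ F ε y := by
  obtain ⟨p, mp, p', mp', o, ⟨q, hq, n, pq⟩, ⟨q', hq', n', pq'⟩⟩ := h ε he
  obtain ⟨e, hes, hee⟩ : ∃ e : O, star e = e ∧ ε * (φ e).re = 1 := by
    rcases he with rfl | rfl
    · exact ⟨1, star_one _, by simp⟩
    · exact ⟨-1, by simp, by simp⟩
  obtain ⟨x, hx, a, b, c, hbc, k⟩ := sign_core T mf mf' hes mp mp' n n' o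
  refine ⟨x, hx, _, by simp [mul_comm, mul_left_comm, hq, hq', hes], k, ?_⟩
  rw [map_add, map_add, Complex.add_re, Complex.add_re, re_norm_mul hs, re_norm_mul hs,
    re_norm_mul hs, mul_add, mul_add, mul_left_comm ε, mul_left_comm ε, mul_left_comm ε, hee]
  have h1 := Complex.normSq_nonneg (φ a)
  have h2 := mul_nonneg (Complex.normSq_nonneg (φ b)) pq'.le
  have h3 := mul_nonneg (Complex.normSq_nonneg (φ c)) pq.le
  rcases hbc with hb | rfl
  · have := mul_pos (Complex.normSq_pos.2 fun e : φ b = 0 => hb (hi (by rw [e, map_zero]))) pq'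
    linarith
  · rw [map_one, map_one]; linarith

/-- A pair with a root in a nondegenerate lattice with both signs twice is a frame. -/
lemma toFr {ρ : ι → O} (S : Fr0 F P f f' ρ) (hφ : Place φ) (ok : SAok φ F) (nd : Nd F P)
    (sg : Sig φ F P) : ∃ D, Fr F P f f' ρ D := by
  obtain ⟨D, a, b, c⟩ := ok _ (nd_LL nd S.hyp S.fP S.f'P)
    (sig_LL sg hφ.inj hφ.st S.hyp S.fP S.f'P (Or.inl rfl))
    (sig_LL sg hφ.inj hφ.st S.hyp S.fP S.f'P (Or.inr rfl))
  exact ⟨D, S, a, b, c⟩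

end Pool.Agent.Lib.MP_61a4e3_al.R.C
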