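import Pool.Agent.Lib.MP_61a4e3_al.N.Cc
import Pool.Agent.Lib.MP_61a4e3_al.N.Cs

/-! The steps of the peeling chain of the braid form. -/

set_option linter.unusedSectionVars false
set_option linter.unusedSimpArgs false
set_option linter.unusedVariables false

namespace Pool.Agent.Lib.MP_61a4e3_al.R.C

open Matrix WG Form

variable {O : Type} [CommRing O] [StarRing O] [IsDomain O] {m : ℕ} {z : O} {hz : z * star z = 1}
  {d : ℕ}

lemma cop_of_unit {a b : O} (h : IsUnit a) : IsCoprime a b := by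
  obtain ⟨c, hc⟩ := h.exists_left_inv
  exact ⟨c, 0, by simpa using hc⟩

variable (H : RH z) (hd : 3 ≤ d) (hg : geom z d = 0)
include H hd hg

lemma good_gv {k l : ℕ} (h1 : k < l) (h2 : l ≤ k + d) (hk : k + d ≤ m) :
    Good (Gam m z hz) (gv m z d k l) :=
  (good_fv' H hd hg (by omega) (by omega)).orb (gv_orb hd hg h1 h2 hk)

lemma step_top {k : ℕ} (hk : k + d ≤ m) (hp : geom z (k + d + 1) ≠ 0) :
    Step (Gam m z hz) (PT O m (k + d)) (ev O m (k + d)) (vec m (fv z d (k + 1)))
      (-star z • vec m (fv z d k)) (gv m z d k (k + 2)) (ev O m (k + 2)) := by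
  have r : 1 ≤ k + 2 ∧ k + 2 ≤ m := by omega
  have o1 : (BF m z hz).B (vec m (fv z d (k + 1))) (ev O m (k + 2)) = 0 := B_eq_zero_swap _ (by
    rw [B_ev_fv hd hg r (by omega), if_neg (by omega), if_neg (by omega), sub_zero])
  have o2 : (BF m z hz).B (vec m (fv z d k)) (ev O m (k + 2)) = 0 := B_eq_zero_swap _ (by
    rw [B_ev_fv hd hg r (by omega), if_neg (by omega), if_neg (by omega), sub_zero])
  refine ⟨⟨⟨⟨fv_iso' hd hg (by omega),
    by simp [fv_iso' (hz := hz) hd hg (show k + d ≤ m + 1 by omega)], ?_⟩,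
    fv_mem_PT hd hg (by omega), Submodule.smul_mem _ _ (fv_mem_PT hd hg (by omega)),
    sat_PT _, mem_LL.2 ⟨ev_mem_PT (by omega), o1, by simp [o2]⟩, root_ev r⟩,
    good_fv' H hd hg (by omega) (by omega),
    (good_fv' H hd hg (by omega) (by omega)).smul' (fv_iso' hd hg (by omega)) _,
    good_gv H hd hg (by omega) (by omega) hk, gv_mem_PT hd hg le_rfl,
    gv_iso hd hg (by omega) (by omega) hk, cop_of_unit ?_, cop_of_unit ?_⟩,
    nd_PT0 hk hp, ?_⟩
  · rw [B_smul_right, B_succ_fv hd hg hk]; linear_combination hz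
  · rw [B_gv_succ hd hg (by omega) hk]; exact isUnit_one.neg
  · rw [B_smul_left, B_swap, B_gv_fv hd hg (by omega) (by omega) hk]
    simpa using H.unit_z
  · rw [ev_dot _ _ (Or.inl ⟨by omega, hk⟩), fv_in hd hg (by omega),
      show k + d - (k + 1) = d - 1 by omega]
    exact IsUnit.of_mul_eq_one (-z) (by linear_combination -geom_pred hd hg)

/-- The common shape of all steps below the first `d` coordinates. -/
lemma g3_low (hm : d ≤ m) {P : Submodule O (Fin m → O)} {h : Fin m → O} (sat : Sat P)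
    (m0 : vec m (fv z d 0) ∈ P) (m1 : vec m (fv z d 1) ∈ P) (me : ev O m 1 ∈ P) (mh : h ∈ P)
    (gh : Good (Gam m z hz) h) (ih : (BF m z hz).B h h = 0)
    (h0 : (BF m z hz).B h (vec m (fv z d 0)) = -1) (he : (BF m z hz).B (ev O m 1) h = 0)
    (h1 : (1 - z) ∣ (BF m z hz).B h (vec m (fv z d 1)) + 1) :
    G3 (Gam m z hz) P h (-vec m (fv z d 0)) (vec m (fv z d 1)) (ev O m 1) := by
  have r : 1 ≤ 1 ∧ 1 ≤ m := by omega
  have o2 : (BF m z hz).B (vec m (fv z d 0)) (ev O m 1) = 0 := B_eq_zero_swap _ (by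
    rw [B_ev_fv hd hg r (by omega), if_neg (by omega), if_neg (by omega), sub_zero])
  have i0 := fv_iso' (hz := hz) hd hg (show 0 + d ≤ m + 1 by omega)
  refine ⟨⟨⟨ih, by simp [i0], by simp [h0]⟩, mh, neg_mem m0, sat,
    mem_LL.2 ⟨me, B_eq_zero_swap _ he, by simp [o2]⟩, root_ev r⟩, gh, ?_,
    good_fv' H hd hg hm (by omega), m1, fv_iso' hd hg (by omega), ?_, cop_of_unit ?_⟩
  · simpa using (good_fv' (hz := hz) H hd hg hm (show 0 + d ≤ m + 1 by omega)).smul' i0 (-1)
  · obtain ⟨c, hc⟩ := h1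
    have e : (BF m z hz).B h (vec m (fv z d 1)) = (1 - z) * c - 1 := by linear_combination hc
    rw [B_swap, e]
    refine ⟨-star z, -star z * star c, ?_⟩
    simp only [BF_z, star_sub, star_mul, star_one]
    linear_combination (1 - star c * (1 - star z) + star c) * hz
  · rw [B_neg_left, B_fv_succ hd hg (by omega)]; simp

lemma step_low (hp : ∀ i, 0 < i → i < d → geom z i ≠ 0) (hm : d ≤ m) {l : ℕ} (h3 : 3 ≤ l)
    (hl : l < d) : Step (Gam m z hz) (PLo m z hz d (l + 1)) (cf (BF m z hz) (ev O m l))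
      (gv m z d 0 l) (-vec m (fv z d 0)) (vec m (fv z d 1)) (ev O m 1) := by
  refine ⟨g3_low H hd hg hm (sat_PLo _) (fv_mem_PLo hd hg (by omega) (by omega) hm)
    (fv_mem_PLo hd hg (by omega) (by omega) hm) (ev_mem_PLo le_rfl (by omega) (by omega) hm)
    (gv_mem_PLo hd hg (by omega) (by omega) (by omega) hm)
    (good_gv H hd hg (by omega) (by omega) (by omega))
    (gv_iso hd hg (by omega) (by omega) (by omega))
    (B_gv_fv hd hg (by omega) (by omega) (by omega)) ?_ ?_,
    nd_PLo hd hg hp (by omega) (by omega) hm, ?_⟩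
  · rw [B_ev_gv hd hg le_rfl (by omega) (by omega) (by omega) hm, if_neg (by omega),
      if_neg (by omega)]
  · rw [B_gv_succ hd hg (k := 0) (by omega) (by omega)]; simp
  · rw [cf_dot, B_ev_gv hd hg (by omega) hl (by omega) (by omega) hm, if_pos rfl]
    exact H.unit_z.neg

variable {φ : O →+* ℂ} {s : O}

lemma step_five (hp : ∀ i, 0 < i → i < d → geom z i ≠ 0) (h5 : 5 ≤ d) (hm : d ≤ m)
    (hs : Par φ z s) : Step (Gam m z hz) (PLo m z hz d 5) (c3 m z hz - s • c2 m z hz)
      (gv m z d 0 4) (-vec m (fv z d 0)) (vec m (fv z d 1)) (ev O m 1) := by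
  have S := step_low (hz := hz) H hd hg hp hm (l := 4) (by omega) (by omega)
  refine ⟨S.toG3, S.nd, ?_⟩
  obtain ⟨a, b, -⟩ := cc_gv (hz := hz) hd hg h5 hm
  rw [sub_dotProduct, smul_dotProduct, a, b]
  simpa using hs.un

lemma step_four (h5 : 5 ≤ d) (hm : d ≤ m) (hs : Par φ z s) : ∃ h, Step (Gam m z hz)
    (P4 m z hz d s) (c2 m z hz) h (-vec m (fv z d 0)) (vec m (fv z d 1)) (ev O m 1) := by
  have V := five (hz := hz) hd hg h5 hm
  have e : (BF m z hz).IsE (vec m (fv z d 0)) ((star z * s) • ev O m 3) (s * star s) :=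
    ⟨V.ff, by simp [V.f3], by
      simp only [B_smul_left, B_smul_right, V.e33, BF_z, star_mul, star_star]
      linear_combination (-(s * star s) * (1 + z)) * hz⟩
  have eg := ((good_fv' (hz := hz) H hd hg hm (show 0 + d ≤ m + 1 by omega)) _ _ e
    (Dv.smul_of_dvd (hs.dv.mul_left _) _)).mem e
  have p0 := B_gv_fv (m := m) (hz := hz) hd hg (k := 0) (l := 3) (by omega) (by omega) (by omega)
  have p1 := B_gv_succ (m := m) (hz := hz) hd hg (k := 0) (l := 3) (by omega) (by omega)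
  have p2 : (BF m z hz).B (vec m (fv z d 0)) (gv m z d 0 3) = -z := by rw [B_swap, p0]; simp
  have p3 : (BF m z hz).B (ev O m 3) (gv m z d 0 3) = -z := by
    rw [B_ev_gv hd hg (by omega) (by omega) (by omega) (by omega) hm, if_pos rfl]
  have p4 : (BF m z hz).B (ev O m 1) (gv m z d 0 3) = 0 := by
    rw [B_ev_gv hd hg (by omega) (by omega) (by omega) (by omega) hm, if_neg (by omega),
      if_neg (by omega)]
  have hv : act (mkE e) *ᵥ gv m z d 0 3 =
      gv m z d 0 3 + s • ev O m 3 + (z * star s * (s - 1)) • vec m (fv z d 0) := by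
    rw [act_mkE, B_smul_left, p2, p3]
    simp only [BF_z, star_mul, star_star]
    match_scalars
    · ring
    · linear_combination s * hz
    · linear_combination (-z * star s) * hz
  obtain ⟨-, -, a, b, -⟩ := cc_gv (hz := hz) hd hg h5 hm
  obtain ⟨c1, c2', c3'⟩ := comb_mem5 (hz := hz) hd hg h5 hm (z * star s * (s - 1)) 0 0 0 s
  simp only [zero_smul, add_zero] at c1 c2' c3'
  have hv' : act (mkE e) *ᵥ gv m z d 0 3 =
      gv m z d 0 3 + ((z * star s * (s - 1)) • vec m (fv z d 0) + s • ev O m 3) := by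
    rw [hv]; abel
  have k2 : c2 m z hz ⬝ᵥ (act (mkE e) *ᵥ gv m z d 0 3) = 1 := by
    rw [hv', dotProduct_add, a, c2', add_zero]
  have k3 : c3 m z hz ⬝ᵥ (act (mkE e) *ᵥ gv m z d 0 3) = s := by
    rw [hv', dotProduct_add, b, c3', zero_add]
  refine ⟨act (mkE e) *ᵥ gv m z d 0 3, g3_low H hd hg hm (sat_P4 s)
    (by simpa using comb_mem4 (hz := hz) hd hg h5 hm s 1 0 0 0)
    (by simpa using comb_mem4 (hz := hz) hd hg h5 hm s 0 1 0 0)
    (by simpa using comb_mem4 (hz := hz) hd hg h5 hm s 0 0 1 0)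
    (mem_P4.2 ⟨hv' ▸ add_mem (gv_mem_PLo hd hg (by omega) (by omega) (by omega) hm) c1,
      by rw [k2, k3, mul_one]⟩)
    ((good_gv H hd hg (by omega) (by omega) (by omega)).act eg)
    (by rw [B_act, gv_iso hd hg (by omega) (by omega) (by omega)])
    (by rw [hv]; simp [p0, V.a3, V.ff]) (by rw [hv]; simp [p4, V.e13, V.a1]) ?_,
    nd_P4 hd hg h5 hm H.one_add hs, by rw [k2]; exact isUnit_one⟩
  rw [hv]
  simp only [B_add_left, B_smul_left, zero_add] at p1 ⊢
  rw [p1, V.b3, V.fg]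
  simp only [star_mul, star_star]
  convert (hs.dv.mul_right (-(star (s - 1) * star z))) using 1
  ring

/-- The data for the rank three lattice. -/
lemma g3_three (h5 : 5 ≤ d) (hm : d ≤ m) (s : O) : G3 (Gam m z hz) (P3 m z hz d s)
    (vec m (fv z d 0)) (-vec m (fv z d 1)) (gv m z d 0 2) (vec m (fv z d 0) - ev O m 1) := by
  have V := five (hz := hz) hd hg h5 hm
  obtain ⟨-, -, -, -, a, b⟩ := cc_gv (hz := hz) hd hg h5 hm
  refine ⟨⟨⟨V.ff, by simp [V.gg], by simp [V.fg]⟩,
    by simpa using comb_mem3 (hz := hz) hd hg h5 hm s 1 0 0,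
    by simpa using comb_mem3 (hz := hz) hd hg h5 hm s 0 (-1) 0, sat_P3 s,
    mem_LL.2 ⟨by simpa [sub_eq_add_neg] using comb_mem3 (hz := hz) hd hg h5 hm s 1 0 (-1),
      by simp [V.ff, V.f1], by simp [V.gf, V.g1]⟩, by simp [V.ff, V.f1, V.a1, V.e11]⟩,
    good_fv' H hd hg hm (by omega), ?_, good_gv H hd hg (by omega) (by omega) (by omega),
    mem_P3.2 ⟨gv_mem_PLo hd hg (by omega) (by omega) (by omega) hm, a, b⟩,
    gv_iso hd hg (by omega) (by omega) (by omega), cop_of_unit ?_, cop_of_unit ?_⟩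
  · simpa using (good_fv' (hz := hz) H hd hg hm (show 1 + d ≤ m + 1 by omega)).smul' V.gg (-1)
  · rw [B_gv_fv hd hg (by omega) (by omega) (by omega)]; exact isUnit_one.neg
  · rw [B_neg_left, B_swap, B_gv_succ hd hg (k := 0) (by omega) (by omega)]
    simpa using H.unit_z

/-- The frame of the whole lattice, with the same pair as in rank three. -/
lemma fr0_top (h5 : 5 ≤ d) (hm : d ≤ m) : Fr0 (BF m z hz) ⊤ (vec m (fv z d 0))
    (-vec m (fv z d 1)) (vec m (fv z d 0) - ev O m 1) := by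
  have S := (g3_three (hz := hz) H hd hg h5 hm 0).fr
  exact ⟨S.hyp, trivial, trivial, fun _ _ _ _ => trivial,
    mem_LL.2 ⟨trivial, (mem_LL.1 S.ρL).2⟩, S.ρρ⟩

omit H in
lemma nd_top (hp : ∀ i, 0 < i → i < d → geom z i ≠ 0) (hm : d ≤ m) (hm' : m + 2 ≤ 2 * d) :
    Nd (BF m z hz) ⊤ := PT_top (O := O) (m := m) ▸ nd_PT0 le_rfl (geom_ne hd hg hp (by omega) (by omega))

omit H in
lemma sig_top (h5 : 5 ≤ d) (hm : d ≤ m) (hs : Par φ z s) : Sig φ (BF m z hz) ⊤ :=
  sig_mono (sig_P4 hd hg h5 hm hs) le_top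

/-- Induction along the chain from the whole lattice to the rank three lattice. -/
theorem chainC (hp : ∀ i, 0 < i → i < d → geom z i ≠ 0) (h5 : 5 ≤ d) (hm : d ≤ m)
    (hm' : m + 2 ≤ 2 * d) (hs : Par φ z s) (Q : Submodule O (Fin m → O) → Prop) (h0 : Q ⊤)
    (step : ∀ P r h k h3 ρ, Step (Gam m z hz) P r h k h3 ρ → Sig φ (BF m z hz) P → Q P →
      Q (P ⊓ kerv r)) : Q (P3 m z hz d s) := by
  have sg := sig_P4 (hz := hz) hd hg h5 hm hs
  have s5 : Sig φ (BF m z hz) (PLo m z hz d 5) := sig_mono sg inf_le_left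
  have t : ∀ j, j ≤ m → d ≤ j → Q (PT O m j) := by
    intro j hj
    induction hj using Nat.decreasingInduction with
    | self => intro _; rw [PT_top]; exact h0
    | of_succ j hj ih =>
      intro h
      have S := step_top (m := m) (hz := hz) H hd hg (k := j + 1 - d) (by omega)
        (geom_ne hd hg hp (by omega) (by omega))
      rw [show j + 1 - d + d = j + 1 by omega] at S
      rw [← PT_succ hj]
      exact step _ _ _ _ _ _ S (sig_mono (sig_mono s5 PLo_le) (PT_mono (by omega))) (ih (by omega))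
  have u : ∀ l, l ≤ d → 5 ≤ l → Q (PLo m z hz d l) := by
    intro l hl
    induction hl using Nat.decreasingInduction with
    | self => intro _; rw [PLo_top]; exact t d hm le_rfl
    | of_succ l hl ih =>
      intro h
      rw [← PLo_succ hl]
      exact step _ _ _ _ _ _ (step_low H hd hg hp hm (by omega) hl)
        (sig_mono s5 (PLo_mono (by omega))) (ih (by omega))
  obtain ⟨h, S⟩ := step_four (hz := hz) H hd hg h5 hm hs
  exact step _ _ _ _ _ _ S sg (step _ _ _ _ _ _ (step_five H hd hg hp h5 hm hs) s5 (u 5 h5 le_rfl))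

end Pool.Agent.Lib.MP_61a4e3_al.R.C
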