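import Pool.Agent.Lib.MP_61a4e3_al.Plane

/-! Rotations of an anisotropic plane spanned by two orthogonal vectors. -/

set_option linter.unusedSectionVars false
set_option linter.unusedSimpArgs false
set_option linter.unusedVariables false

namespace Pool.Agent.Lib.MP_61a4e3_al

open Matrix WG Form

variable {O : Type*} [CommRing O] [StarRing O] {ι : Type*} [Fintype ι] [DecidableEq ι]
  {F : Form O ι}

/-- The rotation with parameters `s = 1 - u ū q₁ q₂ σ`, `y = u ū y₀`, where `u = 1 + z`. -/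
def mkR {e1 e2 : ι → O} {q1 q2 σ y0 : O} (r1 : star q1 = q1) (r2 : star q2 = q2)
    (rσ : star σ = σ) (b11 : F.B e1 e1 = (1 + F.z) * q1) (b22 : F.B e2 e2 = (1 + F.z) * q2)
    (b12 : F.B e1 e2 = 0)
    (hp : 2 * σ = (1 + F.z) * (1 + star F.z) * (q1 * q2 * σ ^ 2 + y0 * star y0)) : WG F :=
  ⟨((1 + star F.z) * q2 * σ) • ou e1 e1 + ((1 + star F.z) * star y0) • ou e1 e2
      - ((1 + star F.z) * y0) • ou e2 e1 + ((1 + star F.z) * q1 * σ) • ou e2 e2, by
    have b21 := F.B_eq_zero_swap b12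
    have hz := F.hz
    simp only [Form.op, Form.tau, conjTranspose_add, conjTranspose_sub, conjTranspose_smul, ou_ct,
      Matrix.add_mul, Matrix.sub_mul, Matrix.mul_add, Matrix.mul_sub, Matrix.smul_mul,
      Matrix.mul_smul, smul_add, smul_sub, ou_A_ou, b11, b22, b12, b21, star_mul, star_add,
      star_one, star_star, r1, r2, rσ, smul_smul]
    match_scalars
    · linear_combination ((1 + star F.z) * q2) * hp + (σ * q2 - (1 + star F.z) * (1 + F.z) *
        (q1 * q2 ^ 2 * σ ^ 2 + q2 * y0 * star y0)) * hz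
    · linear_combination (-star y0) * hz
    · linear_combination y0 * hz
    · linear_combination ((1 + star F.z) * q1) * hp + (σ * q1 - (1 + star F.z) * (1 + F.z) *
        (q1 ^ 2 * q2 * σ ^ 2 + q1 * y0 * star y0)) * hz⟩

theorem elem [IsDomain O] {e1 e2 : ι → O} {q1 q2 s y m : O} (hu : 1 + F.z ≠ 0)
    (r1 : star q1 = q1) (r2 : star q2 = q2) (rs : star s = s) (n1 : q1 ≠ 0) (n2 : q2 ≠ 0)
    (b11 : F.B e1 e1 = (1 + F.z) * q1) (b22 : F.B e2 e2 = (1 + F.z) * q2) (b12 : F.B e1 e2 = 0)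
    (hp : s ^ 2 - (-(q1 * q2)) * (y * star y) = 1) (rm : star m = m)
    (hs : m * ((1 + F.z) * star (1 + F.z) * q1 * q2) ∣ s - 1)
    (hy : m * ((1 + F.z) * star (1 + F.z)) ∣ y) :
    ∃ g : WG F, g ∈ lev F m ∧ (∀ P : Submodule O (ι → O), e1 ∈ P → e2 ∈ P → g ∈ sup F P) ∧
      (act g).det = 1 ∧ ∀ x, F.B e1 (act g *ᵥ x) = s * F.B e1 x - q1 * star y * F.B e2 x ∧
        F.B e2 (act g *ᵥ x) = s * F.B e2 x + q2 * y * F.B e1 x ∧
        ∀ e, F.B e e1 = 0 → F.B e e2 = 0 → F.B e (act g *ᵥ x) = F.B e x := by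
  obtain ⟨σ', hσ⟩ := hs
  obtain ⟨y', hy'⟩ := hy
  have b21 := F.B_eq_zero_swap b12
  have hub : 1 + star F.z ≠ 0 := fun h => hu (by simpa using congrArg star h)
  simp only [star_add, star_one] at hσ hy'
  have hN : (1 + F.z) * (1 + star F.z) * q1 * q2 ≠ 0 :=
    mul_ne_zero (mul_ne_zero (mul_ne_zero hu hub) n1) n2
  set σ := -(m * σ') with hσd
  set y0 := m * y' with hy0
  have es : s = 1 - (1 + F.z) * (1 + star F.z) * q1 * q2 * σ := by
    rw [hσd]; linear_combination hσ
  have ey : y = (1 + F.z) * (1 + star F.z) * y0 := by rw [hy0]; linear_combination hy'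
  have ey' : star y = (1 + F.z) * (1 + star F.z) * star y0 := by
    rw [ey]; simp only [star_mul, star_add, star_one, star_star]; ring
  have rσ : star σ = σ := by
    apply mul_left_cancel₀ hN
    have h := congrArg star es
    simp only [star_sub, star_mul, star_add, star_one, star_star, r1, r2, rs] at h
    linear_combination h - es
  have hp' : 2 * σ = (1 + F.z) * (1 + star F.z) * (q1 * q2 * σ ^ 2 + y0 * star y0) := by
    apply mul_left_cancel₀ hN
    rw [ey', ey, es] at hp
    linear_combination -hp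
  have hA : ∀ x, ((mkR r1 r2 rσ b11 b22 b12 hp').W * F.A) *ᵥ x =
      ((1 + star F.z) * (q2 * σ * F.B e1 x + star y0 * F.B e2 x)) • e1 +
      ((1 + star F.z) * (q1 * σ * F.B e2 x - y0 * F.B e1 x)) • e2 := by
    intro x
    simp only [mkR, Matrix.add_mul, Matrix.sub_mul, Matrix.smul_mul, add_mulVec, sub_mulVec,
      smul_mulVec, ou_A_mulVec]
    module
  refine ⟨mkR r1 r2 rσ b11 b22 b12 hp', fun i j => ?_, fun P h1 h2 v => ?_, ?_, fun x => ?_⟩
  · have d1 : m ∣ σ := (dvd_mul_right m σ').neg_right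
    have d2 : m ∣ y0 := dvd_mul_right m y'
    have d3 : m ∣ star y0 := ⟨star y', by rw [hy0, star_mul, rm, mul_comm]⟩
    simp only [mkR, Matrix.add_apply, Matrix.sub_apply]
    exact ((dvd_smul_mat (d1.mul_left _) _ i j).add (dvd_smul_mat (d3.mul_left _) _ i j)).sub
      (dvd_smul_mat (d2.mul_left _) _ i j) |>.add (dvd_smul_mat (d1.mul_left _) _ i j)
  · simp only [mkR, add_mulVec, sub_mulVec, smul_mulVec, ou_mulVec]
    exact P.add_mem (P.sub_mem (P.add_mem (P.smul_mem _ (P.smul_mem _ h1))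
      (P.smul_mem _ (P.smul_mem _ h1))) (P.smul_mem _ (P.smul_mem _ h2)))
      (P.smul_mem _ (P.smul_mem _ h2))
  · let U : Matrix ι (Fin 2) O := Matrix.of fun i j => ![e1, e2] j i
    let V : Matrix (Fin 2) ι O := Matrix.of fun j =>
      ![((1 + star F.z) * q2 * σ) • cf F e1 + ((1 + star F.z) * star y0) • cf F e2,
        ((1 + star F.z) * q1 * σ) • cf F e2 - ((1 + star F.z) * y0) • cf F e1] j
    have hU : ∀ w : Fin 2 → O, U *ᵥ w = w 0 • e1 + w 1 • e2 := by
      intro w; ext i; simp [U, mulVec, dotProduct, Fin.sum_univ_two, mul_comm]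
    have hV : ∀ x, V *ᵥ x = ![(1 + star F.z) * (q2 * σ * F.B e1 x + star y0 * F.B e2 x),
        (1 + star F.z) * (q1 * σ * F.B e2 x - y0 * F.B e1 x)] := by
      intro x; ext j; fin_cases j
      · change (((1 + star F.z) * q2 * σ) • cf F e1 + ((1 + star F.z) * star y0) • cf F e2) ⬝ᵥ x = _
        rw [add_dotProduct, smul_dotProduct, smul_dotProduct, cf_dot, cf_dot]
        simp only [smul_eq_mul, Fin.zero_eta, cons_val_zero]; ring
      · change (((1 + star F.z) * q1 * σ) • cf F e2 - ((1 + star F.z) * y0) • cf F e1) ⬝ᵥ x = _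
        rw [sub_dotProduct, smul_dotProduct, smul_dotProduct, cf_dot, cf_dot]
        simp only [smul_eq_mul, Fin.mk_one, cons_val_one, cons_val_fin_one]; ring
    have hUV : (mkR r1 r2 rσ b11 b22 b12 hp').W * F.A = U * V := by
      apply Matrix.ext_of_mulVec_single; intro i
      change _ = (U * V) *ᵥ Pi.single i 1
      rw [← mulVec_mulVec (Pi.single i 1) U V, hU, hV]
      exact hA _
    have hVU : ∀ i j, (V * U) i j = (V *ᵥ (![e1, e2] j)) i := fun i j => rfl
    rw [act_apply, hUV, det_one_sub_mul_comm, det_fin_two]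
    simp only [Matrix.sub_apply, hVU, hV, cons_val_zero, cons_val_one, b11, b22, b12, b21,
      one_apply_eq, ne_eq, zero_ne_one, one_ne_zero, not_false_eq_true, one_apply_ne,
      cons_val_fin_one]
    linear_combination (-((1 + F.z) * (1 + star F.z) * q1 * q2)) * hp'
  · rw [act_of_W, hA]
    simp only [B_sub_right, B_add_right, B_smul_right, b11, b22, b12, b21]
    refine ⟨?_, ?_, fun e h1 h2 => by rw [h1, h2]; ring⟩
    · rw [ey', es]; ring
    · rw [ey, es]; ring

end Pool.Agent.Lib.MP_61a4e3_al
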