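import Mathlib

/-! The Pell equation over the integers of a number field with a real place. -/

namespace Pool.Agent.Lib.MP_61a4e3_al

open NumberField QuadraticAlgebra

lemma pell_pow {S : Type*} [CommRing S] {m x y : S} {T : Type} [Finite T]
    (g : S → T) (hg : ∀ u v, g u = g v → m ∣ u - v) (h : x * y = 1) :
    ∃ k, 0 < k ∧ m ∣ x ^ k - 1 := by
  obtain ⟨a, b, hab, e⟩ := Finite.exists_ne_map_eq_of_infinite fun k : ℕ => g (x ^ k)
  wlog lt : a < b generalizing a b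
  · exact this b a hab.symm e.symm (by omega)
  obtain ⟨k, rfl⟩ := Nat.exists_eq_add_of_le lt.le
  refine ⟨k, by omega, ?_⟩
  have h1 := (hg _ _ e.symm).mul_right (y ^ a)
  have h2 : x ^ a * y ^ a = 1 := by rw [← mul_pow, h, one_pow]
  convert h1 using 1
  rw [pow_add]; linear_combination (1 - x ^ k) * h2

lemma pell_fin {S : Type} [CommRing S] {m x y : S} (hm : Finite (S ⧸ Ideal.span {m}))
    (h : x * y = 1) : ∃ k, 0 < k ∧ m ∣ x ^ k - 1 :=
  pell_pow (Ideal.Quotient.mk (Ideal.span {m}))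
    (fun _ _ e => Ideal.mem_span_singleton.1 (Ideal.Quotient.eq.1 e)) h

lemma pell_level {R : Type} [CommRing R] [IsDomain R] (φ : R →+* ℝ) {δ N s t : R} {r : ℝ}
    (hN : Finite (R ⧸ Ideal.span {N})) (hr : r * r = φ δ) (h : s ^ 2 - δ * t ^ 2 = 1)
    (h1 : |φ s + φ t * r| ≠ 1) :
    ∃ s t : R, t ≠ 0 ∧ s ^ 2 - δ * t ^ 2 = 1 ∧ N ∣ s - 1 ∧ N ∣ t := by
  let x : QuadraticAlgebra R δ 0 := ⟨s, t⟩
  have hx : x * star x = 1 := by
    ext
    · simp [x]; linear_combination h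
    · simp [x]; ring
  obtain ⟨k, hk, hd⟩ := pell_pow (m := algebraMap R (QuadraticAlgebra R δ 0) N)
    (fun u => (Ideal.Quotient.mk (Ideal.span {N}) u.re, Ideal.Quotient.mk (Ideal.span {N}) u.im))
    (fun u v e => by
      rw [algebraMap_dvd_iff]
      simp only [Prod.mk.injEq, Ideal.Quotient.eq, Ideal.mem_span_singleton] at e
      simpa using e) hx
  rw [algebraMap_dvd_iff] at hd
  have hn : (x ^ k).re ^ 2 - δ * (x ^ k).im ^ 2 = 1 := by
    have : x ^ k * star (x ^ k) = 1 := by rw [star_pow, ← mul_pow, hx, one_pow]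
    have := congrArg QuadraticAlgebra.re this
    simp only [re_mul, re_star, im_star, re_one] at this
    linear_combination this
  have ev : ∀ j : ℕ, φ (x ^ j).re + φ (x ^ j).im * r = (φ s + φ t * r) ^ j := by
    intro j
    induction j with
    | zero => simp
    | succ j ih =>
      rw [pow_succ, pow_succ, ← ih]
      simp [x]
      linear_combination (-φ t * φ ((⟨s, t⟩ : QuadraticAlgebra R δ 0) ^ j).im) * hr
  refine ⟨(x ^ k).re, (x ^ k).im, fun h0 => h1 ?_, hn, by simpa using hd.1, by simpa using hd.2⟩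
  have e := ev k
  rw [h0] at hn e
  have e2 : φ (x ^ k).re ^ 2 = 1 := by simpa using congrArg φ hn
  simp only [map_zero, zero_mul, add_zero] at e
  rw [e, ← pow_mul] at e2
  have := congrArg abs e2
  rw [abs_pow, abs_one] at this
  exact (pow_eq_one_iff_of_nonneg (abs_nonneg _) (by omega)).1 this

variable {F : Type} [Field F] [NumberField F]

lemma pell_sq (φ : F →+* ℝ) {γ : 𝓞 F} (h0 : γ ≠ 0) (hinf : Infinite (𝓞 F)ˣ) :
    ∃ s t : 𝓞 F, s ^ 2 - γ * γ * t ^ 2 = 1 ∧ |φ s + φ t * φ γ| ≠ 1 := by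
  classical
  obtain ⟨u, hu⟩ := Infinite.exists_notMem_finset ({1, -1} : Finset (𝓞 F)ˣ)
  simp only [Finset.mem_insert, Finset.mem_singleton, not_or] at hu
  have hm : (2 * γ : 𝓞 F) ≠ 0 := mul_ne_zero two_ne_zero h0
  obtain ⟨k, hk, c, hc⟩ := pell_fin (m := 2 * γ) (x := (u : 𝓞 F))
    (Ideal.finiteQuotientOfFreeOfNeBot _ (by simpa using hm)) u.mul_inv
  obtain ⟨v, hv⟩ : ∃ v : 𝓞 F, (u : 𝓞 F) ^ k * v = 1 :=
    ⟨(u⁻¹ : (𝓞 F)ˣ) ^ k, by rw [← mul_pow, u.mul_inv, one_pow]⟩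
  have e : (u : 𝓞 F) ^ k = 1 + 2 * γ * c := by linear_combination hc
  have e1 : 1 + γ * c * (1 - v) + c * (1 + v) * γ = (u : 𝓞 F) ^ k := by rw [e]; ring
  refine ⟨1 + γ * c * (1 - v), c * (1 + v), ?_, fun h => ?_⟩
  · rw [e] at hv
    linear_combination (-2 * γ * c) * hv
  · have h2 := congrArg (fun x : 𝓞 F => φ x) e1
    simp only [map_add, map_mul, map_pow, RingOfIntegers.coe_eq_algebraMap] at h2 h
    rw [h2, abs_pow, pow_eq_one_iff_of_nonneg (abs_nonneg _) hk.ne', abs_eq zero_le_one] at h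
    rcases h with h | h
    · exact hu.1 (Units.ext (RingOfIntegers.ext (φ.injective (by simpa using h))))
    · exact hu.2 (Units.ext (RingOfIntegers.ext (φ.injective (by simpa using h))))

lemma pell_unit {L : Type} [Field L] [NumberField L] (ψ χ : L →+* ℝ) {y : L}
    (h : |ψ y| ≠ |χ y|) : ∃ u : (𝓞 L)ˣ, |χ u| < 1 ∧ 1 ≤ |ψ u| := by
  let w₁ := InfinitePlace.mk (Complex.ofRealHom.comp ψ)
  let w₂ := InfinitePlace.mk (Complex.ofRealHom.comp χ)
  have e₁ : ∀ x, w₁ x = |ψ x| := fun x => by simp [w₁, InfinitePlace.apply]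
  have e₂ : ∀ x, w₂ x = |χ x| := fun x => by simp [w₂, InfinitePlace.apply]
  have ne : w₂ ≠ w₁ := fun e => h (by rw [← e₁, ← e₂, e])
  obtain ⟨u, hu⟩ := Units.dirichletUnitTheorem.exists_unit L w₁
  refine ⟨u, ?_, ?_⟩
  · have := hu w₂ ne
    rw [Real.log_neg_iff (Units.pos_at_place u w₂), e₂] at this
    exact this
  · by_contra lt
    have l1 : Real.log (w₁ u) < 0 := by
      rw [Real.log_neg_iff (Units.pos_at_place u w₁), e₁]; exact not_le.1 lt
    have := Units.sum_mult_mul_log u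
    refine absurd this (Finset.sum_neg (fun w _ => ?_) Finset.univ_nonempty).ne
    refine mul_neg_of_pos_of_neg (by exact_mod_cast InfinitePlace.mult_pos) ?_
    by_cases e : w = w₁
    · rw [e]; exact l1
    · exact hu w e

lemma pell_nsq (φ : F →+* ℝ) {δ : 𝓞 F} {r : ℝ} (hr : r * r = φ δ) (r0 : 0 < r)
    (hδ : ∀ γ : F, γ ^ 2 ≠ δ) : ∃ s t : 𝓞 F, s ^ 2 - δ * t ^ 2 = 1 ∧ |φ s + φ t * r| ≠ 1 := by
  have : Fact (∀ γ : F, γ ^ 2 ≠ (δ : F) + 0 * γ) := ⟨by simpa using hδ⟩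
  let L := QuadraticAlgebra F (δ : F) 0
  have : CharZero L := algebraRat.charZero _
  have : NumberField L := NumberField.of_module_finite F L
  have mk : ∀ ρ : ℝ, ρ * ρ = φ δ → ∃ ψ : L →+* ℝ, ∀ x, ψ x = φ x.re + φ x.im * ρ := by
    intro ρ hρ
    refine ⟨{ toFun := fun x => φ x.re + φ x.im * ρ, map_one' := by simp [L], map_zero' := by simp [L]
              map_mul' := fun x y => ?_, map_add' := fun x y => ?_ }, fun _ => rfl⟩
    · simp [L]; linear_combination (-φ x.im * φ y.im) * hρ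
    · simp [L]; ring
  obtain ⟨ψ, hψ⟩ := mk r hr
  obtain ⟨χ, hχ⟩ := mk (-r) (by rw [neg_mul_neg, hr])
  have sw : ∀ x : L, ψ (star x) = χ x := fun x => by simp [hψ, hχ, L]
  obtain ⟨u, h1, h2⟩ := pell_unit ψ χ (y := ⟨1, 1⟩) (by
    rw [hψ, hχ]; simp only [map_one, one_mul]
    intro e
    have := (abs_eq_abs.1 e)
    rcases this with e | e <;> linarith)
  let σ : L ≃+* L := starRingAut
  let τ : 𝓞 L ≃+* 𝓞 L := RingOfIntegers.mapRingEquiv σ
  have hτ : ∀ x : 𝓞 L, (τ x : L) = star (x : L) := fun x => rfl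
  have ττ : ∀ x, τ (τ x) = x := fun x => RingOfIntegers.ext (by rw [hτ, hτ, star_star])
  let ε : 𝓞 L := u * τ (u⁻¹ : (𝓞 L)ˣ)
  have hε : ε * τ ε = 1 := by
    simp only [ε, map_mul, ττ]
    have : τ u * τ (u⁻¹ : (𝓞 L)ˣ) = 1 := by rw [← map_mul, u.mul_inv, map_one]
    linear_combination (τ u * τ (u⁻¹ : (𝓞 L)ˣ)) * u.mul_inv + this
  have δ0 : δ ≠ 0 := fun e => hδ 0 (by simp [e])
  have hm : (2 * algebraMap (𝓞 F) (𝓞 L) δ) ≠ 0 :=
    mul_ne_zero two_ne_zero ((map_ne_zero_iff _ (FaithfulSMul.algebraMap_injective _ _)).2 δ0)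
  obtain ⟨k, hk, c, hc⟩ := pell_fin (Ideal.finiteQuotientOfFreeOfNeBot _
    (mt Ideal.span_singleton_eq_bot.1 hm)) hε
  have ci : IsIntegral ℤ (c : L) := c.isIntegral_coe
  have ci' : IsIntegral ℤ (star (c : L)) := (τ c).isIntegral_coe
  have ωi : IsIntegral ℤ (ω : L) := by
    refine IsIntegral.of_pow two_pos ?_
    have : (ω : L) ^ 2 = algebraMap F L δ := by ext <;> simp [L, sq]
    rw [this]; exact δ.isIntegral_coe.algebraMap
  have ia : IsIntegral ℤ (2 * (c : L).re) := by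
    rw [← isIntegral_algebraMap_iff (algebraMap F L).injective]
    have : algebraMap F L (2 * (c : L).re) = c + star (c : L) := by
      ext
      · simp only [L, algebraMap_re, re_add, re_star]; ring
      · simp only [L, algebraMap_im, im_add, im_star]; ring
    rw [this]; exact ci.add ci'
  have ib : IsIntegral ℤ (2 * δ * (c : L).im) := by
    rw [← isIntegral_algebraMap_iff (algebraMap F L).injective]
    have : algebraMap F L (2 * δ * (c : L).im) = ω * ((c : L) - star (c : L)) := by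
      ext
      · simp only [L, algebraMap_re, re_mul, re_sub, im_sub, re_star, im_star, omega_re, omega_im]
        ring
      · simp only [L, algebraMap_im, im_mul, re_sub, im_sub, re_star, im_star, omega_re, omega_im]
        ring
    rw [this]; exact ωi.mul (ci.sub ci')
  obtain ⟨A, hA⟩ : ∃ A : 𝓞 F, (A : F) = 2 * (c : L).re := ⟨⟨_, ia⟩, rfl⟩
  obtain ⟨B, hB⟩ : ∃ B : 𝓞 F, (B : F) = 2 * δ * (c : L).im := ⟨⟨_, ib⟩, rfl⟩
  have hs : ((1 + δ * A : 𝓞 F) : F) = 1 + δ * A := rfl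
  have e : (ε : L) ^ k = ⟨(1 + δ * A : 𝓞 F), B⟩ := by
    have h3 : (ε : L) ^ k = 1 + algebraMap F L (2 * δ) * c := by
      have := congrArg (algebraMap (𝓞 L) L) hc
      rw [map_sub, map_pow, map_one, map_mul _ _ c, map_mul _ 2, map_ofNat,
        sub_eq_iff_eq_add'] at this
      rw [map_mul, map_ofNat]
      exact this
    rw [h3, hs, hA, hB]
    ext
    · simp only [L, algebraMap_re, algebraMap_im, re_add, re_mul, re_one]; ring
    · simp only [L, algebraMap_re, algebraMap_im, im_add, im_mul, im_one]; ring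
  refine ⟨1 + δ * A, B, RingOfIntegers.ext ?_, fun h => ?_⟩
  · have h3 : (ε : L) ^ k * star ((ε : L) ^ k) = 1 := by
      rw [star_pow, ← mul_pow, ← hτ]
      have := congrArg (algebraMap (𝓞 L) L) hε
      rw [map_mul, map_one] at this
      rw [show (ε : L) * (τ ε : L) = 1 from this, one_pow]
    rw [e] at h3
    have h4 := congrArg QuadraticAlgebra.re h3
    simp only [L, re_mul, re_star, im_star, re_one] at h4
    change ((1 + δ * A : 𝓞 F) : F) ^ 2 - (δ : F) * (B : F) ^ 2 = 1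
    linear_combination h4
  · have h3 : |ψ (ε : L)| ^ k = 1 := by rw [← abs_pow, ← map_pow, e, hψ, ← h]
    rw [pow_eq_one_iff_of_nonneg (abs_nonneg _) hk.ne'] at h3
    have h4 : (ε : L) * star ((u : 𝓞 L) : L) = (u : 𝓞 L) := by
      have : ε * τ u = u := by
        simp only [ε]
        rw [mul_assoc, ← map_mul, u.inv_mul, map_one, mul_one]
      rw [← hτ]
      have h5 := congrArg (algebraMap (𝓞 L) L) this
      rw [map_mul] at h5
      exact h5
    have h5 := congrArg (fun x => |ψ x|) h4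
    simp only [map_mul, abs_mul, h3, sw, one_mul] at h5
    exact absurd (h5 ▸ h1) (not_lt.2 h2)

/-- The Pell equation has a non trivial solution of every level. -/
theorem pell (φ : F →+* ℝ) {δ N : 𝓞 F} (h : 0 < φ δ) (hinf : Infinite (𝓞 F)ˣ) (hN : N ≠ 0) :
    ∃ s t : 𝓞 F, t ≠ 0 ∧ s ^ 2 - δ * t ^ 2 = 1 ∧ N ∣ s - 1 ∧ N ∣ t := by
  have fin : Finite (𝓞 F ⧸ Ideal.span {N}) :=
    Ideal.finiteQuotientOfFreeOfNeBot _ (mt Ideal.span_singleton_eq_bot.1 hN)
  by_cases hs : ∃ γ : F, γ ^ 2 = δ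
  · obtain ⟨γ, hγ⟩ := hs
    have gi : IsIntegral ℤ γ := IsIntegral.of_pow two_pos (hγ ▸ δ.isIntegral_coe)
    obtain ⟨g, rfl⟩ : ∃ g : 𝓞 F, δ = g * g :=
      ⟨⟨γ, gi⟩, RingOfIntegers.ext (by rw [← hγ, sq]; rfl)⟩
    obtain ⟨s, t, e, h1⟩ := pell_sq φ (γ := g) (by rintro rfl; simp at h) hinf
    exact pell_level (φ.comp (algebraMap (𝓞 F) F)) fin (r := φ g) (by simp) e h1
  · obtain ⟨s, t, e, h1⟩ := pell_nsq φ (Real.mul_self_sqrt h.le) (Real.sqrt_pos.2 h)
      (not_exists.1 hs)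
    exact pell_level (φ.comp (algebraMap (𝓞 F) F)) fin (Real.mul_self_sqrt h.le) e h1

omit [NumberField F] in
lemma pell_inf {O : Type} [CommRing O] [StarRing O] (j : 𝓞 F →+* O) (hj : Function.Injective j)
    (hr : ∀ x, star x = x ↔ ∃ r, j r = x) (hinf : Infinite Oˣ)
    (hfin : {x : O | x * star x = 1}.Finite) : Infinite (𝓞 F)ˣ := by
  by_contra hn
  have fin : Finite (𝓞 F)ˣ := not_infinite_iff_finite.1 hn
  have ex : ∀ u : Oˣ, ∃ v : (𝓞 F)ˣ, j v = u * star (u : O) := by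
    intro u
    obtain ⟨a, ha⟩ := (hr (u * star (u : O))).1 (by rw [star_mul, star_star])
    obtain ⟨b, hb⟩ := (hr ((u⁻¹ : Oˣ) * star ((u⁻¹ : Oˣ) : O))).1 (by rw [star_mul, star_star])
    have hab : a * b = 1 := hj (by
      rw [map_mul, ha, hb, map_one, mul_mul_mul_comm, ← star_mul', u.mul_inv, star_one, one_mul])
    exact ⟨Units.mkOfMulEqOne a b hab, ha⟩
  choose f hf using ex
  obtain ⟨v, hv⟩ := Finite.exists_infinite_fiber f
  obtain ⟨⟨u, hu⟩⟩ := hv.nonempty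
  have := hfin.to_subtype
  refine not_injective_infinite_finite (fun w : f ⁻¹' {v} =>
    (⟨(w.1 * u⁻¹ : Oˣ), ?_⟩ : {x : O | x * star x = 1})) fun w w' e => ?_
  · have h1 : (w.1 : O) * star (w.1 : O) = u * star (u : O) := by
      rw [← hf, ← hf, show f w.1 = v from w.2, show f u = v from hu]
    change ((w.1 * u⁻¹ : Oˣ) : O) * star ((w.1 * u⁻¹ : Oˣ) : O) = 1
    rw [Units.val_mul, star_mul', mul_mul_mul_comm, h1, mul_mul_mul_comm, ← star_mul', u.mul_inv,
      star_one, one_mul]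
  · exact Subtype.ext (mul_right_cancel (Units.ext (congrArg Subtype.val e)))

/-- The Pell equation in the real part of a star ring. -/
theorem pell_star {O : Type} [CommRing O] [StarRing O] (j : 𝓞 F →+* O)
    (hj : Function.Injective j) (hr : ∀ x, star x = x ↔ ∃ r, j r = x) (hinf : Infinite Oˣ)
    (hfin : {x : O | x * star x = 1}.Finite) (φ : O →+* ℂ) (hφ : Function.Injective φ)
    (hs : ∀ x, φ (star x) = star (φ x)) {δ : O} (hδ : star δ = δ) (h : 0 < (φ δ).re) (N : O)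
    (hN : star N = N) (N0 : N ≠ 0) : ∃ s t : O, star s = s ∧ star t = t ∧ t ≠ 0 ∧
      s ^ 2 - δ * t ^ 2 = 1 ∧ N ∣ s - 1 ∧ N ∣ t := by
  have im : ∀ r, (φ (j r)).im = 0 := fun r =>
    Complex.conj_eq_iff_im.1 (by rw [← Complex.star_def, ← hs, (hr _).2 ⟨r, rfl⟩])
  let g : 𝓞 F →+* ℝ :=
    { toFun := fun r => (φ (j r)).re, map_one' := by simp, map_zero' := by simp
      map_mul' := fun x y => by simp [im], map_add' := fun x y => by simp }
  have gi : Function.Injective g := fun x y e =>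
    hj (hφ (Complex.ext e (by rw [im, im])))
  obtain ⟨a, rfl⟩ := (hr δ).1 hδ
  obtain ⟨n, rfl⟩ := (hr N).1 hN
  obtain ⟨s, t, t0, e, h1, h2⟩ := pell (IsFractionRing.lift gi) (δ := a) (N := n)
    (by rw [RingOfIntegers.coe_eq_algebraMap, IsFractionRing.lift_algebraMap]; exact h)
    (pell_inf j hj hr hinf hfin) (by rintro rfl; simp at N0)
  refine ⟨j s, j t, (hr _).2 ⟨_, rfl⟩, (hr _).2 ⟨_, rfl⟩, (map_ne_zero_iff j hj).2 t0, ?_, ?_,
    map_dvd j h2⟩
  · simpa using congrArg j e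
  · simpa using map_dvd j h1

end Pool.Agent.Lib.MP_61a4e3_al
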