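import Pool.Agent.Lib.MP_61a4e3_al.Cyc
import Pool.Agent.Lib.MP_61a4e3_al.N.Pell
import Pool.Agent.Lib.MP_61a4e3_al.N.Ba64

/-! More properties of the cyclotomic model: class number splitting, other places, Pell. -/

namespace Pool.Agent.Lib.MP_61a4e3_al

open NumberField Polynomial

theorem model_extra {d : ℕ} (hd : 3 ≤ d) {ζ : ℂ} (hζ : IsPrimitiveRoot ζ d) {O : Type}
    [CommRing O] [StarRing O] [IsDomain O] {z : O} {φ : O →+* ℂ} (inj : Function.Injective φ)
    (hs : ∀ x, φ (star x) = star (φ x)) (hφ : φ z = ζ)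
    (hr : ∀ y, y ∈ Algebra.adjoin ℤ {ζ} ↔ ∃ x, φ x = y) (hf : {x : O | x * star x = 1}.Finite)
    (hinf : Infinite Oˣ) : CharZero O ∧
      (∀ (n : ℕ) (a : O), n ≠ 0 → a ≠ 0 → ∃ (h : ℕ) (al be : O) (j : ℕ), 0 < h ∧
        (n : O) ^ h = al * be ∧ IsCoprime be a ∧ al ∣ a ^ j) ∧
      ∀ k : ℕ, k.Coprime d → ∃ ψ : O →+* ℂ, Function.Injective ψ ∧
        (∀ x, ψ (star x) = star (ψ x)) ∧ ψ z = ζ ^ k ∧
        ∀ δ : O, star δ = δ → 0 < (ψ δ).re → ∀ N : O, star N = N → N ≠ 0 →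
          ∃ s t, star s = s ∧ star t = t ∧ t ≠ 0 ∧ s ^ 2 - δ * t ^ 2 = 1 ∧ N ∣ s - 1 ∧ N ∣ t := by
  have : NeZero d := ⟨by omega⟩
  obtain ⟨K, _, _, _⟩ : ∃ (K : Type) (_ : Field K) (_ : NumberField K),
      IsCyclotomicExtension {d} ℚ K := by
    refine ⟨CyclotomicField d ℚ, inferInstance, inferInstance, ?_⟩
    convert CyclotomicField.isCyclotomicExtension d ℚ
    · rfl
    · exact Subsingleton.elim _ _
  have : IsCMField K := IsCyclotomicExtension.Rat.isCMField K (S := {d}) ⟨d, rfl, hd⟩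
  have h0 := IsCyclotomicExtension.zeta_spec d ℚ K
  have pl : ∀ ξ : ℂ, IsPrimitiveRoot ξ d → ∃ χ : 𝓞 K →+* ℂ, Function.Injective χ ∧
      χ h0.toInteger = ξ ∧ ∀ x, χ (IsCMField.ringOfIntegersComplexConj K x) = star (χ x) := by
    intro ξ hξ
    let ψ := (h0.embeddingsEquivPrimitiveRoots ℂ (cyclotomic.irreducible_rat (by omega))).symm
      ⟨ξ, (mem_primitiveRoots (by omega)).2 hξ⟩
    have hψ : ψ (IsCyclotomicExtension.zeta d ℚ K) = ξ := by
      rw [← h0.embeddingsEquivPrimitiveRoots_apply_coe ℂ (cyclotomic.irreducible_rat (by omega)),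
        Equiv.apply_symm_apply]
    exact ⟨(ψ : K →+* ℂ).comp (algebraMap _ _),
      (ψ : K →+* ℂ).injective.comp RingOfIntegers.coe_injective, hψ,
      fun x => IsCMField.complexEmbedding_complexConj K (ψ : K →+* ℂ) x⟩
  obtain ⟨χ, i0, z0, s0⟩ := pl ζ hζ
  have top := IsCyclotomicExtension.Rat.adjoin_singleton_eq_top h0
  have rg : ∀ y, y ∈ Algebra.adjoin ℤ {ζ} ↔ ∃ x, χ x = y := fun y => by
    have := AlgHom.map_adjoin_singleton χ.toIntAlgHom h0.toInteger
    rw [top, Algebra.map_top] at this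
    rw [← z0]
    exact (SetLike.ext_iff.1 this y).symm
  choose f hf' using fun x : 𝓞 K => (hr (χ x)).1 ((rg _).2 ⟨x, rfl⟩)
  let g : 𝓞 K →+* O :=
    { toFun := f, map_one' := inj (by simp [hf']), map_zero' := inj (by simp [hf'])
      map_mul' := fun x y => inj (by simp [hf']), map_add' := fun x y => inj (by simp [hf']) }
  let e : 𝓞 K ≃+* O := RingEquiv.ofBijective g
    ⟨fun x y h => i0 (by rw [← hf', ← hf']; exact congrArg φ h), fun y => by
      obtain ⟨x, hx⟩ := (rg _).1 ((hr _).2 ⟨y, rfl⟩)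
      exact ⟨x, inj ((hf' x).trans hx)⟩⟩
  have he : ∀ x, φ (e x) = χ x := hf'
  have es : ∀ x, e (IsCMField.ringOfIntegersComplexConj K x) = star (e x) := fun x =>
    inj (by rw [he, s0, hs, he])
  have ez : e h0.toInteger = z := inj (by rw [he, z0, hφ])
  refine ⟨φ.charZero, fun n a hn ha => ?_, fun k hk => ?_⟩
  · obtain ⟨h, al, be, j, h1, h2, h3, h4⟩ := ba_cls (O := 𝓞 K)
      (fun m hm => Ideal.finiteQuotientOfFreeOfNeBot _ (by simpa using hm)) n (e.symm a) hn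
      (by simpa using ha)
    refine ⟨h, e al, e be, j, h1, by simpa using congrArg e h2, ?_, by simpa using map_dvd e h4⟩
    simpa using h3.map (e : 𝓞 K →+* O)
  · obtain ⟨χ', i1, z1, s1⟩ := pl _ (hζ.pow_of_coprime k hk)
    have inj' : Function.Injective (χ'.comp (e.symm : O →+* 𝓞 K)) := i1.comp e.symm.injective
    have hs' : ∀ x, (χ'.comp (e.symm : O →+* 𝓞 K)) (star x) =
        star ((χ'.comp (e.symm : O →+* 𝓞 K)) x) := by
      intro x
      obtain ⟨x, rfl⟩ := e.surjective x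
      rw [← es]
      simp [s1]
    refine ⟨_, inj', hs', by rw [← ez]; simp [z1], fun δ hδ h N hN N0 => ?_⟩
    refine pell_star ((e : 𝓞 K →+* O).comp (algebraMap (𝓞 (maximalRealSubfield K)) (𝓞 K)))
      (e.injective.comp (FaithfulSMul.algebraMap_injective _ _)) (fun x => ?_) hinf hf _ inj' hs'
      hδ h N hN N0
    obtain ⟨x, rfl⟩ := e.surjective x
    rw [← es, e.injective.eq_iff, IsCMField.ringOfIntegersComplexConj_eq_self_iff]
    exact ⟨fun ⟨r, h⟩ => ⟨r, congrArg e h⟩, fun ⟨r, h⟩ => ⟨r, e.injective h⟩⟩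

end Pool.Agent.Lib.MP_61a4e3_al
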