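import Pool.Agent.Lib.MP_61a4e3_al.Men3

/-! Norms with prescribed congruences. -/

set_option linter.unusedSectionVars false
set_option linter.unusedSimpArgs false
set_option linter.unusedVariables false

namespace Pool.Agent.Lib.MP_61a4e3_al

open Ideal

variable {O : Type} [CommRing O]

lemma unit_of_subring {T : Type} [CommRing T] [Finite T] (S : Subring T) (x : S)
    (h : IsUnit (x : T)) : IsUnit x := by
  obtain ⟨k, hk, e⟩ := isOfFinOrder_iff_pow_eq_one.1 (isOfFinOrder_of_finite h.unit)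
  have e' : (x : T) ^ k = 1 := by simpa using congrArg Units.val e
  exact IsUnit.of_pow_eq_one (n := k) (Subtype.ext (by simpa using e')) hk.ne'

variable [StarRing O]

/-- The subring of real elements. -/
def realSub (O : Type) [CommRing O] [StarRing O] : Subring O where
  carrier := {x | star x = x}
  mul_mem' := by
    intro a b ha hb
    simp only [Set.mem_ofPred_eq] at ha hb ⊢
    rw [star_mul, ha, hb, mul_comm]
  one_mem' := star_one O
  add_mem' := by
    intro a b ha hb
    simp only [Set.mem_ofPred_eq] at ha hb ⊢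
    rw [star_add, ha, hb]
  zero_mem' := star_zero O
  neg_mem' := by
    intro a ha
    simp only [Set.mem_ofPred_eq] at ha ⊢
    rw [star_neg, ha]

lemma exists_real_form (I : Ideal O) [Finite (O ⧸ I)] {D u : O} (hD : star D = D)
    (hu : star u = u) (h2 : IsUnit (Ideal.Quotient.mk I 2)) (uD : IsUnit (Ideal.Quotient.mk I D))
    (uu : IsUnit (Ideal.Quotient.mk I u)) :
    ∃ X Y, star X = X ∧ star Y = Y ∧ X ^ 2 - D * Y ^ 2 - u ∈ I := by
  let S : Subring (O ⧸ I) := (realSub O).map (Ideal.Quotient.mk I)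
  let D' : S := ⟨Ideal.Quotient.mk I D, D, hD, rfl⟩
  let u' : S := ⟨Ideal.Quotient.mk I u, u, hu, rfl⟩
  have h2' : IsUnit (2 : S) := unit_of_subring S 2 (by
    rw [map_ofNat] at h2
    exact h2)
  obtain ⟨⟨_, X, hX, rfl⟩, ⟨_, Y, hY, rfl⟩, e⟩ :=
    exists_form h2' (unit_of_subring S D' uD) (unit_of_subring S u' uu)
  refine ⟨X, Y, hX, hY, ?_⟩
  rw [← Ideal.Quotient.eq]
  simpa [D', u'] using congrArg Subtype.val e

lemma exists_cat {u : O} (hu : star u = u) (K : ℕ) :
    ∃ x, star x = x ∧ u ∣ x ∧ u ^ K ∣ x + x ^ 2 - u := by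
  induction K with
  | zero => exact ⟨0, star_zero O, dvd_zero u, by simp⟩
  | succ K ih =>
    obtain ⟨x, hx, h1, h2⟩ := ih
    have h3 : u ∣ u - x ^ 2 := dvd_sub dvd_rfl (dvd_pow h1 two_ne_zero)
    refine ⟨u - x ^ 2, by simp [hu, hx], h3, ?_⟩
    have e : u - x ^ 2 + (u - x ^ 2) ^ 2 - u = (x + x ^ 2 - u) * (-(x + (u - x ^ 2))) := by ring
    rw [e, pow_succ]
    exact mul_dvd_mul h2 (dvd_add h1 h3).neg_right

lemma star_dvd_star' {a b : O} (h : a ∣ b) : star a ∣ star b := by
  obtain ⟨c, rfl⟩ := h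
  exact ⟨star c, by rw [star_mul, mul_comm]⟩

lemma cop_star {a b : O} (h : IsCoprime a b) : IsCoprime (star a) (star b) := by
  obtain ⟨u, v, huv⟩ := h
  exact ⟨star u, star v, by simpa [mul_comm] using congrArg star huv⟩

lemma norm_congr {m x y : O} (hm : star m = m) (h : m ∣ x - y) :
    m ∣ x * star x - y * star y := by
  have h' : m ∣ star x - star y := by
    have := star_dvd_star' h
    rwa [hm, star_sub] at this
  have e : x * star x - y * star y = (x - y) * star x + y * (star x - star y) := by ring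
  rw [e]
  exact dvd_add (h.mul_right _) (h'.mul_left _)

/-- The part of the modulus made of `4 n1`, `l` and its conjugate. -/
lemma norm_bad {a0 n1 l b0 : O} (ha0 : star a0 = a0) (hn : star n1 = n1) (hb : star b0 = b0)
    (h2 : 2 ∣ n1) (e0 : a0 = 1 + 4 * (n1 * b0)) (hl : IsCoprime l (star l))
    (hln : IsCoprime l n1) (k : ℕ) :
    ∃ mu, (4 * n1 * (l * star l)) ^ (k + 1) ∣ mu * star mu - a0 ∧ n1 * star l ∣ mu - 1 := by
  have hc : 4 * n1 ∣ n1 ^ 3 := by
    obtain ⟨e, he⟩ := h2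
    exact ⟨e ^ 2, by linear_combination (n1 * (n1 + 2 * e)) * he⟩
  have hln' : IsCoprime (star l) n1 := by simpa [hn] using cop_star hln
  have c1 : IsCoprime l (4 * n1) := (hln.pow_right (n := 3)).of_isCoprime_of_dvd_right hc
  have c2 : IsCoprime (star l) (4 * n1) := (hln'.pow_right (n := 3)).of_isCoprime_of_dvd_right hc
  obtain ⟨x, hx, x1, x2⟩ := exists_cat (u := n1 * b0) (by simp [hn, hb, mul_comm]) (3 * (k + 1))
  obtain ⟨v, v1, v2⟩ := crt (hl.pow (m := k + 1) (n := k + 1)) a0 1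
  have c3 : IsCoprime ((4 * n1) ^ (k + 1)) ((l * star l) ^ (k + 1)) := (c1.mul_left c2).symm.pow
  obtain ⟨mu, m1, m2⟩ := crt c3 (1 + 2 * x) v
  rw [mul_pow] at m2
  have p1 : l ^ (k + 1) ∣ mu - a0 := by
    have := dvd_add (dvd_of_mul_right_dvd m2) v1
    rwa [sub_add_sub_cancel] at this
  have p2 : star l ^ (k + 1) ∣ mu - 1 := by
    have := dvd_add (dvd_of_mul_left_dvd m2) v2
    rwa [sub_add_sub_cancel] at this
  have p3 : star l ^ (k + 1) ∣ star mu - a0 := by
    simpa [ha0] using star_dvd_star' p1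
  have p4 : l ^ (k + 1) ∣ star mu - 1 := by
    simpa using star_dvd_star' p2
  refine ⟨mu, ?_, ?_⟩
  · rw [mul_pow]
    refine c3.mul_dvd ?_ ?_
    · have q1 := norm_congr (m := (4 * n1) ^ (k + 1)) (by simp [hn]) m1
      have q2 : (4 * n1) ^ (k + 1) ∣ x + x ^ 2 - n1 * b0 := by
        refine dvd_trans ?_ x2
        rw [pow_mul]
        exact pow_dvd_pow_of_dvd (hc.trans (pow_dvd_pow_of_dvd (dvd_mul_right _ _) 3)) _
      have e : mu * star mu - a0 = (mu * star mu - (1 + 2 * x) * star (1 + 2 * x)) +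
          4 * (x + x ^ 2 - n1 * b0) := by
        simp only [star_add, star_mul, star_one, star_ofNat, hx]
        rw [e0]; ring
      rw [e]
      exact dvd_add q1 (q2.mul_left _)
    · rw [mul_pow]
      refine (hl.pow (m := k + 1) (n := k + 1)).mul_dvd ?_ ?_
      · rw [show mu * star mu - a0 = mu * (star mu - 1) + (mu - a0) by ring]
        exact dvd_add (p4.mul_left _) p1
      · rw [show mu * star mu - a0 = (mu - 1) * star mu + (star mu - a0) by ring]
        exact dvd_add (p2.mul_right _) p3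
  · refine hln'.symm.mul_dvd ?_ ((dvd_pow_self _ k.succ_ne_zero).trans p2)
    have q1 : n1 ∣ mu - (1 + 2 * x) :=
      ((dvd_mul_left n1 4).trans (dvd_pow_self _ k.succ_ne_zero)).trans m1
    rw [show mu - 1 = mu - (1 + 2 * x) + 2 * x by ring]
    exact dvd_add q1 (((dvd_mul_right _ _).trans x1).mul_left _)

/-- A norm in a prescribed progression, with congruences on the element. -/
theorem nc' [IsDomain O] {z : O} (H : RH z) {a0 a1 n1 l : O} (ha0 : star a0 = a0)
    (ha1 : star a1 = a1) (hn : star n1 = n1) (a10 : a1 ≠ 0) (cop : IsCoprime a0 a1) (n0 : n1 ≠ 0)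
    (hd : 2 * ((1 - z) * star (1 - z) * ((1 + z) * star (1 + z))) ∣ n1)
    (ha : 4 * n1 ∣ a0 + a1 * z - 1) (hl : IsCoprime l (star l)) (hln : IsCoprime l n1)
    (c1 : IsCoprime (a0 + a1 * z) l) (c2 : IsCoprime (a0 + a1 * z) (star l)) :
    ∃ mu r, star r = r ∧ mu * star mu = a0 + r * a1 ∧ 4 * n1 * (l * star l) ∣ r ∧
      a0 + a1 * z ∣ mu - 1 ∧ n1 * star l ∣ mu - 1 := by
  have h2 : 2 ∣ n1 := dvd_of_mul_right_dvd hd
  have two0 : (2 : O) ≠ 0 := by
    rintro h
    rw [h, zero_dvd_iff] at h2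
    exact n0 h2
  have l0 : l ≠ 0 := by
    rintro rfl
    rw [star_zero] at hl
    exact not_isCoprime_zero_zero hl
  obtain ⟨y, hy⟩ : ∃ y, y = 4 * n1 * (l * star l) := ⟨_, rfl⟩
  have yr : star y = y := by simp [hy, hn, mul_comm]
  have y0 : y ≠ 0 := by
    rw [hy, show (4 : O) = 2 * 2 by norm_num]
    exact mul_ne_zero (mul_ne_zero (mul_ne_zero two0 two0) n0) (mul_ne_zero l0 (by simpa using l0))
  have m0 : a1 * y ≠ 0 := mul_ne_zero a10 y0
  have mr : star (a1 * y) = a1 * y := by rw [star_mul, yr, ha1, mul_comm]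
  obtain ⟨b0, hb, e0⟩ : ∃ b0, star b0 = b0 ∧ a0 = 1 + 4 * (n1 * b0) := by
    obtain ⟨c, hc⟩ := ha
    obtain ⟨b0, b1, h0, h1, rfl⟩ := H.dec c
    have := H.real_unique (a := a0 - 1 - 4 * n1 * b0) (b := a1 - 4 * n1 * b1)
      (by simp [ha0, hn, h0, mul_comm, mul_left_comm])
      (by simp [ha1, hn, h1, mul_comm, mul_left_comm]) (by linear_combination hc)
    exact ⟨b0, h0, by linear_combination this.1⟩
  obtain ⟨k, s, hk⟩ := exists_pow_dvd (H.fin _ m0) y
  obtain ⟨g, hg⟩ : ∃ g, g = (1 - y * s) * (1 - y * star s) := ⟨_, rfl⟩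
  have gr : star g = g := by simp [hg, yr, mul_comm]
  have gy : y ∣ g - 1 := ⟨-s - star s + y * s * star s, by rw [hg]; ring⟩
  have mg : a1 * y ∣ y ^ (k + 1) * g := by
    rw [hg, show y ^ (k + 1) * ((1 - y * s) * (1 - y * star s)) =
      y ^ k * (1 - y * s) * (y * (1 - y * star s)) by ring]
    exact hk.mul_right _
  let I : Ideal O := span {a1 * y, g}
  have mI : a1 * y ∈ I := subset_span (by simp)
  have gI : g ∈ I := subset_span (by simp)
  have : Finite (O ⧸ I) := by
    have := H.fin _ m0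
    exact Finite.of_surjective _ (Ideal.Quotient.factor_surjective
      (show span {a1 * y} ≤ I from (span_singleton_le_iff_mem I).2 mI))
  have un : ∀ {u v : O}, u * v - 1 ∈ I → IsUnit (Ideal.Quotient.mk I u) := by
    intro u v h
    refine IsUnit.of_mul_eq_one (Ideal.Quotient.mk I v) ?_
    rw [← map_mul, ← map_one (Ideal.Quotient.mk I), Ideal.Quotient.eq]
    exact h
  obtain ⟨t, ht⟩ := gy
  have uy : ∀ {u : O}, u ∣ y → IsUnit (Ideal.Quotient.mk I u) := by
    rintro u ⟨v, hv⟩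
    refine un (v := -(v * t)) ?_
    convert I.neg_mem gI using 1
    linear_combination ht + t * hv
  have n1y : n1 ∣ y := hy ▸ (dvd_mul_left n1 4).mul_right _
  have eD : (1 - z) * star (1 - z) * ((1 + z) * star (1 + z)) = -(z - star z) ^ 2 := by
    simp only [star_add, star_sub, star_one]
    linear_combination (z * star z - 1) * H.hz
  obtain ⟨X, Y, hX, hY, hXY⟩ := exists_real_form I (D := (z - star z) ^ 2) (u := a0)
    (by rw [star_pow, star_sub, star_star]; ring) ha0 (uy (h2.trans n1y))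
    (uy (((neg_dvd.1 (eD ▸ dvd_of_mul_left_dvd hd))).trans n1y)) (by
      obtain ⟨p, q, hpq⟩ := cop
      refine un (v := p) ?_
      convert I.sub_mem (I.mul_mem_left (q * t) mI) (I.mul_mem_left (q * a1) gI) using 1
      linear_combination hpq + q * a1 * ht)
  obtain ⟨mb, b1, b2⟩ := norm_bad ha0 hn hb h2 e0 hl hln k
  rw [← hy] at b1
  have cg : IsCoprime g (y ^ (k + 1)) := (cop_of_dvd_sub_one ⟨t, ht⟩).pow_right
  obtain ⟨w, w1, w2⟩ := crt cg (X + Y * (z - star z)) mb
  have ca : IsCoprime (a0 + a1 * z) (a1 * y) := by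
    refine IsCoprime.mul_right ?_ ?_
    · exact cop.add_mul_left_left z
    · rw [hy]
      exact (cop_of_dvd_sub_one ha).mul_right (c1.mul_right c2)
  obtain ⟨mu, u1, u2⟩ := crt ca 1 w
  have eN : (X + Y * (z - star z)) * star (X + Y * (z - star z)) =
      X ^ 2 - (z - star z) ^ 2 * Y ^ 2 := by
    simp only [star_add, star_mul, star_sub, star_star, hX, hY]; ring
  have k1 : w * star w - a0 ∈ I := by
    have := norm_congr gr w1
    rw [eN] at this
    obtain ⟨c, hc⟩ := this
    convert I.add_mem hXY (I.mul_mem_right c gI) using 1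
    linear_combination hc
  have k2 : y ^ (k + 1) ∣ w * star w - a0 := by
    have := dvd_add (norm_congr (by rw [star_pow, yr]) w2) b1
    rwa [sub_add_sub_cancel] at this
  have k3 : a1 * y ∣ w * star w - a0 := by
    obtain ⟨p, q, hpq⟩ := cg
    obtain ⟨c, d, hcd⟩ := mem_span_pair.1 k1
    obtain ⟨e, he⟩ := k2
    have : w * star w - a0 = y ^ (k + 1) * g * (p * e + q * d) + a1 * y * (q * y ^ (k + 1) * c) := by
      linear_combination (-(w * star w - a0)) * hpq + p * g * he - q * y ^ (k + 1) * hcd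
    rw [this]
    exact dvd_add (mg.mul_right _) (dvd_mul_right _ _)
  have k4 : a1 * y ∣ mu * star mu - a0 := by
    have := dvd_add (norm_congr mr u2) k3
    rwa [sub_add_sub_cancel] at this
  obtain ⟨r, hr, er⟩ := H.real_dvd mr (by simp [ha0, mul_comm]) k4
  refine ⟨mu, y * r, by rw [star_mul, hr, yr, mul_comm], by linear_combination er,
    hy ▸ dvd_mul_right _ _, u1, ?_⟩
  have d1 : n1 * star l ∣ y := ⟨4 * l, by rw [hy]; ring⟩
  rw [show mu - 1 = (mu - w) + (w - mb) + (mb - 1) by ring]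
  exact dvd_add (dvd_add (d1.trans ((dvd_mul_left _ _).trans u2))
    (d1.trans ((dvd_pow_self _ k.succ_ne_zero).trans w2))) b2

/-- The same with the hypotheses stated on `a = a0 + a1 z`. -/
theorem nc [IsDomain O] {z : O} (H : RH z) {a a0 a1 n1 l : O} (ha0 : star a0 = a0)
    (ha1 : star a1 = a1) (ea : a = a0 + a1 * z) (a10 : a1 ≠ 0) (cop : IsCoprime a (star a))
    (hn : star n1 = n1) (n0 : n1 ≠ 0)
    (hd : 2 * ((1 - z) * star (1 - z)) * ((1 + z) * star (1 + z)) ∣ n1) (ha : 4 * n1 ∣ a - 1)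
    (hl : IsCoprime l (star l)) (hln : IsCoprime l n1) (c1 : IsCoprime a (l * star l)) :
    ∃ mu r, star r = r ∧ mu * star mu = a0 + r * a1 ∧ 4 * n1 * (l * star l) ∣ r ∧
      a ∣ mu - 1 ∧ n1 * star l ∣ mu - 1 := by
  subst ea
  refine nc' H ha0 ha1 hn a10 ?_ n0 (by rwa [← mul_assoc]) ha hl hln c1.of_mul_right_left
    c1.of_mul_right_right
  obtain ⟨u, v, huv⟩ := cop
  rw [star_add, star_mul, ha0, ha1] at huv
  exact ⟨u + v, u * z + v * star z, by linear_combination huv⟩

end Pool.Agent.Lib.MP_61a4e3_al
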