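import Pool.Agent.Lib.MP_61a4e3_al.Core

/-! Orthogonal bases up to finite index. -/

set_option linter.unusedSectionVars false
set_option linter.unusedVariables false
set_option linter.unusedSimpArgs false

namespace Pool.Agent.Lib.MP_61a4e3_al

open Matrix WG Form

variable {O : Type} [CommRing O] [StarRing O] [IsDomain O] {ι : Type} [Fintype ι] [DecidableEq ι]
  {F : Form O ι}

lemma ob_sum_right {I : Type} (S : Finset I) (x : ι → O) (f : I → ι → O) :
    F.B x (∑ i ∈ S, f i) = ∑ i ∈ S, F.B x (f i) := by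
  classical
  induction S using Finset.induction_on with
  | empty => simp
  | insert a S ha ih => rw [Finset.sum_insert ha, Finset.sum_insert ha, B_add_right, ih]

lemma ob_sum_left {I : Type} (S : Finset I) (x : ι → O) (f : I → ι → O) :
    F.B (∑ i ∈ S, f i) x = ∑ i ∈ S, F.B (f i) x := by
  classical
  induction S using Finset.induction_on with
  | empty => simp
  | insert a S ha ih => rw [Finset.sum_insert ha, Finset.sum_insert ha, B_add_left, ih]

lemma ob_Q (H : RH F.z) (y : ι → O) : ∃ q, star q = q ∧ F.B y y = (1 + F.z) * q := by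
  obtain ⟨a, b, ha, hb, e⟩ := H.dec (F.qf y)
  refine ⟨a + b * (F.z + star F.z - 1), ?_, ?_⟩
  · simp only [star_add, star_mul, star_sub, star_star, star_one, ha, hb]; ring
  · rw [F.B_self, e]
    simp only [star_add, star_mul, ha, hb]
    linear_combination (-b) * F.hz

lemma ob_iso (H : RH F.z) {L : Submodule O (ι → O)} (h : ∀ y ∈ L, F.B y y = 0) {x y : ι → O}
    (hx : x ∈ L) (hy : y ∈ L) : F.B x y = 0 := by
  have h1 := h _ (L.add_mem hx hy)
  have h2 := h _ (L.add_mem hx (L.smul_mem F.z hy))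
  simp only [B_add_left, B_add_right, B_smul_left, B_smul_right, h x hx, h y hy,
    F.B_swap x y] at h1 h2
  have h3 : (1 - F.z) * ((1 + F.z) * F.B x y) = 0 := by
    linear_combination h1 - F.z * h2 + F.z * star (F.B x y) * F.hz
  exact (mul_eq_zero.1 ((mul_eq_zero.1 h3).resolve_left H.one_sub)).resolve_left H.one_add

/-- Orthogonal families of anisotropic vectors. -/
def ObFam (F : Form O ι) (L : Submodule O (ι → O)) (n : ℕ) (e : Fin n → ι → O) : Prop :=
  (∀ i, e i ∈ L) ∧ (∀ i, F.B (e i) (e i) ≠ 0) ∧ ∀ i j, i ≠ j → F.B (e i) (e j) = 0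

lemma ObFam.coord {L : Submodule O (ι → O)} {n : ℕ} {e : Fin n → ι → O} (h : ObFam F L n e)
    (g : Fin n → O) (j : Fin n) : F.B (e j) (∑ i, g i • e i) = g j * F.B (e j) (e j) := by
  rw [ob_sum_right, Finset.sum_eq_single j]
  · simp
  · intro i _ hi
    simp [h.2.2 j i hi.symm]
  · simp

lemma ObFam.le {L : Submodule O (ι → O)} {n : ℕ} {e : Fin n → ι → O} (h : ObFam F L n e) :
    n ≤ Module.finrank O (ι → O) := by
  have : LinearIndependent O e := by
    rw [Fintype.linearIndependent_iff]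
    intro g hg j
    have := h.coord g j
    rw [hg, B_zero_right] at this
    exact (mul_eq_zero.1 this.symm).resolve_right (h.2.1 j)
  simpa using this.fintype_card_le_finrank

lemma ob_max (L : Submodule O (ι → O)) : ∃ n e, ObFam F L n e ∧
    ∀ y ∈ L, (∀ i, F.B (e i) y = 0) → F.B y y = 0 := by
  classical
  let P : ℕ → Prop := fun n => ∃ e, ObFam F L n e
  have h0 : P 0 := ⟨fun i => i.elim0, fun i => i.elim0, fun i => i.elim0, fun i => i.elim0⟩
  obtain ⟨e, he⟩ := Nat.findGreatest_spec (Nat.zero_le (Module.finrank O (ι → O))) h0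
  refine ⟨_, e, he, fun y hy ho => ?_⟩
  by_contra hne
  have h1 : ObFam F L _ (Fin.cons y e) := by
    refine ⟨fun i => Fin.cases hy (fun i => he.1 i) i, fun i => Fin.cases hne (fun i => he.2.1 i) i,
      fun i j => ?_⟩
    refine Fin.cases (Fin.cases (fun h => (h rfl).elim) (fun j _ => ?_) j)
      (fun i => Fin.cases (fun _ => ?_) (fun j h => ?_) j) i
    · exact F.B_eq_zero_swap (ho j)
    · exact ho i
    · exact he.2.2 i j fun h' => h (by rw [h'])
  exact Nat.findGreatest_is_greatest (Nat.lt_succ_self _) h1.le ⟨_, h1⟩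

theorem ob (H : RH F.z) {L : Submodule O (ι → O)}
    (nd : ∀ y ∈ L, (∀ x ∈ L, F.B x y = 0) → y = 0) :
    ∃ (n : ℕ) (e : Fin n → ι → O) (q gam : Fin n → O) (D : O), star D = D ∧ D ≠ 0 ∧
      ObFam F L n e ∧ (∀ i, star (q i) = q i) ∧ (∀ i, F.B (e i) (e i) = (1 + F.z) * q i) ∧
      (∀ i, gam i * ((1 + F.z) * q i) = D) ∧
      ∀ y ∈ L, D • y = ∑ i, (gam i * F.B (e i) y) • e i := by
  obtain ⟨n, e, he, hm⟩ := ob_max (F := F) L
  choose q hq1 hq2 using fun i => ob_Q H (e i)
  obtain ⟨D, hD⟩ : ∃ D, D = ∏ i, (F.B (e i) (e i) * star (F.B (e i) (e i))) := ⟨_, rfl⟩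
  have hg : ∀ i, ∃ g, g * ((1 + F.z) * q i) = D := fun i => by
    obtain ⟨g, hg⟩ : F.B (e i) (e i) ∣ D := by
      rw [hD]
      exact (dvd_mul_right _ _).trans (Finset.dvd_prod_of_mem _ (Finset.mem_univ i))
    exact ⟨g, by rw [← hq2, hg, mul_comm]⟩
  choose gam hgam using hg
  have D0 : D ≠ 0 := by
    rw [hD]
    exact Finset.prod_ne_zero_iff.2 fun i _ => mul_ne_zero (he.2.1 i) (star_ne_zero.2 (he.2.1 i))
  have sD : star D = D := by
    rw [hD, star_prod]
    exact Finset.prod_congr rfl fun i _ => by rw [star_mul, star_star]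
  let L' : Submodule O (ι → O) :=
    { carrier := {y | y ∈ L ∧ ∀ i, F.B (e i) y = 0}
      add_mem' := fun ha hb => ⟨L.add_mem ha.1 hb.1, fun i => by simp [ha.2 i, hb.2 i]⟩
      zero_mem' := ⟨L.zero_mem, fun i => by simp⟩
      smul_mem' := fun c x hx => ⟨L.smul_mem c hx.1, fun i => by simp [hx.2 i]⟩ }
  have pr : ∀ y ∈ L, D • y - ∑ i, (gam i * F.B (e i) y) • e i ∈ L' := fun y hy =>
    ⟨L.sub_mem (L.smul_mem _ hy) (L.sum_mem fun i _ => L.smul_mem _ (he.1 i)), fun j => by
      rw [B_sub_right, B_smul_right, he.coord, hq2]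
      linear_combination (-F.B (e j) y) * hgam j⟩
  refine ⟨n, e, q, gam, D, sD, D0, he, hq1, hq2, hgam, fun y hy => ?_⟩
  refine sub_eq_zero.1 (nd _ (pr y hy).1 fun x hx => ?_)
  have h1 := ob_iso H (L := L') (fun y hy => hm y hy.1 hy.2) (pr x hx) (pr y hy)
  have h2 := (pr y hy).2
  generalize D • y - ∑ i, (gam i * F.B (e i) y) • e i = w at h1 h2 ⊢
  rw [B_sub_left, B_smul_left, ob_sum_left, Finset.sum_eq_zero, sub_zero, sD] at h1
  · exact (mul_eq_zero.1 h1).resolve_left D0
  · intro i _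
    rw [B_smul_left, h2 i, mul_zero]

lemma ob_norm (H : RH F.z) {L : Submodule O (ι → O)} {n : ℕ} {e : Fin n → ι → O}
    (he : ObFam F L n e) {q c : Fin n → O} (hq : ∀ i, F.B (e i) (e i) = (1 + F.z) * q i)
    {D r : O} (sD : star D = D) {y : ι → O} (hy : D • y = ∑ i, c i • e i)
    (hr : F.B y y = (1 + F.z) * r) : D * D * r = ∑ i, c i * star (c i) * q i := by
  apply mul_left_cancel₀ H.one_add
  have h1 : F.B (D • y) (D • y) = ∑ i, star (c i) * (c i * ((1 + F.z) * q i)) := by
    rw [hy, ob_sum_left]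
    exact Finset.sum_congr rfl fun i _ => by rw [B_smul_left, he.coord, hq]
  rw [B_smul_left, B_smul_right, sD, hr] at h1
  rw [Finset.mul_sum]
  refine Eq.trans (by ring) (h1.trans (Finset.sum_congr rfl fun i _ => by ring))

lemma ob_real {φ : O →+* ℂ} (hs : ∀ x, φ (star x) = star (φ x)) {r : O} (hr : star r = r) :
    (φ r).im = 0 := by
  have := hs r
  rw [hr] at this
  exact Complex.conj_eq_iff_im.1 this.symm

lemma ob_sign {φ : O →+* ℂ} (hi : Function.Injective φ) (hs : ∀ x, φ (star x) = star (φ x))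
    {n : ℕ} {q c : Fin n → O} {D r : O} (sD : star D = D) (D0 : D ≠ 0)
    (h : D * D * r = ∑ i, c i * star (c i) * q i) (hr : 0 < (φ r).re) :
    ∃ i, 0 < (φ (q i)).re := by
  by_contra hn
  push Not at hn
  have h1 := congrArg (fun x => (φ x).re) h
  have h2 : (φ D).re ≠ 0 := fun h0 => D0 (hi (by
    rw [map_zero]; exact Complex.ext h0 (ob_real hs sD)))
  have h3 : (φ (D * D * r)).re = (φ D).re * (φ D).re * (φ r).re := by
    simp [ob_real hs sD]
  have h4 : (φ (∑ i, c i * star (c i) * q i)).re ≤ 0 := by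
    rw [map_sum, Complex.re_sum]
    refine Finset.sum_nonpos fun i _ => ?_
    rw [map_mul, map_mul, hs, Complex.star_def, Complex.mul_conj, Complex.re_ofReal_mul]
    exact mul_nonpos_of_nonneg_of_nonpos (Complex.normSq_nonneg _) (hn i)
  have h5 := mul_pos (mul_self_pos.2 h2) hr
  simp only [h3] at h1
  linarith

end Pool.Agent.Lib.MP_61a4e3_al
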