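import Pool.Agent.Lib.MP_61a4e3_al.Chain

/-! Unipotent moves bring a vector into general position. -/

set_option linter.unusedSectionVars false
set_option linter.unusedVariables false
set_option linter.unusedSimpArgs false

namespace Pool.Agent.Lib.MP_61a4e3_al

open Matrix WG Form

variable {O : Type*} [CommRing O] [StarRing O] [IsDomain O] {ι : Type*} [Fintype ι]
  [DecidableEq ι] {F : Form O ι}

lemma s0_one_not_mem {P : Ideal O} (hP : P.IsPrime) (h : (1 : O) ∈ P) : False :=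
  hP.ne_top ((Ideal.eq_top_iff_one _).2 h)

lemma s0_cong_not_mem {P : Ideal O} (hP : P.IsPrime) {m a : O} (h : m ∣ a - 1) (ha : a ∈ P)
    (hm : m ∈ P) : False := by
  obtain ⟨c, hc⟩ := h
  have := P.sub_mem ha (hc ▸ P.mul_mem_right c hm : a - 1 ∈ P)
  rw [sub_sub_cancel] at this
  exact s0_one_not_mem hP this

/-- A linear and a quadratic polynomial have a common non root among `0, 1, 2, 3`. -/
lemma s0_avoid [CharZero O] {p0 p1 q0 q1 q2 : O} (h1 : p1 ≠ 0) (h2 : q2 ≠ 0) :
    ∃ t : ℕ, p0 + t * p1 ≠ 0 ∧ q0 + t * q1 + t ^ 2 * q2 ≠ 0 := by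
  by_contra! h
  have lin : ∀ s t : ℕ, p0 + s * p1 = 0 → p0 + t * p1 = 0 → s = t := fun s t hs ht => by
    have : ((s : O) - t) * p1 = 0 := by linear_combination hs - ht
    exact_mod_cast sub_eq_zero.1 ((mul_eq_zero.1 this).resolve_right h1)
  have quad : ∀ s t u : ℕ, s ≠ t → s ≠ u → t ≠ u → q0 + s * q1 + s ^ 2 * q2 = 0 →
      q0 + t * q1 + t ^ 2 * q2 = 0 → q0 + u * q1 + u ^ 2 * q2 = 0 → False := by
    intro s t u a b c hs ht hu
    have : ((s : O) - t) * (((s : O) - u) * (((t : O) - u) * q2)) = 0 := by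
      linear_combination ((t : O) - u) * hs - ((s : O) - u) * ht + ((s : O) - t) * hu
    refine mul_ne_zero ?_ (mul_ne_zero ?_ (mul_ne_zero ?_ h2)) this <;>
      exact sub_ne_zero.2 (by exact_mod_cast ‹_›)
  by_cases e0 : p0 + (0 : ℕ) * p1 = 0
  · exact quad 1 2 3 (by decide) (by decide) (by decide)
      (h 1 fun e => absurd (lin _ _ e0 e) (by decide))
      (h 2 fun e => absurd (lin _ _ e0 e) (by decide))
      (h 3 fun e => absurd (lin _ _ e0 e) (by decide))
  by_cases e1 : p0 + (1 : ℕ) * p1 = 0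
  · exact quad 0 2 3 (by decide) (by decide) (by decide) (h 0 e0)
      (h 2 fun e => absurd (lin _ _ e1 e) (by decide))
      (h 3 fun e => absurd (lin _ _ e1 e) (by decide))
  by_cases e2 : p0 + (2 : ℕ) * p1 = 0
  · exact quad 0 1 3 (by decide) (by decide) (by decide) (h 0 e0) (h 1 e1)
      (h 3 fun e => absurd (lin _ _ e2 e) (by decide))
  · exact quad 0 1 2 (by decide) (by decide) (by decide) (h 0 e0) (h 1 e1) (h 2 e2)

/-- A relation on triples `(a, b, x)` closed under the two kinds of unipotent moves. -/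
structure S0Mv (F : Form O ι) (L : Submodule O (ι → O)) (l : O)
    (R : O → O → (ι → O) → O → O → (ι → O) → Prop) : Prop where
  refl : ∀ a b x, R a b x a b x
  trans : ∀ {a b x a' b' x' a'' b'' x''}, R a b x a' b' x' → R a' b' x' a'' b'' x'' →
    R a b x a'' b'' x''
  mv' : ∀ a b x, ∀ y ∈ L, ∀ c, F.z * c + star c = F.B ((1 - F.z) • y) ((1 - F.z) • y) →
    R a b x a (b + star F.z * F.B ((1 - F.z) • y) x - c * (F.z * a))
      (x - (F.z * a) • (1 - F.z) • y)
  mv : ∀ a b x, ∀ y ∈ L, ∀ c, F.z * c + star c = F.B ((1 - F.z) • y) ((1 - F.z) • y) →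
    R a b x (a + star F.z * F.B (star l • (1 - F.z) • y) x - l * star l * c * b) b
      (x - b • star l • (1 - F.z) • y)

namespace S0Mv

variable {L : Submodule O (ι → O)} {l : O} {R : O → O → (ι → O) → O → O → (ι → O) → Prop}
  (H : RH F.z) (M : S0Mv F L l R)
include H M

lemma qf_ok (y : ι → O) : F.z * F.qf y + star (F.qf y) = F.B y y := (F.B_self y).symm

/-- Step one: `b ≠ 0`. -/
lemma step1 {a b : O} {x : ι → O}
    (wit : ∃ α β, ∃ y ∈ L, α * (star l * b) + β * a + F.B y x = 1) :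
    ∃ b' x', R a b x a b' x' ∧ (∃ u ∈ L, x' = x + (1 - F.z) • u) ∧ b' ≠ 0 ∧
      ∃ α β, ∃ y ∈ L, α * (star l * b') + β * a + F.B y x' = 1 := by
  have hz := F.hz
  have z0 : F.z ≠ 0 := H.unit_z.ne_zero
  by_cases hb : b = 0
  swap
  · exact ⟨b, x, M.refl _ _ _, ⟨0, L.zero_mem, by simp⟩, hb, wit⟩
  subst hb
  obtain ⟨α, β, y, hy, e⟩ := wit
  by_cases ha : a = 0
  · subst ha
    have e1 : F.B y x = 1 := by simpa using e
    refine ⟨_, _, M.mv' 0 0 x y hy _ (M.qf_ok H _), ⟨0, L.zero_mem, by simp⟩, ?_,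
      0, 0, y, hy, by simp [e1]⟩
    simp only [B_smul_left, e1, mul_zero, sub_zero, zero_add, mul_one]
    exact mul_ne_zero (by simpa using z0) H.star_pi_ne
  · refine ⟨_, _, M.mv' a 0 x 0 L.zero_mem (star (1 - F.z) * 1)
      (by simpa using H.lam_valid (star_one O)), ⟨0, L.zero_mem, by simp⟩, ?_,
      0, β, y, hy, by simpa using e⟩
    simp only [smul_zero, B_zero_left, mul_zero, add_zero, zero_sub, mul_one, neg_ne_zero]
    exact mul_ne_zero H.star_pi_ne (mul_ne_zero z0 ha)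

/-- Step two: `a` prime to `conj l * b`. -/
lemma step2 {a b : O} {x : ι → O} (hl : l ≠ 0) (hb : b ≠ 0) (ha : (1 - F.z) ^ 2 * l ∣ a - 1)
    (wit : ∃ α β, ∃ y ∈ L, α * (star l * b) + β * a + F.B y x = 1) :
    ∃ a' x', R a b x a' b x' ∧ (∃ u ∈ L, x' = x + (1 - F.z) • u) ∧
      (1 - F.z) ^ 2 * l ∣ a' - 1 ∧ IsCoprime a' (star l * b) := by
  have hz := F.hz
  obtain ⟨α, β, y, hy, e⟩ := wit
  have hm : star l * b ≠ 0 := mul_ne_zero (by simpa using hl) hb
  have hp := H.star_pi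
  obtain ⟨r, hr⟩ := exists_add_coprime (H.fin _ hm) (a := a)
    (b := star F.z ^ 3 * ((1 - F.z) ^ 2 * l) * F.B y x) (fun P hP h1 h2 h3 => by
      rcases hP.mem_or_mem h3 with h4 | h4
      · rcases hP.mem_or_mem h4 with h5 | h5
        · exact s0_one_not_mem hP (hz ▸ P.mul_mem_left _ (hP.mem_of_pow_mem _ h5))
        · exact s0_cong_not_mem hP ha h2 h5
      · exact s0_one_not_mem hP (e ▸ P.add_mem (P.add_mem (P.mul_mem_left _ h1)
          (P.mul_mem_left _ h2)) h4))
  have hy' : ((1 - F.z) * star r) • y ∈ L := L.smul_mem _ hy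
  refine ⟨_, _, M.mv a b x _ hy' _ (M.qf_ok H _),
    ⟨-(b * star l) • ((1 - F.z) * star r) • y, L.smul_mem _ hy', by module⟩, ?_, ?_⟩
  · obtain ⟨k, hk⟩ := ha
    refine ⟨k + star F.z ^ 3 * r * F.B y x -
      star l * b * star F.z ^ 2 * (1 - F.z) ^ 2 * r * star r * F.qf y, ?_⟩
    simp only [B_smul_left, qf_smul, star_mul, star_star, hp]
    linear_combination hk
  · have : a + star F.z * F.B (star l • (1 - F.z) • ((1 - F.z) * star r) • y) x -
        l * star l * F.qf ((1 - F.z) • ((1 - F.z) * star r) • y) * b =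
        a + r * (star F.z ^ 3 * ((1 - F.z) ^ 2 * l) * F.B y x) +
        (star l * b) * (-l * F.qf ((1 - F.z) • ((1 - F.z) * star r) • y)) := by
      simp only [B_smul_left, star_mul, star_star, hp]; ring
    rw [this]
    exact hr.add_mul_left_left _

/-- Step three: two non vanishing conditions. -/
lemma step3 [CharZero O] {a b : O} {x rho : ι → O} (hl : l ≠ 0) (hb : b ≠ 0) (hr : rho ∈ L)
    (hrr : F.B rho rho = 1 + F.z) (ha : (1 - F.z) ^ 2 * l ∣ a - 1)
    (hc : IsCoprime a (star l * b)) :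
    ∃ a' x', R a b x a' b x' ∧ (∃ u ∈ L, x' = x + (1 - F.z) • u) ∧
      (1 - F.z) ^ 2 * l ∣ a' - 1 ∧ IsCoprime a' (star l * b) ∧ F.B rho x' ≠ 0 ∧
      star a' * b + F.z * (a' * star b) ≠ 0 := by
  have hz := F.hz
  have hp := H.star_pi
  have hl' : star l ≠ 0 := by simpa using hl
  have hb' : star b ≠ 0 := by simpa using hb
  obtain ⟨k, hk⟩ : ∃ k, k = (1 - F.z) * ((1 - F.z) * star b * l) := ⟨_, rfl⟩
  have k0 : k ≠ 0 := hk ▸ mul_ne_zero H.one_sub (mul_ne_zero (mul_ne_zero H.one_sub hb') hl)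
  have k0' : star k ≠ 0 := by simpa using k0
  obtain ⟨t, h1, h2⟩ := s0_avoid (p0 := F.B rho x) (p1 := -(b * star l * k * (1 + F.z)))
    (q0 := star a * b + F.z * (a * star b))
    (q1 := star (star F.z * (l * star k * F.B rho x)) * b +
      F.z * (star F.z * (l * star k * F.B rho x) * star b))
    (q2 := -(l * star l * (k * star k) * (b * star b) * (1 + F.z)))
    (neg_ne_zero.2 (mul_ne_zero (mul_ne_zero (mul_ne_zero hb hl') k0) H.one_add))
    (neg_ne_zero.2 (mul_ne_zero (mul_ne_zero (mul_ne_zero (mul_ne_zero hl hl')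
      (mul_ne_zero k0 k0')) (mul_ne_zero hb hb')) H.one_add))
  have hy' : ((t : O) * ((1 - F.z) * star b * l)) • rho ∈ L := L.smul_mem _ hr
  have ey : (1 - F.z) • ((t : O) * ((1 - F.z) * star b * l)) • rho = ((t : O) * k) • rho := by
    rw [hk]; module
  have m := M.mv a b x _ hy' ((t : O) ^ 2 * (k * star k)) (by
    rw [ey]
    simp only [B_smul_left, B_smul_right, hrr, star_mul, star_star, star_pow, star_natCast]
    ring)
  rw [ey] at m
  have sk : star k = star F.z ^ 2 * (1 - F.z) ^ 2 * (star l * b) := by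
    rw [hk]; simp only [star_mul, star_star, hp]; ring
  refine ⟨_, _, m, ⟨-(b * star l) • ((t : O) * ((1 - F.z) * star b * l)) • rho,
    L.smul_mem _ hy', by rw [hk]; module⟩, ?_, ?_, ?_, ?_⟩
  · obtain ⟨j, hj⟩ := ha
    refine ⟨j + star F.z ^ 3 * t * (star l * b) * F.B rho x -
      star l * t ^ 2 * k * star F.z ^ 2 * (star l * b) * b, ?_⟩
    simp only [B_smul_left, star_mul, star_star, star_natCast, sk]
    linear_combination hj
  · have : a + star F.z * F.B (star l • ((t : O) * k) • rho) x -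
        l * star l * ((t : O) ^ 2 * (k * star k)) * b = a + (star l * b) *
        (star F.z ^ 3 * (1 - F.z) ^ 2 * t * l * F.B rho x - l * (t ^ 2 * (k * star k))) := by
      simp only [B_smul_left, star_mul, star_star, star_natCast]
      generalize k * star k = n
      rw [sk]; ring
    rw [this]
    exact hc.add_mul_left_left _
  · convert h1 using 1
    simp only [B_sub_right, B_smul_right, hrr]; ring
  · convert h2 using 1
    simp only [B_smul_left, star_mul, star_star, star_natCast, star_add, star_sub, star_pow]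
    ring

/-- Step four: one central move. -/
lemma step4 {a b D : O} {x : ι → O} (hD : D ≠ 0) (ha : (1 - F.z) ^ 2 * l ∣ a - 1)
    (hc : IsCoprime a (star l * b)) (ht : star a * b + F.z * (a * star b) ≠ 0) :
    ∃ a', R a b x a' b x ∧ (1 - F.z) ^ 2 * l ∣ a' - 1 ∧ IsCoprime a' (star l * b) ∧
      IsCoprime a' D ∧ IsCoprime a' (star a') := by
  have hz := F.hz
  have hp := H.star_pi
  obtain ⟨w, hw⟩ : ∃ w, w = (1 - F.z) * star (1 - F.z) := ⟨_, rfl⟩
  have wr : star w = w := by rw [hw, star_mul, star_star]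
  obtain ⟨r, hr, h⟩ := H.exists_real_avoid (mul_ne_zero hD ht) a
    (-(l * star l * (star (1 - F.z) * w) * b))
  have m := M.mv a b x 0 L.zero_mem (star (1 - F.z) * (w * r))
    (by simpa using H.lam_valid (r := w * r) (by rw [star_mul, wr, hr, mul_comm]))
  simp only [smul_zero, B_zero_left, mul_zero, add_zero, sub_zero] at m
  have e : a - l * star l * (star (1 - F.z) * (w * r)) * b =
      a + -(l * star l * (star (1 - F.z) * w) * b) * r := by ring
  rw [e] at m
  have e2 : -(l * star l * (star (1 - F.z) * w) * b) =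
      ((1 - F.z) ^ 2 * l) * (star l * b) * (-(star F.z ^ 2 * (1 - F.z))) := by
    rw [hw, hp]; ring
  have key : ∀ P : Ideal O, P.IsPrime → D * (star a * b + F.z * (a * star b)) ∈ P →
      a + -(l * star l * (star (1 - F.z) * w) * b) * r ∉ P := by
    intro P hP h1 h2
    refine h P hP h1 (fun h3 => ?_) h2
    have h4 : a ∈ P := by simpa using P.sub_mem h2 (P.mul_mem_right r h3)
    rw [e2] at h3
    rcases hP.mem_or_mem h3 with h5 | h5
    · rcases hP.mem_or_mem h5 with h6 | h6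
      · exact s0_cong_not_mem hP ha h4 h6
      · exact IsCoprime.not_mem hc hP h4 h6
    · rcases hP.mem_or_mem (P.neg_mem_iff.1 h5) with h6 | h6
      · exact s0_one_not_mem hP (hz ▸ P.mul_mem_left _ (hP.mem_of_pow_mem _ h6))
      · exact s0_cong_not_mem hP ha h4 (P.mul_mem_right _ (P.pow_mem_of_mem h6 2 two_pos))
  refine ⟨_, m, ?_, ?_, isCoprime_of_forall_prime fun P hP h1 h2 =>
    key P hP (P.mul_mem_right _ h2) h1, isCoprime_of_forall_prime fun P hP h1 h2 =>
    key P hP (P.mul_mem_left _ ?_) h1⟩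
  · obtain ⟨j, hj⟩ := ha
    exact ⟨j + (star l * b) * (-(star F.z ^ 2 * (1 - F.z))) * r, by
      rw [e2]; linear_combination hj⟩
  · rw [e2, show a + (1 - F.z) ^ 2 * l * (star l * b) * -(star F.z ^ 2 * (1 - F.z)) * r =
      a + (star l * b) * ((1 - F.z) ^ 2 * l * -(star F.z ^ 2 * (1 - F.z)) * r) by ring]
    exact hc.add_mul_left_left _
  · have := P.add_mem (P.mul_mem_right b h2) (P.mul_mem_left F.z (P.mul_mem_right (star b) h1))
    convert this using 1
    simp only [star_add, star_mul, star_neg, star_star, wr, hr]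
    rw [hp]
    linear_combination (-(l * star l * w * r * b * star b * (1 - F.z))) * hz

theorem s0 [CharZero O] {a b D : O} {x rho : ι → O} (hl : l ≠ 0) (hD : D ≠ 0) (hr : rho ∈ L)
    (hrr : F.B rho rho = 1 + F.z) (ha : (1 - F.z) ^ 2 * l ∣ a - 1)
    (wit : ∃ α β, ∃ y ∈ L, α * (star l * b) + β * a + F.B y x = 1) :
    ∃ a' b' x', R a b x a' b' x' ∧ (∃ u ∈ L, x' = x + (1 - F.z) • u) ∧
      (1 - F.z) ^ 2 * l ∣ a' - 1 ∧ b' ≠ 0 ∧ F.B rho x' ≠ 0 ∧ IsCoprime a' (star a') ∧
      IsCoprime a' D ∧ IsCoprime a' (star l) ∧ IsCoprime a' b' ∧ IsCoprime a' (F.B rho x') := by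
  obtain ⟨b1, x1, r1, ⟨u1, m1, e1⟩, hb, w1⟩ := M.step1 H wit
  obtain ⟨a2, x2, r2, ⟨u2, m2, e2⟩, ha2, c2⟩ := M.step2 H hl hb ha w1
  obtain ⟨a3, x3, r3, ⟨u3, m3, e3⟩, ha3, c3, n3, t3⟩ := M.step3 H (x := x2) hl hb hr hrr ha2 c2
  obtain ⟨a4, r4, ha4, c4, d4, s4⟩ := M.step4 H (x := x3) (mul_ne_zero hD n3) ha3 c3 t3
  exact ⟨a4, b1, x3, M.trans (M.trans (M.trans r1 r2) r3) r4,
    ⟨u1 + u2 + u3, L.add_mem (L.add_mem m1 m2) m3, by rw [e3, e2, e1]; module⟩, ha4, hb, n3, s4,
    d4.of_mul_right_left, c4.of_mul_right_left, c4.of_mul_right_right, d4.of_mul_right_right⟩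

end S0Mv

end Pool.Agent.Lib.MP_61a4e3_al
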