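import Pool.Agent.Lib.MP_61a4e3_al.RingLem

/-! Three central moves bring the first coordinate to one modulo `n`. -/

set_option linter.unusedSectionVars false
set_option linter.unusedVariables false
set_option linter.unusedSimpArgs false

namespace Pool.Agent.Lib.MP_61a4e3_al

namespace RH

variable {O : Type*} [CommRing O] [StarRing O] [IsDomain O] {z : O} (H : RH z)
include H

lemma z_sub_star : z - star z = -star z * ((1 - z) * (1 + z)) := by
  linear_combination (-z) * H.hz

lemma z_sub_star_ne : z - star z ≠ 0 := by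
  rw [H.z_sub_star]
  refine mul_ne_zero (neg_ne_zero.2 fun h => ?_) (mul_ne_zero H.one_sub H.one_add)
  have := H.hz
  rw [h, mul_zero] at this
  exact zero_ne_one this

lemma w_real : star ((1 - z) * star (1 - z)) = (1 - z) * star (1 - z) := by
  rw [star_mul, star_star]

lemma w_ne : (1 - z) * star (1 - z) ≠ 0 := mul_ne_zero H.one_sub H.star_pi_ne

lemma w_dvd_sq : (1 - z) * star (1 - z) ∣ (1 - z) ^ 2 :=
  ⟨-z, by rw [H.star_pi]; linear_combination (-(1 - z) ^ 2) * H.hz⟩

/-- A real element prime to a real modulus has a real inverse. -/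
lemma real_inv {x n : O} (hx : star x = x) (hn : star n = n) (h : IsCoprime x n) :
    ∃ u v, star u = u ∧ star v = v ∧ u * x + v * n = 1 := by
  obtain ⟨u, v, huv⟩ := h
  exact H.real_comb hx hn (star_one O) huv

/-- Coordinates of an element congruent to one modulo a real element. -/
lemma coords_of_dvd {m a0 a1 : O} (hm : star m = m) (h0 : star a0 = a0) (h1 : star a1 = a1)
    (h : m ∣ a0 + a1 * z - 1) :
    ∃ c e, star c = c ∧ star e = e ∧ a0 = 1 + m * c ∧ a1 = m * e := by
  obtain ⟨t, ht⟩ := h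
  obtain ⟨c, e, hc, he, rfl⟩ := H.dec t
  have := H.real_unique (a := a0 - 1 - m * c) (b := a1 - m * e)
    (by simp [hm, hc, h0, mul_comm]) (by simp [hm, he, h1, mul_comm]) (by linear_combination ht)
  exact ⟨c, e, hc, he, by linear_combination this.1, by linear_combination this.2⟩

/-- The determinant of a pair in real coordinates. -/
lemma det_coords {a0 a1 b0 b1 t : O} (h0 : star a0 = a0) (h1 : star a1 = a1) (k0 : star b0 = b0)
    (k1 : star b1 = b1)
    (h : star (a0 + a1 * z) * (b0 + b1 * z) - (a0 + a1 * z) * star (b0 + b1 * z) =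
      -(z - star z) * t) : a0 * b1 - a1 * b0 = -t := by
  refine mul_left_cancel₀ H.z_sub_star_ne ?_
  simp only [star_add, star_mul, h0, h1, k0, k1] at h
  linear_combination h

/-- A primitive element that is one modulo `z - star z` is prime to its conjugate. -/
lemma coprime_star {a0 a1 : O} (h0 : star a0 = a0) (h1 : star a1 = a1) (hc : IsCoprime a0 a1)
    (h : (1 - z) * (1 + z) ∣ a0 + a1 * z - 1) :
    IsCoprime (a0 + a1 * z) (star (a0 + a1 * z)) := by
  refine isCoprime_of_forall_prime fun P hP ha hb => ?_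
  have e : a0 + a1 * z - star (a0 + a1 * z) = a1 * (-star z * ((1 - z) * (1 + z))) := by
    rw [star_add, star_mul, h0, h1, ← H.z_sub_star]; ring
  have h2 := P.sub_mem ha hb
  rw [e] at h2
  rcases hP.mem_or_mem h2 with h3 | h3
  · refine IsCoprime.not_mem hc hP ?_ h3
    simpa using P.sub_mem ha (P.mul_mem_right z h3)
  · have h4 : (1 - z) * (1 + z) ∈ P := by
      have := P.mul_mem_left (-z) h3
      rwa [show -z * (-star z * ((1 - z) * (1 + z))) = (1 - z) * (1 + z) by
        linear_combination ((1 - z) * (1 + z)) * H.hz] at this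
    obtain ⟨c, hc'⟩ := h
    have h5 := P.sub_mem ha (hc' ▸ P.mul_mem_right c h4 : a0 + a1 * z - 1 ∈ P)
    rw [sub_sub_cancel] at h5
    exact hP.ne_top ((Ideal.eq_top_iff_one _).2 h5)

theorem s2 {a bt n q : O} (hdet : star a * bt - a * star bt = -(z - star z))
    (ha : (1 - z) ^ 2 ∣ a - 1) (hn : star n = n) (hn0 : n ≠ 0) (hq : star q = q) (hq0 : q ≠ 0)
    (hqn : IsCoprime q n) (hzn : (1 - z) * (1 + z) ∣ n) :
    ∃ s1 s2 s3 a' b' a'' : O, star s1 = s1 ∧ star s2 = s2 ∧ star s3 = s3 ∧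
      a' = a + (1 - z) * star (1 - z) * q * s1 * bt ∧ b' = bt + s2 * a' ∧
      a'' = a' + (1 - z) * star (1 - z) * q * s3 * b' ∧
      n ∣ a'' - 1 ∧ star a'' ≠ a'' ∧ IsCoprime a'' (star a'') := by
  obtain ⟨a0, a1, h0, h1, rfl⟩ := H.dec a
  obtain ⟨b0, b1, k0, k1, rfl⟩ := H.dec bt
  have hd : a0 * b1 - a1 * b0 = -1 := H.det_coords h0 h1 k0 k1 (by rw [hdet, mul_one])
  have hw := H.w_real
  have hw0 := H.w_ne
  obtain ⟨c, e, hc, he, hac, hae⟩ := H.coords_of_dvd hw h0 h1 (H.w_dvd_sq.trans ha)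
  generalize (1 - z) * star (1 - z) = w at *
  -- first move
  obtain ⟨r, hr, hsep⟩ := H.exists_sep_real hn0 hn he
  have hcop : IsCoprime (e + r * (b1 * q)) n := by
    refine isCoprime_of_forall_prime fun P hP h2 h3 => ?_
    refine hsep.add_not_mem (b1 * q) hP h3 (fun h4 h5 => ?_) h2
    rcases hP.mem_or_mem h5 with h6 | h6
    · have : (1 : O) = (w * b0) * e - a0 * b1 := by rw [hae] at hd; linear_combination hd
      exact hP.ne_top ((Ideal.eq_top_iff_one _).2
        (this ▸ P.sub_mem (P.mul_mem_left _ h4) (P.mul_mem_left _ h6)))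
    · exact IsCoprime.not_mem hqn hP h6 h3
  have hβ : star (e + r * (b1 * q)) = e + r * (b1 * q) := by
    simp [he, hr, k1, hq, mul_comm]
  obtain ⟨u, v, hu, hv, huv⟩ := H.real_inv hβ hn hcop
  obtain ⟨u', v', hu', hv', huv'⟩ := H.real_inv hq hn hqn
  -- alpha' with - b1 = 1 + w alpha'
  obtain ⟨al, hal, hb1⟩ : ∃ al, star al = al ∧ b1 = -1 - w * al :=
    ⟨c * b1 - e * b0, by simp [hc, he, k0, k1, mul_comm], by
      rw [hac, hae] at hd; linear_combination hd⟩
  have key : ∀ t : O, star t = t →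
      n ∣ (a0 + a1 * z + w * q * r * (b0 + b1 * z)) + w * q * ((e + r * (b1 * q)) * u' + n * t) *
        ((b0 + b1 * z) + al * u * (a0 + a1 * z + w * q * r * (b0 + b1 * z))) - 1 := by
    intro t ht
    refine ⟨(w * (q * t - (e + r * (b1 * q)) * v') * al * u - w * al * v) *
      (a0 + a1 * z + w * q * r * (b0 + b1 * z)) +
      w * (q * t - (e + r * (b1 * q)) * v') * (b0 + b1 * z), ?_⟩
    linear_combination w * (e + r * (b1 * q)) * ((b0 + b1 * z) +
      al * u * (a0 + a1 * z + w * q * r * (b0 + b1 * z))) * huv' +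
      w * al * (a0 + a1 * z + w * q * r * (b0 + b1 * z)) * huv +
      (a0 + a1 * z + w * q * r * (b0 + b1 * z)) * hb1 - (b0 + b1 * z) * hae - hd
  obtain ⟨s2, hs2, e2⟩ : ∃ s2, star s2 = s2 ∧ al * u = s2 := ⟨_, by simp [hal, hu, mul_comm], rfl⟩
  rw [e2] at key
  obtain ⟨t, ht, hne⟩ : ∃ t : O, star t = t ∧ a1 + w * q * r * b1 +
      w * q * ((e + r * (b1 * q)) * u' + n * t) * (b1 + s2 * (a1 + w * q * r * b1)) ≠ 0 := by
    by_contra! hcon
    have e0 := hcon 0 (star_zero O)
    have e1 := hcon 1 (star_one O)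
    have e3 : w * q * n * (b1 + s2 * (a1 + w * q * r * b1)) = 0 := by linear_combination e1 - e0
    have e4 := (mul_eq_zero.1 e3).resolve_left (mul_ne_zero (mul_ne_zero hw0 hq0) hn0)
    rw [e4, mul_zero, add_zero] at e0
    rw [e0, mul_zero, add_zero] at e4
    rw [e4, mul_zero, add_zero] at e0
    rw [e0, e4] at hd
    simp at hd
  obtain ⟨s3, hs3, e3⟩ : ∃ s3, star s3 = s3 ∧ (e + r * (b1 * q)) * u' + n * t = s3 :=
    ⟨_, by rw [star_add, star_mul, star_mul, hβ, hu', hn, ht]; ring, rfl⟩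
  have k := key t ht
  rw [e3] at k hne
  obtain ⟨A0, hA0, eA0⟩ : ∃ A0, star A0 = A0 ∧
      A0 = a0 + w * q * r * b0 + w * q * s3 * (b0 + s2 * (a0 + w * q * r * b0)) :=
    ⟨_, by simp only [star_add, star_mul, h0, k0, hw, hq, hr, hs2, hs3]; ring, rfl⟩
  obtain ⟨A1, hA1, eA1⟩ : ∃ A1, star A1 = A1 ∧
      A1 = a1 + w * q * r * b1 + w * q * s3 * (b1 + s2 * (a1 + w * q * r * b1)) :=
    ⟨_, by simp only [star_add, star_mul, h1, k1, hw, hq, hr, hs2, hs3]; ring, rfl⟩
  have eA : (a0 + a1 * z + w * q * r * (b0 + b1 * z)) + w * q * s3 *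
      ((b0 + b1 * z) + s2 * (a0 + a1 * z + w * q * r * (b0 + b1 * z))) = A0 + A1 * z := by
    rw [eA0, eA1]; ring
  refine ⟨r, s2, s3, _, _, _, hr, hs2, hs3, rfl, rfl, rfl, k, ?_, ?_⟩
  · rw [eA]
    intro hre
    refine hne (eA1 ▸ (H.real_unique (a := A0 - (A0 + A1 * z)) (b := A1) ?_ hA1 (by ring)).2)
    rw [star_sub, hre, hA0]
  · rw [eA] at k ⊢
    refine H.coprime_star hA0 hA1 ⟨-(b1 + s2 * (a1 + w * q * r * b1)),
      b0 + s2 * (a0 + w * q * r * b0), ?_⟩ (hzn.trans k)
    rw [eA0, eA1]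
    linear_combination -hd

end RH

end Pool.Agent.Lib.MP_61a4e3_al
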