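import Pool.Agent.Lib.MP_61a4e3_al.RingLem

/-! Elementary moves between two sign classes are transitive on vectors unimodular modulo `a`. -/

namespace Pool.Agent.Lib.MP_61a4e3_al

open Function

variable {O : Type*} [CommRing O]

lemma exists_add_both {a : O} (fin : Finite (O ⧸ Ideal.span {a})) (x y : O) :
    ∃ r, ∀ P : Ideal O, P.IsPrime → a ∈ P → x + r * y ∈ P → x ∈ P ∧ y ∈ P := by
  obtain ⟨r, hr⟩ := exists_sep fin x
  refine ⟨r, fun P hP ha hs => ?_⟩
  by_cases hx : x ∈ P
  · refine ⟨hx, ?_⟩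
    by_contra hy
    exact hr.add_not_mem y hP ha (fun _ => hy) hs
  · exact absurd hs (hr.add_not_mem y hP ha fun h => absurd h hx)

section

variable {I : Type*} [DecidableEq I] {a : O} {sg : I → Prop} {Q : (I → O) → (I → O) → Prop}
  (cong : ∀ X Y, (∀ i, a ∣ X i - Y i) → Q X Y) (tr : ∀ X Y Z, Q X Y → Q Y Z → Q X Z)
  (mv : ∀ i j be X, ¬ (sg i ↔ sg j) → Q X (update X j (X j + be * X i)))
include cong tr mv

lemma trans_gather (fin : Finite (O ⧸ Ideal.span {a})) (X : I → O) (j : I) (T : Finset I)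
    (hT : ∀ i ∈ T, ¬ (sg i ↔ sg j)) :
    ∃ y, Q X (update X j y) ∧
      ∀ P : Ideal O, P.IsPrime → a ∈ P → y ∈ P → X j ∈ P ∧ ∀ i ∈ T, X i ∈ P := by
  induction T using Finset.induction_on with
  | empty => exact ⟨X j, cong _ _ fun i => by simp, fun P _ _ h => ⟨h, by simp⟩⟩
  | insert i T hi ih =>
    obtain ⟨y, hq, hy⟩ := ih fun k hk => hT k (Finset.mem_insert_of_mem hk)
    have hij := hT i (Finset.mem_insert_self _ _)
    have ne : i ≠ j := fun h => hij (by rw [h])
    obtain ⟨r, hr⟩ := exists_add_both fin y (X i)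
    refine ⟨y + r * X i, tr _ _ _ hq ?_, fun P hP ha hs => ?_⟩
    · have := mv i j r (update X j y) hij
      rwa [update_idem, update_self, update_of_ne ne] at this
    · obtain ⟨h1, h2⟩ := hr P hP ha hs
      obtain ⟨h3, h4⟩ := hy P hP ha h1
      exact ⟨h3, fun k hk => (Finset.mem_insert.1 hk).elim (fun e => e ▸ h2) (h4 k)⟩

lemma trans_spread (X be : I → O) (i : I) (T : Finset I) (hT : ∀ j ∈ T, ¬ (sg i ↔ sg j)) :
    Q X fun j => if j ∈ T then X j + be j * X i else X j := by
  induction T using Finset.induction_on with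
  | empty => exact cong _ _ fun i => by simp
  | insert j T hj ih =>
    have hij := hT j (Finset.mem_insert_self _ _)
    have hiT : i ∉ T := fun h => hT i (Finset.mem_insert_of_mem h) Iff.rfl
    refine tr _ _ _ (ih fun k hk => hT k (Finset.mem_insert_of_mem hk)) ?_
    have := mv i j (be j) (fun j => if j ∈ T then X j + be j * X i else X j) hij
    convert this using 1
    funext k
    by_cases hk : k = j
    · subst hk; simp [hj, hiT]
    · simp [hk]

lemma trans_canon [Fintype I] [DecidablePred sg] (fin : Finite (O ⧸ Ideal.span {a})) {p n : I}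
    (hp : sg p) (hn : ¬ sg n) {X : I → O} (hX : ∀ P : Ideal O, P.IsPrime → a ∈ P → ∃ i, X i ∉ P) :
    Q X fun i => if sg i then 1 else 0 := by
  have np : n ≠ p := fun h => hn (h ▸ hp)
  obtain ⟨y, q1, hy⟩ := trans_gather cong tr mv fin X p (Finset.univ.filter fun i => ¬ sg i)
    fun i hi h => (Finset.mem_filter.1 hi).2 (h.2 hp)
  obtain ⟨u, q2, hu⟩ := trans_gather cong tr mv fin (update X p y) n
    (Finset.univ.filter fun i => sg i) fun i hi h => hn (h.1 (Finset.mem_filter.1 hi).2)
  have cu : IsCoprime u a := isCoprime_of_forall_prime fun P hP h1 ha => by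
    obtain ⟨i, hi⟩ := hX P hP ha
    obtain ⟨-, h3⟩ := hu P hP ha h1
    have h4 := h3 p (by simp [hp])
    rw [update_self] at h4
    obtain ⟨h5, h6⟩ := hy P hP ha h4
    by_cases s : sg i
    · by_cases e : i = p
      · exact hi (e ▸ h5)
      · have := h3 i (by simp [s])
        rw [update_of_ne e] at this
        exact hi this
    · exact hi (h6 i (by simp [s]))
  obtain ⟨c, e, hce⟩ := cu
  set Z := update (update X p y) n u with hZ
  have zn : Z n = u := by simp [hZ]
  have q3 := trans_spread cong tr mv Z (fun j => (1 - Z j) * c) n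
    (Finset.univ.filter fun i => sg i) fun j hj h => hn (h.2 (Finset.mem_filter.1 hj).2)
  have q4 : Q (fun j => if j ∈ Finset.univ.filter fun i => sg i then Z j + (1 - Z j) * c * Z n
      else Z j) fun j => if sg j then 1 else Z j := cong _ _ fun i => by
    by_cases s : sg i
    · simp only [Finset.mem_filter, Finset.mem_univ, true_and, s, if_true, zn]
      exact ⟨(Z i - 1) * e, by linear_combination (1 - Z i) * hce⟩
    · simp [s]
  have q5 := trans_spread cong tr mv (fun j => if sg j then 1 else Z j) (fun j => -Z j) p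
    (Finset.univ.filter fun i => ¬ sg i) fun j hj h => (Finset.mem_filter.1 hj).2 (h.1 hp)
  refine tr _ _ _ q1 (tr _ _ _ q2 (tr _ _ _ q3 (tr _ _ _ q4 ?_)))
  convert q5 using 1
  funext k
  by_cases s : sg k <;> simp [s, hp]

end

theorem trans_mod {I : Type*} [Fintype I] [DecidableEq I] {a : O}
    (fin : Finite (O ⧸ Ideal.span {a})) (sg : I → Prop) {p n : I} (hp : sg p) (hn : ¬ sg n)
    (R : (I → O) → (I → O) → Prop) (cong : ∀ X Y, (∀ i, a ∣ X i - Y i) → R X Y)
    (tr : ∀ X Y Z, R X Y → R Y Z → R X Z)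
    (mv : ∀ i j be X, ¬ (sg i ↔ sg j) → R X (update X j (X j + be * X i))) {X Y : I → O}
    (hX : ∀ P : Ideal O, P.IsPrime → a ∈ P → ∃ i, X i ∉ P)
    (hY : ∀ P : Ideal O, P.IsPrime → a ∈ P → ∃ i, Y i ∉ P) : R X Y := by
  classical
  have c' : ∀ X Y : I → O, (∀ i, a ∣ X i - Y i) → R X Y ∧ R Y X := fun X Y h =>
    ⟨cong _ _ h, cong _ _ fun i => dvd_sub_comm.1 (h i)⟩
  have t' : ∀ X Y Z : I → O, R X Y ∧ R Y X → R Y Z ∧ R Z Y → R X Z ∧ R Z X :=
    fun X Y Z h k => ⟨tr _ _ _ h.1 k.1, tr _ _ _ k.2 h.2⟩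
  have m' : ∀ i j be (X : I → O), ¬ (sg i ↔ sg j) →
      R X (update X j (X j + be * X i)) ∧ R (update X j (X j + be * X i)) X := by
    intro i j be X h
    have ne : i ≠ j := fun e => h (by rw [e])
    refine ⟨mv i j be X h, ?_⟩
    have := mv i j (-be) (update X j (X j + be * X i)) h
    rw [update_idem, update_self, update_of_ne ne] at this
    convert this using 1
    simp
  exact tr _ _ _ (trans_canon (Q := fun X Y => R X Y ∧ R Y X) c' t' m' fin hp hn hX).1
    (trans_canon (Q := fun X Y => R X Y ∧ R Y X) c' t' m' fin hp hn hY).2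

end Pool.Agent.Lib.MP_61a4e3_al
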