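import Pool.Agent.Lib.MP_61a4e3_al.N.Ba64
import Pool.Agent.Lib.MP_61a4e3_al.N.Ob64
import Pool.Agent.Lib.MP_61a4e3_al.N.Elem
import Pool.Agent.Lib.MP_61a4e3_al.N.Trans

/-! Strong approximation modulo an element prime to its conjugate. -/

set_option linter.unusedSectionVars false
set_option linter.unusedVariables false
set_option linter.unusedSimpArgs false

namespace Pool.Agent.Lib.MP_61a4e3_al

open Matrix WG Form

variable {O : Type} [CommRing O] [StarRing O] [IsDomain O] [CharZero O] {ι : Type} [Fintype ι]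
  [DecidableEq ι] {F : Form O ι}

lemma sa_opp {φ : O →+* ℂ} (hi : Function.Injective φ) (hs : ∀ x, φ (star x) = star (φ x))
    {p q : O} (rp : star p = p) (rq : star q = q) (p0 : p ≠ 0) (q0 : q ≠ 0)
    (h : ¬ (0 < (φ p).re ↔ 0 < (φ q).re)) : 0 < (φ (-(p * q))).re := by
  have ne : ∀ {r : O}, star r = r → r ≠ 0 → (φ r).re ≠ 0 := fun hr r0 h0 => r0 (hi (by
    rw [map_zero]; exact Complex.ext h0 (ob_real hs hr)))
  have e : (φ (-(p * q))).re = -((φ p).re * (φ q).re) := by simp [ob_real hs rp]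
  rw [e, neg_pos]
  rcases lt_or_gt_of_ne (ne rp p0) with h1 | h1 <;> rcases lt_or_gt_of_ne (ne rq q0) with h2 | h2
  · exact (h ⟨fun h => absurd h h1.not_gt, fun h => absurd h h2.not_gt⟩).elim
  · exact mul_neg_of_neg_of_pos h1 h2
  · exact mul_neg_of_pos_of_neg h1 h2
  · exact (h ⟨fun _ => h2, fun _ => h1⟩).elim

theorem sa (H : RH F.z) (φ : O →+* ℂ) (hi : Function.Injective φ)
    (hs : ∀ x, φ (star x) = star (φ x))
    (pell : ∀ de : O, star de = de → 0 < (φ de).re → ∀ N : O, star N = N → N ≠ 0 →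
      ∃ s t, star s = s ∧ star t = t ∧ t ≠ 0 ∧ s ^ 2 - de * t ^ 2 = 1 ∧ N ∣ s - 1 ∧ N ∣ t)
    (cls : ∀ (n : ℕ) (a : O), n ≠ 0 → a ≠ 0 → ∃ (h : ℕ) (al be : O) (j : ℕ), 0 < h ∧
      (n : O) ^ h = al * be ∧ IsCoprime be a ∧ al ∣ a ^ j)
    {L : Submodule O (ι → O)} (nd : ∀ y ∈ L, (∀ x ∈ L, F.B x y = 0) → y = 0)
    {yp yn : ι → O} {qp qn : O} (mp : yp ∈ L) (mn : yn ∈ L)
    (bp : F.B yp yp = (1 + F.z) * qp) (bn : F.B yn yn = (1 + F.z) * qn)
    (hp : 0 < (φ qp).re) (hn : (φ qn).re < 0) :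
    ∃ D : O, star D = D ∧ D ≠ 0 ∧ ∀ (a n : O) (x x' : ι → O), n ≠ 0 → IsCoprime a (star a) →
      IsCoprime a D → IsCoprime a (n * star n) → x - x' ∈ L →
      (∃ y ∈ L, IsCoprime (F.B y x) a) → (∃ y ∈ L, IsCoprime (F.B y x') a) → Dv n (x - x') →
      ∃ m : WG F, m ∈ sup F L ∧ m ∈ lev F (n * star n) ∧ m ∈ detK F ∧
        act m *ᵥ x - x' ∈ L ∧ Dv (a * n) (act m *ᵥ x - x') := by
  classical
  obtain ⟨k, e, q, gam, D, sD, D0, he, rq, bq, hg, dec⟩ := ob H nd
  have q0 : ∀ i, q i ≠ 0 := fun i h => he.2.1 i (by rw [bq, h, mul_zero])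
  obtain ⟨ip, hip⟩ := ob_sign hi hs sD D0 (ob_norm H he bq sD (dec yp mp) bp) hp
  obtain ⟨im, him⟩ := ob_sign (q := fun i => -q i) (r := -qn)
    (c := fun i => gam i * F.B (e i) yn) hi hs sD D0 (by
      have := ob_norm H he bq sD (dec yn mn) bn
      simp only [mul_neg, Finset.sum_neg_distrib, this]) (by simpa using hn)
  have him' : ¬ 0 < (φ (q im)).re := by
    have : (φ (q im)).re < 0 := by simpa using him
    exact this.not_gt
  refine ⟨D, sD, D0, fun a n x x' n0 haa haD han hx ux ux' dx => ?_⟩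
  have a0 : a ≠ 0 := by
    rintro rfl
    rw [star_zero] at haa
    exact not_isCoprime_zero_zero haa
  have rn : star (n * star n) = n * star n := by rw [star_mul, star_star]
  have uni : ∀ x : ι → O, (∃ y ∈ L, IsCoprime (F.B y x) a) →
      ∀ P : Ideal O, P.IsPrime → a ∈ P → ∃ i, F.B (e i) x ∉ P := by
    rintro x ⟨y, hy, c⟩ P hP ha
    by_contra hne
    push Not at hne
    have h1 : D * F.B y x ∈ P := by
      rw [← sD, ← B_smul_left, dec y hy, ob_sum_left]
      exact P.sum_mem fun i _ => by rw [B_smul_left]; exact P.mul_mem_left _ (hne i)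
    rcases hP.mem_or_mem h1 with h | h
    · exact IsCoprime.not_mem haD hP ha h
    · exact IsCoprime.not_mem c hP h ha
  have key := trans_mod (H.fin a a0) (fun i => 0 < (φ (q i)).re) hip him'
    (fun X Y => ∀ x : ι → O, (∀ i, a ∣ F.B (e i) x - X i) → ∃ m : WG F, m ∈ sup F L ∧
      m ∈ lev F (n * star n) ∧ m ∈ detK F ∧ ∀ i, a ∣ F.B (e i) (act m *ᵥ x) - Y i)
    (fun X Y h x hx => ⟨1, one_mem _, one_mem _, one_mem _, fun i => by
      simpa using dvd_add (hx i) (h i)⟩)
    (fun X Y Z h1 h2 x hx => by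
      obtain ⟨m, m1, m2, m3, m4⟩ := h1 x hx
      obtain ⟨m', n1, n2, n3, n4⟩ := h2 _ m4
      exact ⟨m' * m, mul_mem n1 m1, mul_mem n2 m2, mul_mem n3 m3, fun i => by
        rw [act_mul_mulVec]; exact n4 i⟩)
    (fun i j be X hij x hx => by
      have ij : i ≠ j := fun h => hij (by rw [h])
      have di : (1 + F.z) * q i ∣ D := Dvd.intro_left _ (hg i)
      have dj : star (1 + F.z) * q j ∣ D := by
        refine ⟨star (gam j), ?_⟩
        rw [← sD, ← hg j, star_mul, star_mul, rq j]; ring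
      have c1 : IsCoprime a ((1 + F.z) * star (1 + F.z) * q i * q j) := by
        have := (haD.of_isCoprime_of_dvd_right di).mul_right (haD.of_isCoprime_of_dvd_right dj)
        convert this using 1; ring
      obtain ⟨u, v, huv⟩ : IsCoprime a (q j) := c1.of_mul_right_right
      obtain ⟨s, y, s1, s2, s3, s4, s5, s6, s7⟩ := ba H.fin
        (pell _ (by simp [rq, mul_comm]) (sa_opp hi hs (rq i) (rq j) (q0 i) (q0 j) hij)) cls
        (v * be) haa (han.mul_right c1)
        (by simp only [star_mul, star_star, rq]; ring)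
        (mul_ne_zero (mul_ne_zero n0 (star_ne_zero.2 n0)) (mul_ne_zero (mul_ne_zero
          (mul_ne_zero H.one_add (star_ne_zero.2 H.one_add)) (q0 i)) (q0 j)))
      obtain ⟨g, g1, g2, g3, g4⟩ := elem H.one_add (rq i) (rq j) s1 (q0 i) (q0 j) (bq i) (bq j)
        (he.2.2 i j ij) s2 rn s3
        (Dvd.dvd.trans ⟨q i * q j, by ring⟩ s4)
      refine ⟨g, g2 L (he.1 i) (he.1 j), g1, g3, fun t => ?_⟩
      obtain ⟨c5, h5⟩ := s5
      obtain ⟨c6, h6⟩ := s6
      obtain ⟨c7, h7⟩ := s7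
      obtain ⟨xi, hxi⟩ := hx i
      obtain ⟨xj, hxj⟩ := hx j
      by_cases tj : t = j
      · rw [tj, Function.update_self, (g4 x).2.1]
        exact ⟨c5 * F.B (e j) x + xj + (q j * c6 - u * be) * F.B (e i) x + be * xi, by
          linear_combination F.B (e j) x * h5 + hxj + q j * F.B (e i) x * h6 + be * hxi +
            be * F.B (e i) x * huv⟩
      · rw [Function.update_of_ne tj]
        by_cases ti : t = i
        · rw [ti, (g4 x).1]
          exact ⟨c5 * F.B (e i) x + xi - q i * c7 * F.B (e j) x, by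
            linear_combination F.B (e i) x * h5 + hxi - q i * F.B (e j) x * h7⟩
        · rw [(g4 x).2.2 _ (he.2.2 t i ti) (he.2.2 t j tj)]
          exact hx t)
    (uni x ux) (uni x' ux')
  obtain ⟨m, m1, m2, m3, m4⟩ := key x fun i => by simp
  have wL : act m *ᵥ x - x' ∈ L := by
    have : act m *ᵥ x - x' = (x - x') - m.W *ᵥ (F.A *ᵥ x) := by rw [act_mulVec]; abel
    rw [this]; exact L.sub_mem hx (m1 _)
  refine ⟨m, m1, m2, m3, wL, fun t => ?_⟩
  have d1 : a ∣ (act m *ᵥ x - x') t := by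
    refine haD.dvd_of_dvd_mul_left ?_
    have := congrFun (dec _ wL) t
    rw [Pi.smul_apply, smul_eq_mul] at this
    rw [this, Finset.sum_apply]
    refine Finset.dvd_sum fun i _ => ?_
    rw [Pi.smul_apply, smul_eq_mul, B_sub_right]
    exact ((m4 i).mul_left _).mul_right _
  have d2 : n ∣ (act m *ᵥ x - x') t := by
    have := dvd_add ((dvd_mul_right n _).trans (dv_act_sub m2 x t)) (dx t)
    simpa using this
  exact han.of_mul_right_left.mul_dvd d1 d2

end Pool.Agent.Lib.MP_61a4e3_al
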