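import Pool.Agent.Lib.MP_61a4e3_al.N.Sa64
import Pool.Agent.Lib.MP_61a4e3_al.R.Defs

/-! Strong approximation in the form used by the frames. -/

namespace Pool.Agent.Lib.MP_61a4e3_al.R

open Matrix WG Form

variable {O : Type} [CommRing O] [StarRing O] [IsDomain O] {ι : Type} [Fintype ι] [DecidableEq ι]
  {F : Form O ι}

theorem sa_ok (H : RH F.z) (K : RK O) {φ : O →+* ℂ} (hφ : Place φ) : SAok φ F := by
  have := K.cz
  rintro L nd ⟨yp, mp, qp, -, bp, hp⟩ ⟨yn, mn, qn, -, bn, hn⟩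
  obtain ⟨D, sD, D0, h⟩ := sa H φ hφ.inj hφ.st hφ.pell K.cls nd mp mn bp bn (by simpa using hp)
    (by simpa using hn)
  refine ⟨D, D0, sD, fun a n x x' n0 h1 h2 h3 hx hx' dx u u' => ?_⟩
  obtain ⟨m, m1, m2, -, -, m5⟩ := h a n x x' n0 h1 h2 h3 (L.sub_mem hx hx') u u'
    (by simpa using dx.neg)
  exact ⟨m, ⟨m1, fun i j => (dvd_mul_right _ _).trans (m2 i j)⟩, m5⟩

end Pool.Agent.Lib.MP_61a4e3_al.R
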