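import Pool.Agent.Lib.MP_61a4e3_al.Plane

/-! Vectors of equal norm with the same first or second hyperbolic coordinate. -/

set_option linter.unusedSectionVars false
set_option linter.unusedSimpArgs false
set_option linter.unusedVariables false

namespace Pool.Agent.Lib.MP_61a4e3_al

open Matrix WG Form

variable {O : Type*} [CommRing O] [StarRing O] {ι : Type*} [Fintype ι] [DecidableEq ι]
  {F : Form O ι} {f f' : ι → O}

/-- The norm in hyperbolic coordinates. -/
lemma norm_hyp (ff : F.B f f = 0) (f'f' : F.B f' f' = 0) (ff' : F.B f f' = 1) {x : ι → O}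
    (fx : F.B f x = 0) (f'x : F.B f' x = 0) (a b : O) :
    F.B (a • f + b • f' + x) (a • f + b • f' + x) =
      star a * b + F.z * (a * star b) + F.B x x := by
  simp only [B_add_left, B_add_right, B_smul_left, B_smul_right, ff, f'f', ff',
    F.B_eq_one_swap ff', fx, f'x, F.B_eq_zero_swap fx, F.B_eq_zero_swap f'x]
  ring

/-- The move based at `f'`. -/
lemma act_U' (ff' : F.B f f' = 1) {x y : ι → O} {c : O} (e : F.IsE f' y c) (f'x : F.B f' x = 0)
    (fy : F.B f y = 0) (a b : O) : act (mkE e) *ᵥ (a • f + b • f' + x) =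
      a • f + (b + star F.z * F.B y x - c * F.z * a) • f' + (x - (F.z * a) • y) := by
  rw [act_mkE]
  simp only [B_add_right, B_smul_right, e.kk, F.B_eq_one_swap ff', f'x, F.B_eq_zero_swap fy,
    F.B_eq_zero_swap e.kx]
  module

/-- The move based at `f`. -/
lemma act_U (ff' : F.B f f' = 1) {x y : ι → O} {c : O} (e : F.IsE f y c) (fx : F.B f x = 0)
    (f'y : F.B f' y = 0) (a b : O) : act (mkE e) *ᵥ (a • f + b • f' + x) =
      (a + star F.z * F.B y x - c * b) • f + b • f' + (x - b • y) := by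
  rw [act_mkE]
  simp only [B_add_right, B_smul_right, e.kk, ff', fx, F.B_eq_zero_swap f'y,
    F.B_eq_zero_swap e.kx]
  module

variable [IsDomain O]

theorem same_a (ff : F.B f f = 0) (f'f' : F.B f' f' = 0) (ff' : F.B f f' = 1) {x y0 : ι → O}
    (fx : F.B f x = 0) (f'x : F.B f' x = 0) (fy : F.B f y0 = 0) (f'y : F.B f' y0 = 0)
    {a b b' : O} (ha : IsCoprime a (star a))
    (hn : F.B (a • f + b • f' + x) (a • f + b • f' + x) =
      F.B (a • f + b' • f' + (x + a • y0)) (a • f + b' • f' + (x + a • y0))) :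
    ∃ c, ∃ e : F.IsE f' ((-star F.z) • y0) c,
      act (mkE e) *ᵥ (a • f + b • f' + x) = a • f + b' • f' + (x + a • y0) := by
  have hz := F.hz
  have a0 : a ≠ 0 := by
    rintro rfl
    rw [star_zero] at ha
    exact not_isCoprime_zero_zero ha
  have a0' : star a ≠ 0 := star_ne_zero.2 a0
  set y := (-star F.z) • y0 with hy
  have f'y1 : F.B f' y = 0 := by simp [hy, f'y]
  have fy1 : F.B f y = 0 := by simp [hy, fy]
  have hx : x - (F.z * a) • y = x + a • y0 := by
    rw [hy, smul_smul, show F.z * a * -star F.z = -a by linear_combination (-a) * hz]; module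
  have fx' : F.B f (x + a • y0) = 0 := by simp [fx, fy]
  have f'x' : F.B f' (x + a • y0) = 0 := by simp [f'x, f'y]
  have e0 : F.IsE f' y (F.qf y + 0) := isE_qf f'f' f'y1 (by simp)
  have h0 := act_U' ff' e0 f'x fy1 a b
  rw [hx] at h0
  set b'' := b + star F.z * F.B y x - (F.qf y + 0) * F.z * a with hb
  have h1 := B_act (mkE e0) (a • f + b • f' + x) (a • f + b • f' + x)
  rw [h0, hn, norm_hyp ff f'f' ff' fx' f'x', norm_hyp ff f'f' ff' fx' f'x'] at h1
  have h2 : star a * (b' - b'') = a * (-F.z * star (b' - b'')) := by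
    rw [star_sub]; linear_combination -h1
  obtain ⟨s, hs⟩ : a ∣ b' - b'' := ha.dvd_of_dvd_mul_left ⟨_, h2⟩
  have h3 : s + F.z * star s = 0 := by
    apply mul_left_cancel₀ (mul_ne_zero a0 a0')
    rw [hs, star_mul] at h2
    linear_combination h2
  have hc : F.z * (-star F.z * s) + star (-star F.z * s) = 0 := by
    simp only [star_mul, star_neg, star_star]
    linear_combination -h3 - s * hz
  refine ⟨_, isE_qf f'f' f'y1 hc, ?_⟩
  rw [act_U' ff' _ f'x fy1, hx]
  congr 3
  linear_combination -hs - hb + a * s * hz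

theorem same_b (H : RH F.z) (ff : F.B f f = 0) (f'f' : F.B f' f' = 0) (ff' : F.B f f' = 1)
    {x y0 : ι → O} (fx : F.B f x = 0) (f'x : F.B f' x = 0) (fy : F.B f y0 = 0)
    (f'y : F.B f' y0 = 0) {a a' bt l : O} (hb : IsCoprime bt (star bt))
    (hp : IsCoprime bt (1 - F.z)) (hl : IsCoprime bt l) (ll : IsCoprime l (star l))
    (ha : (1 - F.z) * l ∣ a' - a)
    (hn : F.B (a • f + ((1 - F.z) * bt) • f' + x) (a • f + ((1 - F.z) * bt) • f' + x) =
      F.B (a' • f + ((1 - F.z) * bt) • f' + (x - ((1 - F.z) * bt * star l * (1 - F.z)) • y0))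
        (a' • f + ((1 - F.z) * bt) • f' + (x - ((1 - F.z) * bt * star l * (1 - F.z)) • y0))) :
    ∃ c, F.IsE f ((1 - F.z) • y0) c ∧
      ∃ e : F.IsE f (star l • (1 - F.z) • y0) (l * star l * c),
        act (mkE e) *ᵥ (a • f + ((1 - F.z) * bt) • f' + x) =
          a' • f + ((1 - F.z) * bt) • f' + (x - ((1 - F.z) * bt * star l * (1 - F.z)) • y0) := by
  have hz := F.hz
  have b0 : bt ≠ 0 := by
    rintro rfl
    rw [star_zero] at hb
    exact not_isCoprime_zero_zero hb
  have b0' : star bt ≠ 0 := star_ne_zero.2 b0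
  have l0 : l ≠ 0 := by
    rintro rfl
    rw [star_zero] at ll
    exact not_isCoprime_zero_zero ll
  set y := (1 - F.z) • y0 with hy
  have fy1 : F.B f y = 0 := by simp [hy, fy]
  have f'y2 : F.B f' (star l • y) = 0 := by simp [hy, f'y]
  have up : ∀ {c}, F.IsE f y c → F.IsE f (star l • y) (l * star l * c) := fun {c} e =>
    ⟨ff, by simp [fy1], by
      simp only [B_smul_left, B_smul_right, star_mul, star_star, ← e.hc]; ring⟩
  have hx : x - ((1 - F.z) * bt) • star l • y =
      x - ((1 - F.z) * bt * star l * (1 - F.z)) • y0 := by rw [hy, smul_smul, smul_smul]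
  have fx' : F.B f (x - ((1 - F.z) * bt * star l * (1 - F.z)) • y0) = 0 := by simp [fx, fy]
  have f'x' : F.B f' (x - ((1 - F.z) * bt * star l * (1 - F.z)) • y0) = 0 := by simp [f'x, f'y]
  have e0 : F.IsE f y (F.qf y + 0) := isE_qf ff fy1 (by simp)
  have h0 := act_U ff' (up e0) fx f'y2 a ((1 - F.z) * bt)
  rw [hx] at h0
  set a'' := a + star F.z * F.B (star l • y) x - l * star l * (F.qf y + 0) * ((1 - F.z) * bt)
    with ha''
  have h1 := B_act (mkE (up e0)) (a • f + ((1 - F.z) * bt) • f' + x)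
    (a • f + ((1 - F.z) * bt) • f' + x)
  rw [h0, hn, norm_hyp ff f'f' ff' fx' f'x', norm_hyp ff f'f' ff' fx' f'x', star_mul,
    H.star_pi] at h1
  have h2 : star bt * (a' - a'') = bt * star (a' - a'') := by
    apply mul_left_cancel₀ H.one_sub
    rw [star_sub]
    linear_combination h1 - (1 - F.z) * star bt * (a' - a'') * hz
  obtain ⟨s, hs⟩ : bt ∣ a' - a'' := hb.dvd_of_dvd_mul_left ⟨_, h2⟩
  have rs : star s = s := by
    apply mul_left_cancel₀ (mul_ne_zero b0 b0')
    rw [hs, star_mul] at h2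
    linear_combination -h2
  have d0 : (1 - F.z) * l ∣ bt * s := by
    rw [← hs, ha'', hy]
    simp only [B_smul_left, star_star, H.star_pi]
    obtain ⟨u, hu⟩ := ha
    exact ⟨u + star F.z * star F.z * F.B y0 x + star l * (F.qf ((1 - F.z) • y0) + 0) * bt, by
      linear_combination hu⟩
  have d1 : (1 - F.z) ∣ s := hp.symm.dvd_of_dvd_mul_left (dvd_of_mul_right_dvd d0)
  have d2 : l ∣ s := hl.symm.dvd_of_dvd_mul_left (dvd_of_mul_left_dvd d0)
  have d3 : star l ∣ s := by
    obtain ⟨u, hu⟩ := d2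
    exact ⟨star u, by rw [← rs, hu, star_mul, mul_comm]⟩
  obtain ⟨s1, r1, e1⟩ := H.real_dvd (m := l * star l) (by rw [star_mul, star_star]) rs
    (ll.mul_dvd d2 d3)
  have cl : IsCoprime (1 - F.z) l := by
    obtain ⟨u, hu⟩ := H.pi_dvd_star_sub l
    obtain ⟨p, q, hpq⟩ := ll
    exact ⟨q * u, p + q, by linear_combination hpq - q * hu⟩
  have cl' : IsCoprime (1 - F.z) (star l) := by
    obtain ⟨u, hu⟩ := H.pi_dvd_star_sub l
    obtain ⟨p, q, hpq⟩ := ll
    exact ⟨-(p * u), p + q, by linear_combination hpq + p * hu⟩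
  have d4 : (1 - F.z) ∣ s1 := (cl.mul_right cl').dvd_of_dvd_mul_left (e1 ▸ d1)
  obtain ⟨s2, r2, e2⟩ := H.real_dvd (m := (1 - F.z) * star (1 - F.z))
    (by rw [star_mul, star_star]) r1 (H.ram s1 r1 d4)
  have hc := H.lam_valid (r := -s2) (by rw [star_neg, r2])
  refine ⟨_, isE_qf ff fy1 hc, up (isE_qf ff fy1 hc), ?_⟩
  rw [act_U ff' _ fx f'y2, hx]
  congr 3
  rw [e1, e2] at hs
  linear_combination -hs - ha''

end Pool.Agent.Lib.MP_61a4e3_al
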