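import Pool.Agent.Lib.MP_61a4e3_al.N.S0
import Pool.Agent.Lib.MP_61a4e3_al.N.S2
import Pool.Agent.Lib.MP_61a4e3_al.N.NC
import Pool.Agent.Lib.MP_61a4e3_al.R.Defs

/-! Transitivity of the elementary group on vectors with prescribed congruences. -/

set_option linter.unusedSectionVars false
set_option linter.unusedVariables false
set_option linter.unusedSimpArgs false

namespace Pool.Agent.Lib.MP_61a4e3_al

open Matrix WG Form R

variable {O : Type} [CommRing O] [StarRing O] [IsDomain O] {ι : Type} [Fintype ι]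
  [DecidableEq ι] {F : Form O ι}

/-- The norm of `a f + b f' + x`. -/
def tN (F : Form O ι) (a b : O) (x : ι → O) : O := star a * b + F.z * (a * star b) + F.B x x

lemma tN_mv' {a b c : O} {x y : ι → O} (hc : F.z * c + star c = F.B y y) :
    tN F a (b + star F.z * F.B y x - c * (F.z * a)) (x - (F.z * a) • y) = tN F a b x := by
  have hz := F.hz
  simp only [tN, B_sub_left, B_sub_right, B_smul_left, B_smul_right, star_add, star_sub, star_mul,
    star_star, ← hc]
  rw [F.B_swap y x]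
  linear_combination (a * star a * F.z * c) * hz

lemma tN_mv {a b c : O} {x y : ι → O} (hc : F.z * c + star c = F.B y y) :
    tN F (a + star F.z * F.B y x - c * b) b (x - b • y) = tN F a b x := by
  have hz := F.hz
  simp only [tN, B_sub_left, B_sub_right, B_smul_left, B_smul_right, star_add, star_sub, star_mul,
    star_star, ← hc]
  rw [F.B_swap y x]
  linear_combination (star b * F.B y x) * hz

lemma ne_zero_of_cop_star {a : O} (h : IsCoprime a (star a)) : a ≠ 0 := by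
  rintro rfl
  rw [star_zero] at h
  exact not_isCoprime_zero_zero h

lemma cop_of_cong {m a d : O} (h : m ∣ a - 1) (hd : d ∣ m) : IsCoprime a d := by
  obtain ⟨c, hc⟩ := hd.trans h
  exact ⟨1, -c, by linear_combination hc⟩

namespace RH

variable {z : O} (H : RH z)
include H

lemma cop_pi {a : O} (h : IsCoprime a (star a)) : IsCoprime a ((1 - z) * (1 + z)) := by
  obtain ⟨a0, a1, h0, h1, rfl⟩ := H.dec a
  obtain ⟨u, v, huv⟩ := h
  refine ⟨u + v, v * a1 * star z, ?_⟩
  rw [star_add, star_mul, h0, h1] at huv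
  linear_combination huv + v * a1 * H.z_sub_star

lemma cop_star_pi {a : O} (h : IsCoprime a (1 - z)) : IsCoprime a (star (1 - z)) :=
  h.of_isCoprime_of_dvd_right H.star_dvd_pi

lemma cop_star_add {a : O} (h : IsCoprime a (1 + z)) : IsCoprime a (star (1 + z)) :=
  h.of_isCoprime_of_dvd_right ⟨z, by rw [star_add, star_one]; linear_combination -H.hz⟩

/-- If the trace of `s` is divisible by `(1 - z) (1 + z)` then `1 - z` divides `s`. -/
lemma pi_dvd_of_tau {s : O} (h : (1 - z) * (1 + z) ∣ s + z * star s) : (1 - z) ∣ s := by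
  obtain ⟨s0, s1, h0, h1, rfl⟩ := H.dec s
  obtain ⟨c, hc⟩ := h
  rw [star_add, star_mul, h0, h1] at hc
  have : s0 + s1 = (1 - z) * c := mul_left_cancel₀ H.one_add (by
    linear_combination hc - s1 * H.hz)
  exact ⟨c - s1, by linear_combination this⟩

lemma one_add_dvd_tau (s : O) : (1 + z) ∣ z * s + star s := by
  obtain ⟨s0, s1, h0, h1, rfl⟩ := H.dec s
  refine ⟨s0 + s1 * star z * (z ^ 2 - z + 1), ?_⟩
  rw [star_add, star_mul, h0, h1]
  linear_combination (-s1 * z ^ 2) * H.hz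

lemma one_add_dvd_sub (s : O) : (1 + z) ∣ s - star s := by
  obtain ⟨s0, s1, h0, h1, rfl⟩ := H.dec s
  refine ⟨-s1 * star z * (1 - z), ?_⟩
  rw [star_add, star_mul, h0, h1]
  linear_combination s1 * H.z_sub_star

end RH

/-- The norm condition forces `1 - z ∣ b`. -/
lemma pi_dvd_b (H : RH F.z) {a b : O} {x0 u : ι → O} (ha : (1 - F.z) ∣ a - 1)
    (h : tN F a b (x0 + (1 - F.z) • u) = F.B x0 x0) : (1 - F.z) ∣ b := by
  have hz := F.hz
  obtain ⟨c, hc⟩ := H.one_add_dvd_tau (F.qf u)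
  obtain ⟨e, he⟩ := H.one_add_dvd_sub (F.B x0 u)
  have h1 : (1 - F.z) ∣ star a * b := by
    refine H.pi_dvd_of_tau ⟨-e - star (1 - F.z) * c, ?_⟩
    simp only [tN, B_add_left, B_add_right, B_smul_left, B_smul_right] at h
    rw [F.B_swap x0 u, F.B_self u, hc, H.star_pi] at h
    rw [star_mul, star_star, H.star_pi]
    linear_combination h - (1 - F.z) * he + (1 - F.z) * star (F.B x0 u) * hz
  have h2 : (1 - F.z) ∣ star a - 1 := by
    have := dvd_add (H.pi_dvd_star_sub a) ha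
    rwa [sub_add_sub_cancel] at this
  have := dvd_sub h1 (h2.mul_right b)
  rwa [show star a * b - (star a - 1) * b = b by ring] at this

lemma tN_V (H : RH F.z) {a bt mu : O} {x0 rho : ι → O} (hrr : F.B rho rho = 1 + F.z)
    (h0 : F.B rho x0 = 0) : tN F a ((1 - F.z) * bt) (x0 + ((1 - F.z) * mu) • rho) =
      F.B x0 x0 + (1 - F.z) * (star a * bt - a * star bt + (F.z - star F.z) * (mu * star mu)) := by
  have hz := F.hz
  simp only [tN, B_add_left, B_add_right, B_smul_left, B_smul_right, hrr, h0,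
    F.B_eq_zero_swap h0, star_mul, star_sub, star_one]
  linear_combination (-(a * star bt) - (1 - F.z) * mu * star mu) * hz

namespace S0Mv

variable {L : Submodule O (ι → O)} {l : O} {R : O → O → (ι → O) → O → O → (ι → O) → Prop}
  (H : RH F.z) (M : S0Mv F L l R)
include H M

lemma cen' (a b : O) (x : ι → O) {c : O} (hc : F.z * c + star c = 0) :
    R a b x a (b - c * (F.z * a)) x := by
  simpa using M.mv' a b x 0 L.zero_mem c (by simpa using hc)

lemma cen (a b : O) (x : ι → O) {c : O} (hc : F.z * c + star c = 0) :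
    R a b x (a - l * star l * c * b) b x := by
  simpa using M.mv a b x 0 L.zero_mem c (by simpa using hc)

lemma move_a (a b : O) (x : ι → O) {y : ι → O} (hy : y ∈ L) :
    ∃ b', R a b x a b' (x + (a * (1 - F.z)) • y) ∧
      tN F a b' (x + (a * (1 - F.z)) • y) = tN F a b x := by
  have hy' : (-star F.z) • y ∈ L := L.smul_mem _ hy
  have e : x - (F.z * a) • (1 - F.z) • (-star F.z) • y = x + (a * (1 - F.z)) • y := by
    rw [smul_smul, smul_smul, sub_eq_add_neg, ← neg_smul]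
    congr 2
    linear_combination (a * (1 - F.z)) * F.hz
  have m := M.mv' a b x _ hy' _ (M.qf_ok H _)
  have n := tN_mv' (a := a) (b := b) (x := x) (M.qf_ok H ((1 - F.z) • (-star F.z) • y))
  rw [e] at m n
  exact ⟨_, m, n⟩

lemma same_a {a b b' : O} {x y : ι → O} (ha : IsCoprime a (star a)) (hy : y ∈ L)
    (hn : tN F a b' (x + (a * (1 - F.z)) • y) = tN F a b x) :
    R a b x a b' (x + (a * (1 - F.z)) • y) := by
  have hz := F.hz
  obtain ⟨b1, r1, n1⟩ := M.move_a H a b x hy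
  have a0 := ne_zero_of_cop_star ha
  have e : star a * (b1 - b') = a * (-F.z * star (b1 - b')) := by
    rw [star_sub]; simp only [tN] at hn n1; linear_combination n1 - hn
  obtain ⟨s, hs⟩ : a ∣ b1 - b' := ha.dvd_of_dvd_mul_left ⟨_, e⟩
  have e2 : s + F.z * star s = 0 := by
    rw [hs, star_mul] at e
    refine mul_left_cancel₀ (mul_ne_zero a0 (by simpa using a0 : star a ≠ 0)) ?_
    linear_combination e
  have r2 := M.cen' H a b1 (x + (a * (1 - F.z)) • y) (c := star F.z * s) (by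
    rw [star_mul, star_star]; linear_combination e2 + s * hz)
  rw [show b1 - star F.z * s * (F.z * a) = b' by linear_combination hs - s * a * hz] at r2
  exact M.trans r1 r2

lemma same_b {a a' bt : O} {x y : ι → O} (hb : IsCoprime bt (star bt))
    (hbl : IsCoprime bt ((1 - F.z) * l)) (hl : IsCoprime l (star l)) (hy : y ∈ L)
    (ha : (1 - F.z) * l ∣ a - a')
    (hn : tN F a' ((1 - F.z) * bt) (x - ((1 - F.z) * bt) • star l • (1 - F.z) • y) =
      tN F a ((1 - F.z) * bt) x) :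
    R a ((1 - F.z) * bt) x a' ((1 - F.z) * bt) (x - ((1 - F.z) * bt) • star l • (1 - F.z) • y) := by
  have hz := F.hz
  have hp := H.star_pi
  have r1 := M.mv a ((1 - F.z) * bt) x y hy _ (M.qf_ok H _)
  have n1 := tN_mv (a := a) (b := (1 - F.z) * bt) (x := x) (y := star l • (1 - F.z) • y)
    (c := l * star l * F.qf ((1 - F.z) • y)) (by
      rw [B_smul_left, B_smul_right, F.B_self, star_mul, star_mul, star_star]; ring)
  have d1 : (1 - F.z) * l ∣ a + star F.z * F.B (star l • (1 - F.z) • y) x -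
      l * star l * F.qf ((1 - F.z) • y) * ((1 - F.z) * bt) - a' := by
    obtain ⟨k, hk⟩ := ha
    refine ⟨k - star F.z ^ 2 * F.B y x - star l * F.qf ((1 - F.z) • y) * bt, ?_⟩
    rw [B_smul_left, B_smul_left, star_star, hp]
    linear_combination hk
  generalize a + star F.z * F.B (star l • (1 - F.z) • y) x -
      l * star l * F.qf ((1 - F.z) • y) * ((1 - F.z) * bt) = a1 at r1 n1 d1
  have b0 := ne_zero_of_cop_star hb
  have e : star bt * (a1 - a') = bt * star (a1 - a') := by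
    refine mul_left_cancel₀ H.one_sub ?_
    rw [star_sub]
    simp only [tN, star_mul, hp] at hn n1
    linear_combination hn - n1 - ((1 - F.z) * star bt * (a1 - a')) * hz
  obtain ⟨s, hs⟩ : bt ∣ a1 - a' := hb.dvd_of_dvd_mul_left ⟨_, e⟩
  have e2 : star s = s := by
    rw [hs, star_mul] at e
    refine mul_left_cancel₀ (mul_ne_zero b0 (by simpa using b0 : star bt ≠ 0)) ?_
    linear_combination -e
  rw [hs] at d1
  have d2 : (1 - F.z) * l ∣ s := hbl.symm.dvd_of_dvd_mul_left d1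
  obtain ⟨s1, hs1, rfl⟩ := H.real_dvd H.w_real e2 (H.ram s e2 (dvd_of_mul_right_dvd d2))
  have lp : IsCoprime l (1 - F.z) := (H.cop_pi hl).of_mul_right_left
  have d3 : l ∣ s1 :=
    (lp.mul_right (H.cop_star_pi lp)).dvd_of_dvd_mul_left (dvd_of_mul_left_dvd d2)
  have d4 : star l ∣ s1 := by simpa [hs1] using star_dvd_star' d3
  obtain ⟨s2, hs2, rfl⟩ := H.real_dvd (m := l * star l) (by rw [star_mul, star_star]) hs1
    (hl.mul_dvd d3 d4)
  have r2 := M.cen H a1 ((1 - F.z) * bt) (x - ((1 - F.z) * bt) • star l • (1 - F.z) • y)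
    (H.lam_valid hs2)
  rw [show a1 - l * star l * (star (1 - F.z) * s2) * ((1 - F.z) * bt) = a' by
    linear_combination hs] at r2
  exact M.trans r1 r2

omit H in
lemma withNorm :
    S0Mv F L l fun a b x a' b' x' => R a b x a' b' x' ∧ tN F a' b' x' = tN F a b x :=
  ⟨fun a b x => ⟨M.refl a b x, rfl⟩, fun h h' => ⟨M.trans h.1 h'.1, h'.2.trans h.2⟩,
    fun a b x y hy c hc => ⟨M.mv' a b x y hy c hc, tN_mv' hc⟩,
    fun a b x y hy c hc => ⟨M.mv a b x y hy c hc, tN_mv (by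
      rw [B_smul_left (c := star l), B_smul_right (c := star l), ← hc]
      simp only [star_mul, star_star]; ring)⟩⟩

omit H M in
lemma sa_vec {D a n : O} {x x' : ι → O} (sat : Sat L) (sa : SA F L D) (hn : n ≠ 0)
    (h1 : IsCoprime a (star a)) (h2 : IsCoprime a D) (h3 : IsCoprime a (n * star n)) (hx : x ∈ L)
    (hx' : x' ∈ L) (hd : Dv n (x' - x)) (u : Um F L a x) (u' : Um F L a x') :
    ∃ m ∈ sup F L ⊓ lev F n, ∃ y ∈ L, act m *ᵥ x = x' + (a * n) • y := by
  obtain ⟨m, hm, h⟩ := sa a n x x' hn h1 h2 h3 hx hx' hd u u'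
  obtain ⟨y, hy⟩ := h.exists
  refine ⟨m, hm, y, sat _ y (mul_ne_zero (ne_zero_of_cop_star h1) hn) ?_, by rw [← hy]; abel⟩
  rw [← hy]
  exact L.sub_mem (act_mem hm.1 hx) hx'

variable (mvM : ∀ a b x, ∀ m ∈ sup F L ⊓ lev F (1 - F.z), R a b x a b (act m *ᵥ x))
  (nrm : ∀ {a b x a' b' x'}, R a b x a' b' x' → tN F a' b' x' = tN F a b x)
  {D : O} {rho : ι → O} (sat : Sat L) (hr : rho ∈ L) (hrr : F.B rho rho = 1 + F.z)
  (D0 : D ≠ 0) (Dr : star D = D) (sa : SA F L D)
include mvM nrm sat hr hrr D0 Dr sa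

omit H M mvM nrm sat hr D0 Dr sa in
lemma tN_iso (H : RH F.z) (a bt mu : O) :
    tN F a ((1 - F.z) * bt) (((1 - F.z) * mu) • rho) = 0 ↔ Iso F.z a bt mu := by
  have := tN_V H (a := a) (bt := bt) (mu := mu) (x0 := 0) hrr (by simp)
  rw [zero_add, B_zero_left, zero_add] at this
  rw [this, mul_eq_zero, or_iff_right H.one_sub, Iso]
  constructor <;> intro h <;> linear_combination h

/-- Step `S1`: reduction to a standard triple. -/
lemma s1 {a b : O} {u : ι → O} (hu : u ∈ L) (haa : IsCoprime a (star a)) (hD : IsCoprime a D)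
    (hx : IsCoprime a (F.B rho ((1 - F.z) • u))) (ha : (1 - F.z) ∣ a - 1)
    (hn : tN F a b ((1 - F.z) • u) = 0) :
    ∃ bt, R a b ((1 - F.z) • u) a ((1 - F.z) * bt) (((1 - F.z) * 1) • rho) ∧
      Iso F.z a bt 1 := by
  have cp := H.cop_pi haa
  obtain ⟨m, hm, y, hy, e⟩ := sa_vec (x := (1 - F.z) • u) (x' := ((1 - F.z) * 1) • rho) sat sa
    H.one_sub haa hD (cp.of_mul_right_left.mul_right (H.cop_star_pi cp.of_mul_right_left))
    (L.smul_mem _ hu) (L.smul_mem _ hr)
    (Dv.sub (Dv.smul_of_dvd (dvd_mul_right _ _) _) (Dv.smul_self _ _)) ⟨rho, hr, hx.symm⟩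
    ⟨rho, hr, by rw [B_smul_right, hrr, mul_one]; exact cp.symm⟩
  have r1 := mvM a b ((1 - F.z) • u) m hm
  obtain ⟨b', r2, -⟩ := M.move_a H a b (act m *ᵥ ((1 - F.z) • u)) (L.neg_mem hy)
  rw [show act m *ᵥ ((1 - F.z) • u) + (a * (1 - F.z)) • (-y) = ((1 - F.z) * 1) • rho by
    rw [e]; module] at r2
  have r := M.trans r1 r2
  have n := (nrm r).trans hn
  obtain ⟨bt, rfl⟩ : (1 - F.z) ∣ b' :=
    pi_dvd_b H (x0 := 0) (u := rho) ha (by simpa using n)
  exact ⟨bt, r, (tN_iso hrr H _ _ _).1 n⟩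

/-- Steps `S3` to `S5`. -/
lemma s345 [CharZero O] (hl : Nice D l) {a bt n1 : O}
    (hn1 : n1 = 2 * ((1 - F.z) * star (1 - F.z)) * ((1 + F.z) * star (1 + F.z)) * D)
    (hl1 : IsCoprime l n1) (hi : Iso F.z a bt 1) (ha : 4 * n1 ∣ a - 1)
    (hre : star a ≠ a) (haa : IsCoprime a (star a)) (hal : l ∣ a - 1)
    (hal' : IsCoprime a (star l)) :
    R a ((1 - F.z) * bt) (((1 - F.z) * 1) • rho) 1 0 0 := by
  have hz := F.hz
  obtain ⟨a0, a1, h0, h1, ea⟩ := H.dec a
  have a10 : a1 ≠ 0 := by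
    rintro rfl
    rw [zero_mul, add_zero] at ea
    exact hre (by rw [ea, h0])
  have nr : star n1 = n1 := by
    rw [hn1]; simp only [star_mul, star_star, Dr, star_ofNat]; ring
  have n0 : n1 ≠ 0 := by
    rw [hn1]
    exact mul_ne_zero (mul_ne_zero (mul_ne_zero two_ne_zero H.w_ne)
      (mul_ne_zero H.one_add (star_ne_zero.2 H.one_add))) D0
  obtain ⟨mu, r, rr, hN, hr4, ⟨k, hk⟩, hmu⟩ := nc H h0 h1 ea a10 haa nr n0
    (hn1 ▸ dvd_mul_right _ _) ha hl.1 hl1 ((cop_of_cong hal dvd_rfl).mul_right hal')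
  have pn : (1 - F.z) * (1 + F.z) ∣ n1 :=
    ⟨2 * star (1 - F.z) * star (1 + F.z) * D, by rw [hn1]; ring⟩
  have pn1 : (1 - F.z) ∣ n1 := dvd_of_mul_right_dvd pn
  -- S3
  have i2 : Iso F.z a (r - F.z) mu := by
    rw [Iso, hN, ea]
    simp only [star_add, star_sub, star_mul, h0, h1, rr]
    ring
  have e3 : ((1 - F.z) * 1) • rho + (a * (1 - F.z)) • k • rho = ((1 - F.z) * mu) • rho := by
    rw [smul_smul, ← add_smul]; congr 1; linear_combination (-(1 - F.z)) * hk
  have r3 := M.same_a H (a := a) (b := (1 - F.z) * bt) (b' := (1 - F.z) * (r - F.z))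
    (x := ((1 - F.z) * 1) • rho) haa (L.smul_mem k hr) (by
      rw [e3, (tN_iso hrr H _ _ _).2 i2, (tN_iso hrr H _ _ _).2 hi])
  rw [e3] at r3
  -- S4
  have cb : ∀ d : O, d ∣ 4 * n1 * (l * star l) → IsCoprime (r - F.z) d := by
    intro d hd
    obtain ⟨c, hc⟩ := hd.trans hr4
    exact ⟨-star F.z, star F.z * c, by linear_combination hz - star F.z * hc⟩
  have cn : ∀ d : O, d ∣ n1 → IsCoprime (r - F.z) d := fun d hd =>
    cb d ((hd.mul_left 4).mul_right _)
  have cl : IsCoprime (r - F.z) l := cb l ((dvd_mul_right l _).mul_left _)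
  have cl' : IsCoprime (r - F.z) (star l) := cb _ ((dvd_mul_left _ l).mul_left _)
  have cp : IsCoprime (r - F.z) (1 - F.z) := cn _ pn1
  have cq : IsCoprime (r - F.z) (1 + F.z) := cn _ (dvd_of_mul_left_dvd pn)
  have cs : IsCoprime (r - F.z) (star (r - F.z)) := by
    obtain ⟨u, v, huv⟩ := cn _ pn
    refine ⟨u + v * F.z, -(v * F.z), ?_⟩
    rw [star_sub, rr]
    linear_combination huv + v * hz
  have cm : IsCoprime (r - F.z) mu :=
    ⟨k * a1, 1 - k * star mu, by linear_combination hk - k * hN + k * ea⟩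
  have l0 : star l ≠ 0 := star_ne_zero.2 (ne_zero_of_cop_star hl.1)
  have c3 : IsCoprime (r - F.z) ((1 - F.z) ^ 2 * star l) := cp.pow_right.mul_right cl'
  obtain ⟨j, hj⟩ : (1 - F.z) * star l ∣ mu - 1 := (mul_dvd_mul_right pn1 _).trans hmu
  obtain ⟨m, hm, y, hy, e⟩ := sa_vec (a := r - F.z) (n := (1 - F.z) ^ 2 * star l)
    (x := ((1 - F.z) * mu) • rho) (x' := ((1 - F.z) * 1) • rho) sat sa
    (mul_ne_zero (pow_ne_zero 2 H.one_sub) l0) cs (cn D (hn1 ▸ dvd_mul_left _ _))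
    (c3.mul_right (by
      rw [star_mul, star_star, star_pow]
      exact cl.mul_right (H.cop_star_pi cp).pow_right))
    (L.smul_mem _ hr) (L.smul_mem _ hr)
    (by rw [← sub_smul]; exact Dv.smul_of_dvd ⟨-j, by linear_combination (-(1 - F.z)) * hj⟩ _)
    ⟨rho, hr, by rw [B_smul_right, hrr]; exact ((cp.mul_right cm).mul_right cq).symm⟩
    ⟨rho, hr, by rw [B_smul_right, hrr, mul_one]; exact (cp.mul_right cq).symm⟩
  have r4 := mvM a ((1 - F.z) * (r - F.z)) (((1 - F.z) * mu) • rho) m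
    ⟨hm.1, fun i j => ((dvd_pow_self _ two_ne_zero).mul_right _).trans (hm.2 i j)⟩
  have e5 : act m *ᵥ (((1 - F.z) * mu) • rho) -
      ((1 - F.z) * (r - F.z)) • star l • (1 - F.z) • y = ((1 - F.z) * 1) • rho := by
    rw [e]; module
  have i3 : Iso F.z 1 (r - F.z) 1 := by
    rw [Iso]; simp only [star_one, star_sub, rr]; ring
  have lp : IsCoprime (1 - F.z) l := (H.cop_pi hl.1).of_mul_right_left.symm
  have r5 := M.same_b H (a := a) (a' := 1) (x := act m *ᵥ (((1 - F.z) * mu) • rho)) cs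
    (cp.mul_right cl) hl.1 hy (lp.mul_dvd ((pn1.mul_left 4).trans ha) hal) (by
      rw [e5, nrm r4, (tN_iso hrr H _ _ _).2 i2, (tN_iso hrr H _ _ _).2 i3])
  rw [e5] at r5
  -- S5
  have e6 : ((1 - F.z) * 1) • rho + ((1 : O) * (1 - F.z)) • (-rho) = 0 := by module
  have r6 := M.same_a H (a := 1) (b := (1 - F.z) * (r - F.z)) (b' := 0)
    (x := ((1 - F.z) * 1) • rho) isCoprime_one_left (L.neg_mem hr) (by
      rw [e6, (tN_iso hrr H _ _ _).2 i3]; simp [tN])
  rw [e6] at r6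
  exact M.trans (M.trans (M.trans r3 r4) r5) r6

theorem tri [CharZero O] (hl : Nice D l) {a b : O} {u : ι → O} (hu : u ∈ L)
    (ha : (1 - F.z) ^ 2 * l ∣ a - 1) (hn : tN F a b ((1 - F.z) • u) = 0)
    (wit : ∃ α β, ∃ y ∈ L, α * (star l * b) + β * a + F.B y ((1 - F.z) • u) = 1) :
    R a b ((1 - F.z) • u) 1 0 0 := by
  have hz := F.hz
  have l0 := ne_zero_of_cop_star hl.1
  obtain ⟨a1, b1, x1, r1, ⟨u1, m1, e1⟩, ha1, -, -, c1, c2, c3, -, c4⟩ :=
    M.s0 H l0 D0 hr hrr ha wit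
  rw [← smul_add] at e1
  subst e1
  have pa : (1 - F.z) ^ 2 ∣ a1 - 1 := dvd_of_mul_right_dvd ha1
  obtain ⟨bt, r2, i2⟩ := M.s1 H mvM nrm sat hr hrr D0 Dr sa (L.add_mem hu m1) c1 c2 c4
    ((dvd_pow_self _ two_ne_zero).trans pa) ((nrm r1).trans hn)
  obtain ⟨n1, hn1⟩ : ∃ n1,
    n1 = 2 * ((1 - F.z) * star (1 - F.z)) * ((1 + F.z) * star (1 + F.z)) * D := ⟨_, rfl⟩
  have nr : star n1 = n1 := by
    rw [hn1]; simp only [star_mul, star_star, Dr, star_ofNat]; ring
  have n0 : n1 ≠ 0 := by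
    rw [hn1]
    exact mul_ne_zero (mul_ne_zero (mul_ne_zero two_ne_zero H.w_ne)
      (mul_ne_zero H.one_add (star_ne_zero.2 H.one_add))) D0
  have lp := (H.cop_pi hl.1).of_mul_right_left
  have lq := (H.cop_pi hl.1).of_mul_right_right
  have l2 := hl.2.of_mul_right_left
  have hl1 : IsCoprime l n1 := hn1 ▸ ((l2.mul_right (lp.mul_right (H.cop_star_pi lp))).mul_right
    (lq.mul_right (H.cop_star_add lq))).mul_right hl.2.of_mul_right_right
  have hl4 : IsCoprime l (4 * n1) := by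
    rw [show (4 : O) = 2 * 2 by norm_num]; exact (l2.mul_right l2).mul_right hl1
  have nr4 : star (4 * n1) = 4 * n1 := by rw [star_mul, nr, star_ofNat, mul_comm]
  obtain ⟨s1, s2, s3, a', b', a'', q1, q2, q3, ea', eb', ea'', k1, k2, k3⟩ := H.s2 (a := a1)
    (bt := bt) (n := 4 * n1) (q := l * star l) (by simpa [Iso] using i2) pa nr4
    (mul_ne_zero (by norm_num) n0) (by rw [star_mul, star_star])
    (mul_ne_zero l0 (star_ne_zero.2 l0)) (hl4.mul_left (nr4 ▸ cop_star hl4))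
    ⟨8 * star (1 - F.z) * star (1 + F.z) * D, by rw [hn1]; ring⟩
  have t1 := M.cen H a1 ((1 - F.z) * bt) (((1 - F.z) * 1) • rho)
    (H.lam_valid (r := -s1) (by rw [star_neg, q1]))
  rw [show a1 - l * star l * (star (1 - F.z) * -s1) * ((1 - F.z) * bt) = a' by
    rw [ea']; ring] at t1
  have t2 := M.cen' H a' ((1 - F.z) * bt) (((1 - F.z) * 1) • rho) (H.lam_valid q2)
  rw [show (1 - F.z) * bt - star (1 - F.z) * s2 * (F.z * a') = (1 - F.z) * b' by
    rw [eb', H.star_pi]; linear_combination ((1 - F.z) * s2 * a') * hz] at t2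
  have t3 := M.cen H a' ((1 - F.z) * b') (((1 - F.z) * 1) • rho)
    (H.lam_valid (r := -s3) (by rw [star_neg, q3]))
  rw [show a' - l * star l * (star (1 - F.z) * -s3) * ((1 - F.z) * b') = a'' by
    rw [ea'']; ring] at t3
  have t := M.trans (M.trans t1 t2) t3
  have i3 : Iso F.z a'' b' 1 :=
    (tN_iso hrr H _ _ _).1 ((nrm t).trans ((tN_iso hrr H _ _ _).2 i2))
  have ed : a'' = a1 + l * star l * ((1 - F.z) * star (1 - F.z) * (s1 * bt + s3 * b')) := by
    rw [ea'', ea']; ring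
  refine M.trans (M.trans (M.trans r1 r2) t) (M.s345 H mvM nrm sat hr hrr D0 Dr sa hl hn1 hl1 i3
    k1 k2 k3 ?_ ?_)
  · obtain ⟨j, hj⟩ : l ∣ a1 - 1 := dvd_of_mul_left_dvd ha1
    exact ⟨j + star l * ((1 - F.z) * star (1 - F.z) * (s1 * bt + s3 * b')), by
      rw [ed]; linear_combination hj⟩
  · rw [ed, mul_comm l, mul_assoc]
    exact c3.add_mul_left_left _

end S0Mv

namespace R.T92

variable {P : Submodule O (ι → O)} {f f' ρ : ι → O} {l D : O}

lemma sat_LL (h : Sat P) : Sat (LL F P f f') := fun c y hc hy => by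
  rw [mem_LL] at hy ⊢
  simp only [B_smul_right, mul_eq_zero, hc, false_or] at hy
  exact ⟨h c y hc hy.1, hy.2⟩

lemma fix_pair_of_sup {m : WG F} (hm : m ∈ sup F (LL F P f f')) :
    act m *ᵥ f = f ∧ act m *ᵥ f' = f' :=
  ⟨fix_of_orth hm fun x hx => F.B_eq_zero_swap (mem_LL.1 hx).2.1,
    fix_of_orth hm fun x hx => F.B_eq_zero_swap (mem_LL.1 hx).2.2⟩

lemma conj_mem_EL {m e : WG F} (hm : m ∈ sup F (LL F P f f')) (he : e ∈ EL F P f f' l) :
    m * e * m⁻¹ ∈ EL F P f f' l := by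
  obtain ⟨h1, h2⟩ := fix_pair_of_sup hm
  induction he using Subgroup.closure_induction with
  | mem g hg =>
    refine Subgroup.subset_closure ?_
    rcases hg with ⟨x, c, e, hx, hd, rfl⟩ | ⟨x, c, e, hx, hd, rfl⟩
    · have e' : F.IsE f' (act m *ᵥ x) c := by simpa only [h2] using e.conj m
      refine Or.inl ⟨_, c, e', act_mem hm hx, hd.mulVec _, ?_⟩
      rw [conj_mkE]
      exact mkE_congr _ _ (by rw [h2])
    · have e' : F.IsE f (act m *ᵥ x) c := by simpa only [h1] using e.conj m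
      refine Or.inr ⟨_, c, e', act_mem hm hx, hd.mulVec _, ?_⟩
      rw [conj_mkE]
      exact mkE_congr _ _ (by rw [h1, mulVec_smul])
  | one => simp
  | mul a b _ _ ha hb =>
    have := mul_mem ha hb
    rwa [show m * a * m⁻¹ * (m * b * m⁻¹) = m * (a * b) * m⁻¹ by group] at this
  | inv a _ ha =>
    have := inv_mem ha
    rwa [show (m * a * m⁻¹)⁻¹ = m * a⁻¹ * m⁻¹ by group] at this

/-- The orbit relation on triples. -/
def TR (F : Form O ι) (P : Submodule O (ι → O)) (f f' : ι → O) (l : O) (a b : O) (x : ι → O)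
    (a' b' : O) (x' : ι → O) : Prop :=
  x ∈ LL F P f f' → x' ∈ LL F P f f' ∧ ∃ e ∈ EL F P f f' l, ∃ m ∈ sup F (LL F P f f'),
    act (m * e) *ᵥ (a • f + b • f' + x) = a' • f + b' • f' + x'

lemma tr_mv (T : Hyp F f f') : S0Mv F (LL F P f f') l (TR F P f f' l) where
  refl a b x hx := ⟨hx, 1, one_mem _, 1, one_mem _, by simp⟩
  trans h h' hx := by
    obtain ⟨h1, e, he, m, hm, q⟩ := h hx
    obtain ⟨h2, e', he', m', hm', q'⟩ := h' h1
    refine ⟨h2, m⁻¹ * e' * m⁻¹⁻¹ * e, mul_mem (conj_mem_EL (inv_mem hm) he') he, m' * m,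
      mul_mem hm' hm, ?_⟩
    rw [show m' * m * (m⁻¹ * e' * m⁻¹⁻¹ * e) = m' * e' * (m * e) by group, act_mul_mulVec, q, q']
  mv' a b x y hy c hc hx := by
    obtain ⟨-, y1, y2⟩ := mem_LL.1 hy
    obtain ⟨-, x1, x2⟩ := mem_LL.1 hx
    have e : F.IsE f' ((1 - F.z) • y) c := ⟨T.f'f', by simp [y2], hc⟩
    refine ⟨Submodule.sub_mem _ hx (Submodule.smul_mem _ _ (Submodule.smul_mem _ _ hy)), mkE e,
      Subgroup.subset_closure (Or.inl ⟨_, c, e, Submodule.smul_mem _ _ hy, Dv.smul_self _ _, rfl⟩),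
      1, one_mem _, ?_⟩
    rw [one_mul, act_mkE]
    simp only [B_add_right, B_smul_right, B_smul_left, T.f'f, T.f'f', x2, F.B_eq_zero_swap y1,
      F.B_eq_zero_swap y2]
    module
  mv a b x y hy c hc hx := by
    obtain ⟨-, y1, y2⟩ := mem_LL.1 hy
    obtain ⟨-, x1, x2⟩ := mem_LL.1 hx
    have e : F.IsE f ((1 - F.z) • y) c := ⟨T.ff, by simp [y1], hc⟩
    refine ⟨Submodule.sub_mem _ hx (Submodule.smul_mem _ _ (Submodule.smul_mem _ _
      (Submodule.smul_mem _ _ hy))), mkE (scaleE e l),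
      Subgroup.subset_closure (Or.inr ⟨_, c, e, Submodule.smul_mem _ _ hy, Dv.smul_self _ _, rfl⟩),
      1, one_mem _, ?_⟩
    rw [one_mul, act_mkE]
    simp only [B_add_right, B_smul_right, B_smul_left, T.ff, T.ff', x1, F.B_eq_zero_swap y1,
      F.B_eq_zero_swap y2]
    module

lemma pair_decomp (T : Hyp F f f') (fP : f ∈ P) (f'P : f' ∈ P) {v : ι → O} (hv : v ∈ P) :
    xco F f f' v ∈ LL F P f f' ∧ v = aco F f' v • f + F.B f v • f' + xco F f f' v := by
  refine ⟨mem_LL.2 ⟨P.sub_mem (P.sub_mem hv (P.smul_mem _ fP)) (P.smul_mem _ f'P), ?_, ?_⟩,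
    by rw [xco]; abel⟩
  · simp [xco, T.ff, T.ff']
  · simp only [xco, aco, B_sub_right, B_smul_right, T.f'f, T.f'f']
    linear_combination (-F.B f' v) * F.hz

lemma norm_triple (T : Hyp F f f') (a b : O) {x : ι → O} (hx : x ∈ LL F P f f') :
    F.B (a • f + b • f' + x) (a • f + b • f' + x) = tN F a b x := by
  obtain ⟨-, x1, x2⟩ := mem_LL.1 hx
  simp only [tN, B_add_left, B_add_right, B_smul_left, B_smul_right, T.ff, T.ff', T.f'f, T.f'f',
    x1, x2, F.B_eq_zero_swap x1, F.B_eq_zero_swap x2]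
  ring

/-- The triple data of an admissible isotropic vector. -/
lemma sv_triple (H : RH F.z) (T : Fr0 F P f f' ρ) {v : ι → O} (S : Sv F P f f' l v) :
    ∃ u ∈ LL F P f f', xco F f f' v = (1 - F.z) • u ∧
      tN F (aco F f' v) (F.B f v) ((1 - F.z) • u) = 0 ∧ ∃ α β, ∃ y ∈ LL F P f f',
      α * (star l * F.B f v) + β * aco F f' v + F.B y ((1 - F.z) • u) = 1 := by
  have hz := F.hz
  obtain ⟨hx, ev⟩ := pair_decomp T.hyp T.fP T.f'P S.mem
  have hd : Dv (1 - F.z) (xco F f f' v) := by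
    have e : xco F f f' v = (v - f) - (aco F f' v - 1) • f - F.B f (v - f) • f' := by
      rw [xco, B_sub_right, T.hyp.ff]; module
    rw [e]
    exact (S.dv.sub (Dv.smul_of_dvd (((dvd_pow_self _ two_ne_zero).mul_right _).trans S.ca)
      _)).sub (Dv.smul_of_dvd (S.dv.B_right F f) _)
  obtain ⟨u, hu⟩ := hd.exists
  refine ⟨u, sat_LL T.sat _ u H.one_sub (hu ▸ hx), hu, ?_, ?_⟩
  · rw [← hu, ← norm_triple T.hyp _ _ hx, ← ev, S.iso]
  · obtain ⟨y, hy, ⟨k, hk⟩, e⟩ := S.prim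
    obtain ⟨hy', ey⟩ := pair_decomp T.hyp T.fP T.f'P hy
    obtain ⟨-, y1, y2⟩ := mem_LL.1 hy'
    refine ⟨F.z * star k, star (F.B f y) * F.z, _, hy', ?_⟩
    have e2 : F.B (xco F f f' y) (xco F f f' v) = F.B (xco F f f' y) v := by
      rw [xco.eq_def F f f' v, B_sub_right, B_sub_right, B_smul_right, B_smul_right,
        F.B_eq_zero_swap y1, F.B_eq_zero_swap y2]
      ring
    rw [← hu, e2]
    rw [ey, B_add_left, B_add_left, B_smul_left, B_smul_left, aco, hk] at e
    simp only [star_mul, star_star] at e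
    rw [aco]
    linear_combination e + (star (F.B f y) * F.B f' v) * hz

/-- Transitivity of the elementary group. -/
theorem transT [CharZero O] (H : RH F.z) (T : Fr F P f f' ρ D) (hl : Nice D l) {v : ι → O}
    (S : Sv F P f f' l v) : ∃ e ∈ EL F P f f' l, act e *ᵥ v = f := by
  obtain ⟨u, hu, eu, hn, wit⟩ := sv_triple H T.toFr0 S
  obtain ⟨hx, ev⟩ := pair_decomp T.hyp T.fP T.f'P S.mem
  have M := (tr_mv (P := P) (l := l) T.hyp).withNorm
  obtain ⟨r, -⟩ := M.tri H (fun a b x m hm => ⟨fun hx => ⟨act_mem hm.1 hx, 1, one_mem _, m, hm.1, by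
      obtain ⟨h1, h2⟩ := fix_pair_of_sup hm.1
      rw [mul_one, mulVec_add, mulVec_add, mulVec_smul, mulVec_smul, h1, h2]⟩,
      by simp only [tN, B_act]⟩) (fun h => h.2) (sat_LL T.sat) T.ρL T.ρρ T.D0 T.Dr T.sa hl hu S.ca
      hn wit
  obtain ⟨-, e, he, m, hm, q⟩ := r (eu ▸ hx)
  rw [← eu, ← ev, one_smul, zero_smul, add_zero, add_zero, act_mul_mulVec] at q
  refine ⟨e, he, ?_⟩
  rw [← act_inv_act m (act e *ᵥ v), q, (fix_pair_of_sup (inv_mem hm)).1]

end R.T92

end Pool.Agent.Lib.MP_61a4e3_al
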